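import Pool.Agent.TH967.DP.AS

open Classical

namespace Pool.Agent.Q220.DP
open TH967.DP

variable {d : ℕ}

lemma lip_add {f : ℕ → ℕ} (hf : ∀ t, f (t + 1) ≤ f t + 1) (t u : ℕ) : f (t + u) ≤ f t + u := by
  induction u with
  | zero => simp
  | succ u ih =>
    have := hf (t + u)
    rw [← add_assoc]
    omega

/-- a block of length `T` in which `f` increases by at least `h` -/
lemma rich {f : ℕ → ℕ} (hf : ∀ t, f (t + 1) ≤ f t + 1) {T h a : ℕ} (hT : 1 ≤ T)
    (hbig : f 0 + ((a / T) * h + T) < f a) : ∃ s, s + T ≤ a ∧ f s + h ≤ f (s + T) := by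
  by_contra hcon
  push Not at hcon
  have h1 : ∀ j, j * T ≤ a → f (j * T) ≤ f 0 + j * h := by
    intro j
    induction j with
    | zero => intro _; simp
    | succ j ih =>
      intro hj
      have h2 : j * T + T ≤ a := by
        rw [Nat.succ_mul] at hj
        exact hj
      have h3 := ih (by omega)
      have h4 := hcon (j * T) h2
      rw [Nat.succ_mul, Nat.succ_mul]
      omega
  have h2 : (a / T) * T ≤ a := Nat.div_mul_le_self a T
  have h3 := h1 (a / T) h2
  have h4 := lip_add hf ((a / T) * T) (a % T)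
  have h5 : (a / T) * T + a % T = a := by
    rw [mul_comm]
    exact Nat.div_add_mod a T
  rw [h5] at h4
  have h6 : a % T < T := Nat.mod_lt _ (by omega)
  omega

/-- two blocks, far apart -/
lemma two_rich {f g : ℕ → ℕ} (hf : ∀ t, f (t + 1) ≤ f t + 1) (hg : ∀ t, g (t + 1) ≤ g t + 1)
    (hf0 : f 0 = 0) (hg0 : g 0 = 0) {l T h q : ℕ} (hT : 1 ≤ T) (hq : (l / T) * h + T < q)
    (hfl : 4 * q ≤ f l) (hgl : 4 * q ≤ g l) :
    ∃ s1 s2, s1 + T + q ≤ s2 ∧ s2 + T ≤ l ∧
      ((f s1 + h ≤ f (s1 + T) ∧ g s2 + h ≤ g (s2 + T)) ∨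
        (g s1 + h ≤ g (s1 + T) ∧ f s2 + h ≤ f (s2 + T))) := by
  have key : ∀ f g : ℕ → ℕ, (∀ t, f (t + 1) ≤ f t + 1) → (∀ t, g (t + 1) ≤ g t + 1) → f 0 = 0 →
      g 0 = 0 → 4 * q ≤ g l → ∀ tf tg, tf ≤ tg → tg ≤ l → 2 * q ≤ f tf → g tg ≤ 2 * q →
      ∃ s1 s2, s1 + T + q ≤ s2 ∧ s2 + T ≤ l ∧ f s1 + h ≤ f (s1 + T) ∧
        g s2 + h ≤ g (s2 + T) := by
    intro f g hf hg hf0 hg0 hgl tf tg h1 h2 h3 h4
    have h5 : 2 * q ≤ tf := by
      have := lip_add hf 0 tf
      rw [zero_add, hf0] at this
      omega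
    have h6 : q ≤ f (tf - q) := by
      have := lip_add hf (tf - q) q
      have e : tf - q + q = tf := by omega
      rw [e] at this
      omega
    obtain ⟨s1, hs1, hs1'⟩ := rich hf (T := T) (h := h) (a := tf - q) hT (by
      rw [hf0]
      have : (tf - q) / T * h ≤ (l / T) * h :=
        Nat.mul_le_mul_right h (Nat.div_le_div_right (by omega))
      omega)
    obtain ⟨s, hs, hs'⟩ := rich (f := fun t => g (tg + t)) (fun t => hg (tg + t)) (T := T)
      (h := h) (a := l - tg) hT (by
      simp only [add_zero]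
      have e : tg + (l - tg) = l := by omega
      rw [e]
      have : (l - tg) / T * h ≤ (l / T) * h :=
        Nat.mul_le_mul_right h (Nat.div_le_div_right (by omega))
      omega)
    refine ⟨s1, tg + s, by omega, by omega, hs1', ?_⟩
    have e : tg + (s + T) = tg + s + T := by omega
    rw [← e]
    exact hs'
  have hexf : ∃ t, 2 * q ≤ f t := ⟨l, by omega⟩
  have hexg : ∃ t, 2 * q ≤ g t := ⟨l, by omega⟩
  have hmin : ∀ (f : ℕ → ℕ) (hf : ∀ t, f (t + 1) ≤ f t + 1) (hf0 : f 0 = 0)
      (hex : ∃ t, 2 * q ≤ f t), f (Nat.find hex) ≤ 2 * q := by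
    intro f hf hf0 hex
    rcases Nat.eq_zero_or_pos (Nat.find hex) with h0 | h0
    · rw [h0, hf0]
      omega
    · have h1 := Nat.find_min hex (m := Nat.find hex - 1) (by omega)
      have h2 := hf (Nat.find hex - 1)
      have e : Nat.find hex - 1 + 1 = Nat.find hex := by omega
      rw [e] at h2
      omega
  have hlef : Nat.find hexf ≤ l := Nat.find_min' hexf (by omega)
  have hleg : Nat.find hexg ≤ l := Nat.find_min' hexg (by omega)
  rcases le_total (Nat.find hexf) (Nat.find hexg) with hle | hle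
  · obtain ⟨s1, s2, h1, h2, h3, h4⟩ := key f g hf hg hf0 hg0 hgl _ _ hle hleg
      (Nat.find_spec hexf) (hmin g hg hg0 hexg)
    exact ⟨s1, s2, h1, h2, Or.inl ⟨h3, h4⟩⟩
  · obtain ⟨s1, s2, h1, h2, h3, h4⟩ := key g f hg hf hg0 hf0 hfl _ _ hle hlef
      (Nat.find_spec hexg) (hmin f hf hf0 hexf)
    exact ⟨s1, s2, h1, h2, Or.inr ⟨h3, h4⟩⟩

/-- the number of steps of type `e` at the times in `[a, b)` -/
noncomputable def cnt {N : ℕ} (w : Fin N → Step d) (e : Step d) (a b : ℕ) : ℕ :=
  (Finset.univ.filter (fun i : Fin N => (a ≤ i.val ∧ i.val < b) ∧ w i = e)).card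

lemma cnt_self {N : ℕ} (w : Fin N → Step d) (e : Step d) (a : ℕ) : cnt w e a a = 0 := by
  unfold cnt
  rw [Finset.card_eq_zero, Finset.filter_eq_empty_iff]
  intro i _ h
  omega

lemma cnt_succ {N : ℕ} (w : Fin N → Step d) (e : Step d) (a b : ℕ) :
    cnt w e a (b + 1) ≤ cnt w e a b + 1 := by
  unfold cnt
  have h1 : (Finset.univ.filter (fun i : Fin N => (a ≤ i.val ∧ i.val < b + 1) ∧ w i = e)) ⊆
      (Finset.univ.filter (fun i : Fin N => (a ≤ i.val ∧ i.val < b) ∧ w i = e)) ∪
      (Finset.univ.filter (fun i : Fin N => i.val = b)) := by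
    intro i hi
    rw [Finset.mem_filter] at hi
    rw [Finset.mem_union, Finset.mem_filter, Finset.mem_filter]
    by_cases hb : i.val = b
    · exact Or.inr ⟨Finset.mem_univ _, hb⟩
    · exact Or.inl ⟨Finset.mem_univ _, ⟨hi.2.1.1, by omega⟩, hi.2.2⟩
  have h2 : (Finset.univ.filter (fun i : Fin N => i.val = b)).card ≤ 1 := by
    rw [Finset.card_le_one]
    intro i hi j hj
    rw [Finset.mem_filter] at hi hj
    exact Fin.ext (by omega)
  exact (Finset.card_le_card h1).trans ((Finset.card_union_le _ _).trans (by omega))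

lemma cnt_add {N : ℕ} (w : Fin N → Step d) (e : Step d) {a b c : ℕ} (hab : a ≤ b) (hbc : b ≤ c) :
    cnt w e a c = cnt w e a b + cnt w e b c := by
  unfold cnt
  rw [← Finset.card_union_of_disjoint]
  · congr 1
    ext i
    simp only [Finset.mem_union, Finset.mem_filter, Finset.mem_univ, true_and]
    constructor
    · rintro ⟨⟨h1, h2⟩, h3⟩
      by_cases hb : i.val < b
      · exact Or.inl ⟨⟨h1, hb⟩, h3⟩
      · exact Or.inr ⟨⟨by omega, h2⟩, h3⟩
    · rintro (⟨⟨h1, h2⟩, h3⟩ | ⟨⟨h1, h2⟩, h3⟩)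
      · exact ⟨⟨h1, by omega⟩, h3⟩
      · exact ⟨⟨by omega, h2⟩, h3⟩
  · rw [Finset.disjoint_filter]
    rintro i _ ⟨⟨_, h1⟩, _⟩ ⟨⟨h2, _⟩, _⟩
    omega

/-- the displacement as a difference of counts -/
lemma disp_eq {N : ℕ} (w : Fin N → Step d) {a b : ℕ} (hab : a ≤ b) (k : Fin d) :
    (pos w b - pos w a) k = (cnt w (k, true) a b : ℤ) - cnt w (k, false) a b := by
  unfold pos cnt
  rw [Pi.sub_apply, Finset.sum_apply, Finset.sum_apply, ← Finset.sum_sub_distrib]
  rw [Finset.card_filter, Finset.card_filter]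
  push_cast
  rw [← Finset.sum_sub_distrib]
  apply Finset.sum_congr rfl
  intro i _
  have hsv : stepVec (w i) k = (if w i = (k, true) then (1 : ℤ) else 0) -
      (if w i = (k, false) then (1 : ℤ) else 0) := by
    unfold stepVec
    rcases hw : w i with ⟨j, b⟩
    by_cases hj : k = j
    · subst hj
      cases b <;> simp
    · rw [Pi.single_eq_of_ne hj]
      have h1 : ((j, b) : Step d) ≠ (k, true) := fun h => hj (congrArg Prod.fst h).symm
      have h2 : ((j, b) : Step d) ≠ (k, false) := fun h => hj (congrArg Prod.fst h).symm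
      rw [if_neg h1, if_neg h2, sub_zero]
  by_cases h1 : i.val < a
  · have h2 : i.val < b := by omega
    rw [if_pos h1, if_pos h2, if_neg (fun h => by omega), if_neg (fun h => by omega)]
    simp
  · by_cases h2 : i.val < b
    · rw [if_neg h1, if_pos h2, Pi.zero_apply, sub_zero, hsv]
      have h3 : (a ≤ i.val ∧ i.val < b) := ⟨by omega, h2⟩
      simp only [h3, true_and, and_self]
    · rw [if_neg h1, if_neg h2, if_neg (fun h => by omega), if_neg (fun h => by omega)]
      simp

lemma cnt_total {N : ℕ} (w : Fin N → Step d) {a b : ℕ} (hab : a ≤ b) (hb : b ≤ N) :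
    ∑ k : Fin d, ((cnt w (k, true) a b : ℤ) + cnt w (k, false) a b) = (b : ℤ) - a := by
  have h1 : ∑ e : Step d, cnt w e a b = b - a := by
    unfold cnt
    rw [← Finset.card_biUnion]
    · have h2 : (Finset.univ : Finset (Step d)).biUnion (fun e =>
          Finset.univ.filter (fun i : Fin N => (a ≤ i.val ∧ i.val < b) ∧ w i = e)) =
          Finset.univ.filter (fun i : Fin N => a ≤ i.val ∧ i.val < b) := by
        ext i
        simp
      rw [h2]
      have h3 : (Finset.univ.filter (fun i : Fin N => a ≤ i.val ∧ i.val < b)).card =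
          (Finset.Ico a b).card := by
        apply Finset.card_bij (fun i _ => i.val)
        · intro i hi
          rw [Finset.mem_filter] at hi
          exact Finset.mem_Ico.2 hi.2
        · intro i _ j _ h
          exact Fin.ext h
        · intro j hj
          rw [Finset.mem_Ico] at hj
          exact ⟨⟨j, by omega⟩, by rw [Finset.mem_filter]; exact ⟨Finset.mem_univ _, hj⟩, rfl⟩
      rw [h3, Nat.card_Ico]
    · intro e1 _ e2 _ hne
      rw [Function.onFun, Finset.disjoint_filter]
      rintro i _ ⟨_, h1⟩ ⟨_, h2⟩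
      exact hne (h1.symm.trans h2)
  have h2 : ∑ e : Step d, cnt w e a b = ∑ k : Fin d, (cnt w (k, true) a b + cnt w (k, false) a b) := by
    rw [Fintype.sum_prod_type]
    apply Finset.sum_congr rfl
    intro k _
    rw [Fintype.sum_bool]
  rw [h2] at h1
  have h3 : ((∑ k : Fin d, (cnt w (k, true) a b + cnt w (k, false) a b) : ℕ) : ℤ) = (b : ℤ) - a := by
    rw [h1]
    push_cast [Nat.cast_sub hab]
    rfl
  rw [← h3]
  push_cast
  rfl

/-- a coordinate with many steps in both directions -/
lemma exists_coord {N : ℕ} (w : Fin N → Step d) (hd : 0 < d) {a b x : ℕ} (hab : a ≤ b)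
    (hb : b ≤ N) (hx : ∑ k, |(pos w b - pos w a) k| + 2 * d * x ≤ (b : ℤ) - a) :
    ∃ k, x ≤ cnt w (k, true) a b ∧ x ≤ cnt w (k, false) a b := by
  by_contra hcon
  push Not at hcon
  have h1 : ∀ k : Fin d, ((cnt w (k, true) a b : ℤ) + cnt w (k, false) a b) <
      |(pos w b - pos w a) k| + 2 * x := by
    intro k
    rw [disp_eq w hab]
    have h2 := hcon k
    by_cases hc : x ≤ cnt w (k, true) a b
    · have h3 := h2 hc
      have h4 := le_abs_self ((cnt w (k, true) a b : ℤ) - cnt w (k, false) a b)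
      have h3z : (cnt w (k, false) a b : ℤ) < x := by exact_mod_cast h3
      linarith
    · have h4 := neg_le_abs ((cnt w (k, true) a b : ℤ) - cnt w (k, false) a b)
      have h3z : (cnt w (k, true) a b : ℤ) < x := by
        have : cnt w (k, true) a b < x := not_le.1 hc
        exact_mod_cast this
      linarith
  have hne : (Finset.univ : Finset (Fin d)).Nonempty := ⟨⟨0, hd⟩, Finset.mem_univ _⟩
  have h2 := Finset.sum_lt_sum_of_nonempty hne (fun k _ => h1 k)
  rw [cnt_total w hab hb, Finset.sum_add_distrib, Finset.sum_const, Finset.card_univ,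
    Fintype.card_fin, nsmul_eq_mul] at h2
  have h3 : (d : ℤ) * (2 * x) = 2 * d * x := by ring
  linarith

/-- the displacement can be changed in a block with many steps of one type -/
lemma shift_block {N : ℕ} (w : Fin N → Step d) {a b h : ℕ} (hab : a ≤ b) (hb : b ≤ N)
    {k : Fin d} {t : Bool} (hh : h ≤ cnt w (k, t) a b) {A' sl : ℤ} (hsl0 : 0 ≤ sl) (h1 : sl ≤ A')
    (h2 : A' + sl ≤ 2 * h) :
    ∑ j, |(pos w b - pos w a + (Pi.single k ((if t then -1 else 1) * A') : Fin d → ℤ)) j| + sl ≤
      (b : ℤ) - a := by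
  rw [← cnt_total w hab hb]
  have h3 : ∀ j : Fin d, |(pos w b - pos w a + (Pi.single k ((if t then -1 else 1) * A') : Fin d → ℤ)) j| +
      (if j = k then sl else 0) ≤ (cnt w (j, true) a b : ℤ) + cnt w (j, false) a b := by
    intro j
    rw [Pi.add_apply, disp_eq w hab]
    have p1 : (0 : ℤ) ≤ cnt w (j, true) a b := by positivity
    have p2 : (0 : ℤ) ≤ cnt w (j, false) a b := by positivity
    by_cases hj : j = k
    · subst hj
      rw [Pi.single_eq_same, if_pos rfl]
      have hhz : (h : ℤ) ≤ cnt w (j, t) a b := by exact_mod_cast hh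
      cases t with
      | true =>
        simp only [if_true]
        have : |(cnt w (j, true) a b : ℤ) - cnt w (j, false) a b + -1 * A'| ≤
            (cnt w (j, true) a b : ℤ) + cnt w (j, false) a b - sl := by
          rw [abs_le]
          constructor <;> linarith
        linarith
      | false =>
        simp only [Bool.false_eq_true, if_false]
        have : |(cnt w (j, true) a b : ℤ) - cnt w (j, false) a b + 1 * A'| ≤
            (cnt w (j, true) a b : ℤ) + cnt w (j, false) a b - sl := by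
          rw [abs_le]
          constructor <;> linarith
        linarith
    · rw [Pi.single_eq_of_ne hj, if_neg hj, add_zero, add_zero, abs_le]
      constructor <;> linarith
  have h4 := Finset.sum_le_sum (s := Finset.univ) (fun j _ => h3 j)
  rw [Finset.sum_add_distrib, Finset.sum_ite_eq', if_pos (Finset.mem_univ k)] at h4
  exact h4

end Pool.Agent.Q220.DP
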