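import Pool.Agent.TH967.DP.Defs

/-!
Directed polymers restricted to a set of walks, and the fluctuation exponent.
The walk, the energy, the partition function, the polymer measure and the wandering exponent are
in `Pool/Agent/TH967/DP/Defs.lean`.
-/

namespace Pool.Agent.Q220.DP
open TH967.DP

/-- `Z_n(W) = E(exp(β ∑_{i≤n} ω(i,S_i)); S ∈ W)` for a set `W` of walks of `n` steps. -/
noncomputable def restrictedFn {d : ℕ} (β : ℝ) (η : ℕ → (Fin d → ℤ) → ℝ) (n : ℕ)
    (W : Set (Fin n → Step d)) : ℝ :=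
  (∑ w : Fin n → Step d, W.indicator (fun w => Real.exp (β * energy η w)) w) / (2 * (d : ℝ)) ^ n

/-- The mean of `f` under the polymer measure conditioned on `W`:
`E(f exp(β ∑_{i≤n} ω(i,S_i)); S ∈ W) / Z_n(W)`. -/
noncomputable def restrictedMean {d : ℕ} (β : ℝ) (η : ℕ → (Fin d → ℤ) → ℝ) (n : ℕ)
    (W : Set (Fin n → Step d)) (f : (Fin n → Step d) → ℝ) : ℝ :=
  ((∑ w : Fin n → Step d, W.indicator (fun w => f w * Real.exp (β * energy η w)) w) /
    (2 * (d : ℝ)) ^ n) / restrictedFn β η n W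

open MeasureTheory Filter in
/-- The fluctuation exponent `χ = sup{a > 0 : Var(log Z_n) ≥ n^(2a) for all large n}` (it is `0`
if there is no such `a`). -/
noncomputable def fluctExp {d : ℕ} {Ω : Type} [MeasurableSpace Ω] (P : Measure Ω)
    (ω : ℕ → (Fin d → ℤ) → Ω → ℝ) (β : ℝ) : ℝ :=
  sSup {a : ℝ | 0 < a ∧ ∀ᶠ n : ℕ in atTop, (n : ℝ) ^ (2 * a) ≤
    ProbabilityTheory.variance (fun x => Real.log (partitionFn β (fun i y => ω i y x) n)) P}

end Pool.Agent.Q220.DP
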