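import Pool.Agent.Q220.DP.Sets

open MeasureTheory ProbabilityTheory Filter Topology
open Classical

namespace Pool.Agent.Q220.DP
open TH967.DP

variable {d : ℕ} {Ω : Type} [MeasurableSpace Ω] {P : Measure Ω} [IsProbabilityMeasure P]

omit [IsProbabilityMeasure P] in
lemma measurable_prob {ω : ℕ → (Fin d → ℤ) → Ω → ℝ} (h : IsEnv P ω) (β : ℝ) (n : ℕ)
    (A : Set (Fin n → Step d)) :
    Measurable (fun x => polymerProb β (fun i z => ω i z x) n A) := by
  have := measurable_mean h β n Set.univ (A.indicator (fun _ => (1 : ℝ)))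
  simp_rw [mean_indicator, one_mul] at this
  exact this

omit [IsProbabilityMeasure P] in
lemma measurable_Z {ω : ℕ → (Fin d → ℤ) → Ω → ℝ} (h : IsEnv P ω) (β : ℝ) (n : ℕ) :
    Measurable (fun x => partitionFn β (fun i z => ω i z x) n) := by
  unfold partitionFn
  apply Measurable.div_const
  apply Finset.measurable_sum
  intro w _
  apply Real.measurable_exp.comp
  apply Measurable.const_mul
  unfold energy
  apply Finset.measurable_sum
  intro i _
  exact h.meas _ _

lemma prob_le_one (hd : 0 < d) (β : ℝ) (η : ℕ → (Fin d → ℤ) → ℝ) (n : ℕ)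
    (A : Set (Fin n → Step d)) : polymerProb β η n A ≤ 1 := by
  rw [← polymerProb_univ hd β η n]
  exact polymerProb_mono hd β η n (Set.subset_univ _)

/-- if `κ` is in the set which defines `ν`, then the tube has small deficit in probability -/
lemma tendsto_bad {ω : ℕ → (Fin d → ℤ) → Ω → ℝ} (h : IsEnv P ω) (hd : 0 < d) {β κ : ℝ}
    (hκ : ∫⁻ x, liminf (fun n : ℕ => ENNReal.ofReal (polymerProb β
      (fun i y => ω i y x) n (cyl d n n ((n : ℝ) ^ κ)))) atTop ∂P = 1) :
    Tendsto (fun n : ℕ => P.real {x | polymerProb β (fun i z => ω i z x) n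
      (cyl d n n ((n : ℝ) ^ κ)) < 1 / 2}) atTop (𝓝 0) := by
  set g : Ω → ENNReal := fun x => liminf (fun n : ℕ => ENNReal.ofReal (polymerProb β
      (fun i y => ω i y x) n (cyl d n n ((n : ℝ) ^ κ)))) atTop with hg
  have hgm : Measurable g := by
    apply Measurable.liminf
    intro n
    exact ENNReal.measurable_ofReal.comp (measurable_prob h β n _)
  have hg1 : ∀ x, g x ≤ 1 := by
    intro x
    apply liminf_le_of_le
    · isBoundedDefault
    · intro b hb
      obtain ⟨n, hn⟩ := hb.exists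
      refine hn.trans ?_
      rw [← ENNReal.ofReal_one]
      exact ENNReal.ofReal_le_ofReal (prob_le_one hd _ _ _ _)
  have hae : ∀ᵐ x ∂P, g x = 1 := by
    have h1 : ∫⁻ x, (1 - g x) ∂P = 0 := by
      rw [lintegral_sub hgm (by rw [hκ]; simp) (Eventually.of_forall hg1), hκ]
      simp
    have h2 := (lintegral_eq_zero_iff (f := fun x => 1 - g x) (measurable_const.sub hgm)).1 h1
    filter_upwards [h2] with x hx
    simp only [Pi.zero_apply] at hx
    exact le_antisymm (hg1 x) (tsub_eq_zero_iff_le.1 hx)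
  -- dominated convergence
  have hbm : ∀ n : ℕ, MeasurableSet {x | polymerProb β (fun i z => ω i z x) n
      (cyl d n n ((n : ℝ) ^ κ)) < 1 / 2} := fun n =>
    measurableSet_lt (measurable_prob h β n _) measurable_const
  have e1 : ∀ n : ℕ, P.real {x | polymerProb β (fun i z => ω i z x) n
      (cyl d n n ((n : ℝ) ^ κ)) < 1 / 2} = ∫ x, {x | polymerProb β (fun i z => ω i z x) n
      (cyl d n n ((n : ℝ) ^ κ)) < 1 / 2}.indicator (fun _ => (1 : ℝ)) x ∂P := by
    intro n
    rw [integral_indicator (hbm n)]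
    simp
  simp_rw [e1]
  have h0 : (0 : ℝ) = ∫ x, (0 : ℝ) ∂P := by simp
  rw [h0]
  apply tendsto_integral_of_dominated_convergence (fun _ => (1 : ℝ))
  · intro n
    exact (measurable_const.indicator (hbm n)).aestronglyMeasurable
  · exact integrable_const _
  · intro n
    apply Eventually.of_forall
    intro x
    by_cases hx : x ∈ {x | polymerProb β (fun i z => ω i z x) n
      (cyl d n n ((n : ℝ) ^ κ)) < 1 / 2}
    · rw [Set.indicator_of_mem hx]; simp
    · rw [Set.indicator_of_notMem hx]; simp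
  · filter_upwards [hae] with x hx
    have h2 : ∀ᶠ n : ℕ in atTop, ENNReal.ofReal (1 / 2) < ENNReal.ofReal (polymerProb β
      (fun i y => ω i y x) n (cyl d n n ((n : ℝ) ^ κ))) := by
      apply eventually_lt_of_lt_liminf
      · rw [← hg] at *
        change ENNReal.ofReal (1 / 2) < g x
        rw [hx, ← ENNReal.ofReal_one]
        exact (ENNReal.ofReal_lt_ofReal_iff one_pos).2 (by norm_num)
      · isBoundedDefault
    apply tendsto_const_nhds.congr'
    filter_upwards [h2] with n hn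
    have h3 : (1 : ℝ) / 2 < polymerProb β (fun i y => ω i y x) n (cyl d n n ((n : ℝ) ^ κ)) := by
      by_contra hcon
      push Not at hcon
      exact absurd hn (not_lt.2 (ENNReal.ofReal_le_ofReal hcon))
    rw [Set.indicator_of_notMem]
    simp only [Set.mem_ofPred_eq, not_lt]
    exact h3.le

/-- small balls at every scale below `n^((1-dν)/2)` -/
theorem small_ball {ω : ℕ → (Fin d → ℤ) → Ω → ℝ} (h : IsEnv P ω) (hd : 0 < d)
    (hexp : ∀ b : ℝ, Integrable (fun x => Real.exp (b * ω 1 0 x)) P)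
    (hnc : ¬ ∃ c : ℝ, ∀ᵐ x ∂P, ω 1 0 x = c) {β : ℝ} (hβ : 0 < β) {lam : ℝ} (hl0 : 0 ≤ lam)
    (hlam : lam < (1 - d * wanderingExp P ω β) / 2) {ε : ℝ} (hε : 0 < ε) :
    ∀ᶠ n : ℕ in atTop, ∀ y : ℝ,
      P.real {x | |Real.log (partitionFn β (fun i z => ω i z x) n) - y| ≤ (n : ℝ) ^ lam} ≤ ε := by
  obtain ⟨C, hC, hCw⟩ := weights h hd hexp hnc hβ
  have hdR : (0 : ℝ) < d := by exact_mod_cast hd
  have hne : {a : ℝ | 0 < a ∧ ∫⁻ x, liminf (fun n : ℕ => ENNReal.ofReal (polymerProb β
    (fun i y => ω i y x) n (cyl d n n ((n : ℝ) ^ a)))) atTop ∂P = 1}.Nonempty := by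
    refine ⟨1, one_pos, ?_⟩
    have : ∀ x, liminf (fun n : ℕ => ENNReal.ofReal (polymerProb β (fun i y => ω i y x) n
        (cyl d n n ((n : ℝ) ^ (1 : ℝ))))) atTop = 1 := by
      intro x
      have : (fun n : ℕ => ENNReal.ofReal (polymerProb β (fun i y => ω i y x) n
        (cyl d n n ((n : ℝ) ^ (1 : ℝ))))) = fun _ => 1 := by
        ext1 n
        rw [cyl_one, polymerProb_univ hd, ENNReal.ofReal_one]
      rw [this]
      exact liminf_const _
    simp_rw [this]
    simp
  have hν : wanderingExp P ω β < (1 - 2 * lam) / d := by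
    rw [lt_div_iff₀ hdR]
    linarith
  obtain ⟨κ, ⟨hκ0, hκ1⟩, hκ2⟩ := exists_lt_of_csInf_lt hne hν
  rw [lt_div_iff₀ hdR] at hκ2
  have hbad := tendsto_bad h hd hκ1
  set γ := (1 - d * κ) / 2 - lam with hγ
  have hγ0 : 0 < γ := by rw [hγ]; linarith
  -- the second term
  have hdec : Tendsto (fun n : ℕ => 2 * C * (3 * Real.sqrt (3 ^ d)) * (n : ℝ) ^ (-γ)) atTop
      (𝓝 0) := by
    have h1 : Tendsto (fun n : ℕ => (n : ℝ) ^ (-γ)) atTop (𝓝 0) :=
      (tendsto_rpow_neg_atTop hγ0).comp tendsto_natCast_atTop_atTop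
    have h2 := h1.const_mul (2 * C * (3 * Real.sqrt (3 ^ d)))
    rwa [mul_zero] at h2
  have hb1 : ∀ᶠ n : ℕ in atTop, P.real {x | polymerProb β (fun i z => ω i z x) n
      (cyl d n n ((n : ℝ) ^ κ)) < 1 / 2} < ε / 2 := hbad.eventually_lt_const (by linarith)
  have hb2 : ∀ᶠ n : ℕ in atTop, 2 * C * (3 * Real.sqrt (3 ^ d)) * (n : ℝ) ^ (-γ) < ε / 2 :=
    hdec.eventually_lt_const (by linarith)
  filter_upwards [hb1, hb2, eventually_ge_atTop 1] with n h1 h2 hn
  intro y
  have hnR : (1 : ℝ) ≤ n := by exact_mod_cast hn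
  have hn0 : (0 : ℝ) < n := by linarith
  have hsub : {x | |Real.log (partitionFn β (fun i z => ω i z x) n) - y| ≤ (n : ℝ) ^ lam} ⊆
      {x | Real.log (partitionFn β (fun i z => ω i z x) n) ∈
        Set.Icc (y - (n : ℝ) ^ lam) ((y - (n : ℝ) ^ lam) + 2 * (n : ℝ) ^ lam)} := by
    intro x hx
    simp only [Set.mem_ofPred_eq, Set.mem_Icc] at hx ⊢
    rw [abs_le] at hx
    constructor <;> linarith [hx.1, hx.2]
  have hL0 : 0 ≤ 2 * (n : ℝ) ^ lam := by positivity
  have hmain := tube h hd hC hCw hn (r := (n : ℝ) ^ κ) (by positivity) (y - (n : ℝ) ^ lam) hL0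
  have hp1 : (1 : ℝ) ≤ (n : ℝ) ^ lam := Real.one_le_rpow hnR hl0
  have hp2 : (1 : ℝ) ≤ (n : ℝ) ^ κ := Real.one_le_rpow hnR hκ0.le
  have hsq : Real.sqrt ((2 * (n : ℝ) ^ κ + 1) ^ d / n) ≤
      Real.sqrt (3 ^ d) * (n : ℝ) ^ ((d * κ - 1) / 2) := by
    have e1 : Real.sqrt ((2 * (n : ℝ) ^ κ + 1) ^ d / n) ≤
        Real.sqrt (3 ^ d * (n : ℝ) ^ (d * κ - 1)) := by
      apply Real.sqrt_le_sqrt
      have e2 : (2 * (n : ℝ) ^ κ + 1) ^ d ≤ 3 ^ d * (n : ℝ) ^ (d * κ) := by
        calc (2 * (n : ℝ) ^ κ + 1) ^ d ≤ (3 * (n : ℝ) ^ κ) ^ d := by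
              apply pow_le_pow_left₀ (by positivity)
              linarith
          _ = 3 ^ d * ((n : ℝ) ^ κ) ^ d := by rw [mul_pow]
          _ = 3 ^ d * (n : ℝ) ^ (d * κ) := by
              rw [← Real.rpow_natCast ((n : ℝ) ^ κ) d, ← Real.rpow_mul hn0.le, mul_comm κ]
      rw [Real.rpow_sub hn0, Real.rpow_one, mul_div_assoc']
      exact div_le_div_of_nonneg_right e2 hn0.le
    refine e1.trans (le_of_eq ?_)
    rw [Real.sqrt_mul (by positivity), Real.sqrt_eq_rpow ((n : ℝ) ^ (d * κ - 1)),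
      ← Real.rpow_mul hn0.le]
    congr 2
    ring
  have hterm : 2 * C * (2 * (n : ℝ) ^ lam + 1) * Real.sqrt ((2 * (n : ℝ) ^ κ + 1) ^ d / n) ≤
      2 * C * (3 * Real.sqrt (3 ^ d)) * (n : ℝ) ^ (-γ) := by
    have e3 : (n : ℝ) ^ (-γ) = (n : ℝ) ^ lam * (n : ℝ) ^ ((d * κ - 1) / 2) := by
      rw [← Real.rpow_add hn0]
      congr 1
      rw [hγ]
      ring
    rw [e3]
    calc 2 * C * (2 * (n : ℝ) ^ lam + 1) * Real.sqrt ((2 * (n : ℝ) ^ κ + 1) ^ d / n)
        ≤ 2 * C * (3 * (n : ℝ) ^ lam) * (Real.sqrt (3 ^ d) * (n : ℝ) ^ ((d * κ - 1) / 2)) := by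
          apply mul_le_mul _ hsq (Real.sqrt_nonneg _) (by positivity)
          apply mul_le_mul_of_nonneg_left _ (by positivity)
          linarith
      _ = _ := by ring
  calc P.real {x | |Real.log (partitionFn β (fun i z => ω i z x) n) - y| ≤ (n : ℝ) ^ lam}
      ≤ _ := measureReal_mono hsub (measure_ne_top _ _)
    _ ≤ _ := hmain
    _ ≤ ε := by linarith

/-- sum of the absolute values of the environment -/
noncomputable def tot (n : ℕ) (η : ℕ → (Fin d → ℤ) → ℝ) : ℝ := ∑ s : Blk d n n, |onBlk n η s|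

lemma energy_le_tot {n : ℕ} (η : ℕ → (Fin d → ℤ) → ℝ) (w : Fin n → Step d) :
    |energy η w| ≤ tot n η := by
  rw [← sum_onBlk]
  refine (Finset.abs_sum_le_sum_abs _ _).trans ?_
  unfold tot
  exact Finset.sum_le_sum_of_subset_of_nonneg (Finset.subset_univ _) (fun _ _ _ => abs_nonneg _)

lemma card_walks (d n : ℕ) : ((Finset.univ : Finset (Fin n → Step d)).card : ℝ) =
    (2 * (d : ℝ)) ^ n := by
  rw [Finset.card_univ, Fintype.card_fun, Fintype.card_prod, Fintype.card_fin, Fintype.card_bool,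
    Fintype.card_fin]
  push_cast
  ring

lemma abs_log_le (hd : 0 < d) {β : ℝ} (hβ : 0 < β) (η : ℕ → (Fin d → ℤ) → ℝ) (n : ℕ) :
    |Real.log (partitionFn β η n)| ≤ β * tot n η := by
  have hdR : (0 : ℝ) < d := by exact_mod_cast hd
  have hpow : (0 : ℝ) < (2 * (d : ℝ)) ^ n := by positivity
  have hup : partitionFn β η n ≤ Real.exp (β * tot n η) := by
    unfold partitionFn
    rw [div_le_iff₀ hpow]
    calc _ ≤ ∑ w : Fin n → Step d, Real.exp (β * tot n η) := by
          apply Finset.sum_le_sum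
          intro w _
          apply Real.exp_le_exp.2
          exact mul_le_mul_of_nonneg_left (le_of_abs_le (energy_le_tot η w)) hβ.le
      _ = _ := by
          rw [Finset.sum_const, nsmul_eq_mul, card_walks]
          ring
  have hlo : Real.exp (-(β * tot n η)) ≤ partitionFn β η n := by
    unfold partitionFn
    rw [le_div_iff₀ hpow]
    calc _ = ∑ w : Fin n → Step d, Real.exp (-(β * tot n η)) := by
          rw [Finset.sum_const, nsmul_eq_mul, card_walks]
          ring
      _ ≤ _ := by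
          apply Finset.sum_le_sum
          intro w _
          apply Real.exp_le_exp.2
          have := neg_le_of_abs_le (energy_le_tot η w)
          have := mul_le_mul_of_nonneg_left this hβ.le
          linarith
  have hpos : 0 < partitionFn β η n := lt_of_lt_of_le (Real.exp_pos _) hlo
  rw [abs_le]
  constructor
  · rw [Real.le_log_iff_exp_le hpos]
    exact hlo
  · rw [Real.log_le_iff_le_exp hpos]
    exact hup

omit [IsProbabilityMeasure P] in
lemma sq_int {X : Ω → ℝ} (hX : Measurable X)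
    (hexp : ∀ b : ℝ, Integrable (fun x => Real.exp (b * X x)) P) :
    Integrable (fun x => X x ^ 2) P := by
  have h1 := hexp 1
  have h2 := hexp (-1)
  simp only [one_mul, neg_mul] at h1 h2
  refine ((h1.add h2).const_mul 2).mono' (hX.pow_const 2).aestronglyMeasurable
    (Filter.Eventually.of_forall (fun x => ?_))
  simp only [Pi.add_apply, Real.norm_eq_abs]
  rw [abs_of_nonneg (sq_nonneg _)]
  have e1 := Real.quadratic_le_exp_of_nonneg (abs_nonneg (X x))
  rw [sq_abs] at e1
  have e4 := Real.exp_pos (X x)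
  have e5 := Real.exp_pos (-X x)
  rcases abs_cases (X x) with hc | hc
  · rw [hc.1] at e1
    nlinarith
  · rw [hc.1] at e1
    nlinarith

/-- a polynomial upper bound for the variance -/
lemma var_le {ω : ℕ → (Fin d → ℤ) → Ω → ℝ} (h : IsEnv P ω) (hd : 0 < d)
    (hexp : ∀ b : ℝ, Integrable (fun x => Real.exp (b * ω 1 0 x)) P) {β : ℝ} (hβ : 0 < β)
    (n : ℕ) :
    MemLp (fun x => Real.log (partitionFn β (fun i y => ω i y x) n)) 2 P ∧
    variance (fun x => Real.log (partitionFn β (fun i y => ω i y x) n)) P ≤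
      β ^ 2 * (∫ x, ω 1 0 x ^ 2 ∂P) * (n * (2 * n + 1) ^ d) ^ 2 := by
  have hsq := sq_int (h.meas 1 0) hexp
  have hid : ∀ i z, Integrable (fun x => ω i z x ^ 2) P ∧
      ∫ x, ω i z x ^ 2 ∂P = ∫ x, ω 1 0 x ^ 2 ∂P := by
    intro i z
    have h1 := (h.ident i z).comp (u := fun t : ℝ => t ^ 2) (measurable_id.pow_const 2)
    exact ⟨h1.symm.integrable_snd hsq, h1.integral_eq⟩
  have hm : Measurable (fun x => Real.log (partitionFn β (fun i y => ω i y x) n)) :=
    Real.measurable_log.comp (measurable_Z h β n)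
  set T : Ω → ℝ := fun x => tot n (fun i z => ω i z x) with hT
  have hTm : Measurable T := by
    rw [hT]
    unfold tot onBlk
    apply Finset.measurable_sum
    intro s _
    exact (h.meas _ _).abs
  have hTsq : ∀ x, T x ^ 2 ≤ (n * (2 * n + 1) ^ d : ℝ) *
      ∑ s : Blk d n n, ω (s.1.val + 1) s.2.1 x ^ 2 := by
    intro x
    have h1 := sq_sum_le_card_mul_sum_sq (s := (Finset.univ : Finset (Blk d n n)))
      (f := fun s => |onBlk n (fun i z => ω i z x) s|)
    simp only [sq_abs] at h1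
    rw [Finset.card_univ, card_blk] at h1
    push_cast at h1
    exact h1
  have hRint : Integrable (fun x => (n * (2 * n + 1) ^ d : ℝ) *
      ∑ s : Blk d n n, ω (s.1.val + 1) s.2.1 x ^ 2) P := by
    apply Integrable.const_mul
    apply integrable_finsetSum
    intro s _
    exact (hid _ _).1
  have hTint : Integrable (fun x => T x ^ 2) P := by
    refine hRint.mono' (hTm.pow_const 2).aestronglyMeasurable (Eventually.of_forall (fun x => ?_))
    rw [Real.norm_eq_abs, abs_of_nonneg (sq_nonneg _)]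
    exact hTsq x
  have hlog : ∀ x, Real.log (partitionFn β (fun i y => ω i y x) n) ^ 2 ≤ β ^ 2 * T x ^ 2 := by
    intro x
    have h1 := abs_log_le hd hβ (fun i y => ω i y x) n
    rw [← sq_abs, ← mul_pow]
    exact pow_le_pow_left₀ (abs_nonneg _) h1 2
  have hlint : Integrable (fun x => Real.log (partitionFn β (fun i y => ω i y x) n) ^ 2) P := by
    refine (hTint.const_mul (β ^ 2)).mono' (hm.pow_const 2).aestronglyMeasurable
      (Eventually.of_forall (fun x => ?_))
    rw [Real.norm_eq_abs, abs_of_nonneg (sq_nonneg _)]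
    exact hlog x
  refine ⟨(memLp_two_iff_integrable_sq hm.aestronglyMeasurable).2 hlint, ?_⟩
  have h1 : variance (fun x => Real.log (partitionFn β (fun i y => ω i y x) n)) P ≤
      ∫ x, Real.log (partitionFn β (fun i y => ω i y x) n) ^ 2 ∂P := by
    have := variance_le_expectation_sq (X := fun x => Real.log (partitionFn β (fun i y => ω i y x) n))
      (μ := P) hm.aestronglyMeasurable
    exact this
  refine h1.trans ?_
  have h2 : ∫ x, Real.log (partitionFn β (fun i y => ω i y x) n) ^ 2 ∂P ≤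
      ∫ x, β ^ 2 * ((n * (2 * n + 1) ^ d : ℝ) *
        ∑ s : Blk d n n, ω (s.1.val + 1) s.2.1 x ^ 2) ∂P := by
    apply integral_mono hlint (hRint.const_mul _)
    intro x
    exact (hlog x).trans (mul_le_mul_of_nonneg_left (hTsq x) (by positivity))
  refine h2.trans (le_of_eq ?_)
  rw [integral_const_mul, integral_const_mul, integral_finsetSum _ (fun s _ => (hid _ _).1)]
  have h3 : ∑ s : Blk d n n, ∫ x, ω (s.1.val + 1) s.2.1 x ^ 2 ∂P =
      (n * (2 * n + 1) ^ d : ℝ) * ∫ x, ω 1 0 x ^ 2 ∂P := by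
    simp_rw [(hid _ _).2]
    rw [Finset.sum_const, Finset.card_univ, card_blk, nsmul_eq_mul]
    push_cast
    ring
  rw [h3]
  ring

/-- the set which defines `χ` is bounded -/
lemma bdd {ω : ℕ → (Fin d → ℤ) → Ω → ℝ} (h : IsEnv P ω) (hd : 0 < d)
    (hexp : ∀ b : ℝ, Integrable (fun x => Real.exp (b * ω 1 0 x)) P) {β : ℝ} (hβ : 0 < β) :
    BddAbove {a : ℝ | 0 < a ∧ ∀ᶠ n : ℕ in atTop, (n : ℝ) ^ (2 * a) ≤
      variance (fun x => Real.log (partitionFn β (fun i y => ω i y x) n)) P} := by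
  refine ⟨(d : ℝ) + 2, ?_⟩
  rintro a ⟨ha0, ha⟩
  by_contra hcon
  push Not at hcon
  set B := β ^ 2 * (∫ x, ω 1 0 x ^ 2 ∂P) * (3 ^ d) ^ 2 with hB
  obtain ⟨N, hN⟩ := exists_nat_gt B
  obtain ⟨n, hn1, hn2⟩ := (ha.and (eventually_ge_atTop (N + 1))).exists
  have hnR : (1 : ℝ) ≤ n := by
    have : 1 ≤ n := by omega
    exact_mod_cast this
  have hn0 : (0 : ℝ) < n := by linarith
  have hNn : B < n := by
    have : (N : ℝ) ≤ n := by
      have : N ≤ n := by omega
      exact_mod_cast this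
    linarith
  have h1 := hn1.trans (var_le h hd hexp hβ n).2
  have h2 : (n : ℝ) ^ (2 * d + 4) ≤ (n : ℝ) ^ (2 * a) := by
    rw [← Real.rpow_natCast]
    apply Real.rpow_le_rpow_of_exponent_le hnR
    push_cast
    linarith
  have hI : 0 ≤ ∫ x, ω 1 0 x ^ 2 ∂P := integral_nonneg (fun x => sq_nonneg _)
  have h3 : β ^ 2 * (∫ x, ω 1 0 x ^ 2 ∂P) * (n * (2 * n + 1) ^ d) ^ 2 ≤
      B * (n : ℝ) ^ (2 * d + 2) := by
    have e1 : ((n : ℝ) * (2 * n + 1) ^ d) ^ 2 ≤ (n * (3 * n) ^ d) ^ 2 := by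
      apply pow_le_pow_left₀ (by positivity)
      apply mul_le_mul_of_nonneg_left _ hn0.le
      apply pow_le_pow_left₀ (by positivity)
      linarith
    calc β ^ 2 * (∫ x, ω 1 0 x ^ 2 ∂P) * (n * (2 * n + 1) ^ d) ^ 2
        ≤ β ^ 2 * (∫ x, ω 1 0 x ^ 2 ∂P) * (n * (3 * n) ^ d) ^ 2 :=
          mul_le_mul_of_nonneg_left e1 (by positivity)
      _ = B * (n : ℝ) ^ (2 * d + 2) := by
          rw [hB, mul_pow (3 : ℝ), pow_add, pow_mul']
          ring
  have h4 : (n : ℝ) ^ (2 * d + 4) ≤ B * (n : ℝ) ^ (2 * d + 2) := h2.trans (h1.trans h3)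
  have h5 : (n : ℝ) ^ (2 * d + 4) = (n : ℝ) ^ 2 * (n : ℝ) ^ (2 * d + 2) := by
    rw [← pow_add]
    congr 1
    ring
  rw [h5] at h4
  have h6 : (n : ℝ) ^ 2 ≤ B := le_of_mul_le_mul_right h4 (by positivity)
  nlinarith

/-- the relation between the exponents -/
theorem exponents {ω : ℕ → (Fin d → ℤ) → Ω → ℝ} (h : IsEnv P ω) (hd : 0 < d)
    (hexp : ∀ b : ℝ, Integrable (fun x => Real.exp (b * ω 1 0 x)) P)
    (hnc : ¬ ∃ c : ℝ, ∀ᵐ x ∂P, ω 1 0 x = c) {β : ℝ} (hβ : 0 < β) :
    (1 - d * wanderingExp P ω β) / 2 ≤ fluctExp P ω β := by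
  rcases le_or_gt ((1 - d * wanderingExp P ω β) / 2) 0 with hneg | hpos
  · refine hneg.trans ?_
    unfold fluctExp
    apply Real.sSup_nonneg
    intro a ha
    exact ha.1.le
  · apply le_of_forall_lt
    intro c hc
    set a := (max c 0 + (1 - d * wanderingExp P ω β) / 2) / 2 with ha
    have hm : max c 0 < (1 - d * wanderingExp P ω β) / 2 := max_lt hc hpos
    have hc1 : c < a := by
      have := le_max_left c 0
      rw [ha]; linarith
    have ha0 : 0 < a := by
      have := le_max_right c 0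
      rw [ha]; linarith
    have ha1 : a < (1 - d * wanderingExp P ω β) / 2 := by rw [ha]; linarith
    refine lt_of_lt_of_le hc1 ?_
    unfold fluctExp
    apply le_csSup (bdd h hd hexp hβ)
    refine ⟨ha0, ?_⟩
    set lam := (a + (1 - d * wanderingExp P ω β) / 2) / 2 with hlam
    have hl1 : a < lam := by rw [hlam]; linarith
    have hl2 : lam < (1 - d * wanderingExp P ω β) / 2 := by rw [hlam]; linarith
    have hsb := small_ball h hd hexp hnc hβ (lam := lam) (by linarith) hl2 (ε := 1 / 2)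
      (by norm_num)
    have hdom : ∀ᶠ n : ℕ in atTop, 2 * (n : ℝ) ^ (2 * a) ≤ (n : ℝ) ^ (2 * lam) :=
      pow_dom (by linarith) 2
    filter_upwards [hsb, hdom, eventually_ge_atTop 1] with n h1 h2 hn
    have hn0 : (0 : ℝ) < n := by exact_mod_cast hn
    obtain ⟨hmem, -⟩ := var_le h hd hexp hβ n
    set X : Ω → ℝ := fun x => Real.log (partitionFn β (fun i y => ω i y x) n) with hX
    have hXm : Measurable X := Real.measurable_log.comp (measurable_Z h β n)
    set e := ∫ x, X x ∂P with he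
    have h3 := h1 e
    have h4 : (1 : ℝ) / 2 ≤ P.real {x | (n : ℝ) ^ lam ≤ |X x - e|} := by
      have hsub : (Set.univ : Set Ω) ⊆ {x | |X x - e| ≤ (n : ℝ) ^ lam} ∪
          {x | (n : ℝ) ^ lam ≤ |X x - e|} := by
        intro x _
        rcases le_total (|X x - e|) ((n : ℝ) ^ lam) with hh | hh
        · exact Or.inl hh
        · exact Or.inr hh
      have h5 : P.real (Set.univ : Set Ω) ≤ P.real {x | |X x - e| ≤ (n : ℝ) ^ lam} +
          P.real {x | (n : ℝ) ^ lam ≤ |X x - e|} :=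
        (measureReal_mono hsub).trans (measureReal_union_le _ _)
      rw [probReal_univ] at h5
      linarith
    have hlp : 0 < (n : ℝ) ^ lam := by positivity
    have h6 := meas_ge_le_variance_div_sq hmem hlp
    have h7 : P.real {x | (n : ℝ) ^ lam ≤ |X x - e|} ≤ variance X P / ((n : ℝ) ^ lam) ^ 2 := by
      have h8 := ENNReal.toReal_mono (by simp) h6
      rw [ENNReal.toReal_ofReal (div_nonneg (variance_nonneg _ _) (sq_nonneg _))] at h8
      exact h8
    have h9 : ((n : ℝ) ^ lam) ^ 2 = (n : ℝ) ^ (2 * lam) := by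
      rw [← Real.rpow_natCast, ← Real.rpow_mul hn0.le]
      congr 1
      push_cast
      ring
    rw [h9] at h7
    have h10 : 1 / 2 ≤ variance X P / (n : ℝ) ^ (2 * lam) := h4.trans h7
    rw [le_div_iff₀ (by positivity)] at h10
    linarith

end Pool.Agent.Q220.DP
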