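import Pool.Agent.Q220.DP.Tube

open MeasureTheory ProbabilityTheory Filter Topology
open Classical

set_option maxHeartbeats 4000000

namespace Pool.Agent.Q220.DP
open TH967.DP

variable {d : ℕ} {Ω : Type*} [MeasurableSpace Ω] {P : Measure Ω} [IsProbabilityMeasure P]

/-- the law of the logarithm of the partition function of a moving tube -/
noncomputable def rhoM (β : ℝ) (c : ℕ → Fin d → ℤ) (D m : ℕ) (μ : Measure ℝ) : Measure ℝ :=
  (Measure.pi (fun _ : Blk d D m => μ)).map (YY β (visM (c := c) (D := D) (m := m)))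

omit [IsProbabilityMeasure P] in
lemma measurable_XV {ω : ℕ → (Fin d → ℤ) → Ω → ℝ} (h : IsEnv P ω) (β : ℝ) (c : ℕ → Fin d → ℤ)
    (D m T : ℕ) (z : Fin d → ℤ) :
    Measurable (fun a => Real.log (XV β (fun i x => ω i x a) c D m T z)) := by
  apply Real.measurable_log.comp
  unfold XV
  apply Finset.measurable_sum
  intro p _
  apply Real.measurable_exp.comp
  apply Measurable.const_mul
  unfold energy shift
  apply Finset.measurable_sum
  intro i _
  exact h.meas _ _

lemma lawM {ω : ℕ → (Fin d → ℤ) → Ω → ℝ} (h : IsEnv P ω) (β : ℝ) (c : ℕ → Fin d → ℤ)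
    (z e : Fin d → ℤ) (D m T M : ℕ) {k : Fin d} (he : 2 * (D : ℤ) < |e k|) :
    P.map (fun a (j : Fin (M + 1)) => Real.log (XV β (fun i x => ω i x a) c D m T
      (z + (j.val : ℤ) • e))) =
      Measure.pi (fun _ : Fin (M + 1) => rhoM β c D m (P.map (ω 1 0))) := by
  have hp : IsProbabilityMeasure (P.map (ω 1 0)) :=
    Measure.isProbabilityMeasure_map (h.meas 1 0).aemeasurable
  have h1 := law2 h (embM_inj (M := M) z e c D m T he)
  have h2 := Measure.pi_map_pi (μ := fun _ : Fin (M + 1) =>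
    Measure.pi (fun _ : Blk d D m => P.map (ω 1 0)))
    (f := fun _ => YY β (visM (c := c) (D := D) (m := m)))
    (fun _ => (measurable_YY β _).aemeasurable)
  have hm : Measurable (fun (a : Ω) (j : Fin (M + 1)) (k : Blk d D m) =>
      ω (embM z e c D m T (j, k)).1 (embM z e c D m T (j, k)).2 a) := by
    rw [measurable_pi_iff]
    intro j
    rw [measurable_pi_iff]
    intro k
    exact h.meas _ _
  have hm2 : Measurable (fun (x : Fin (M + 1) → (Blk d D m → ℝ)) (i : Fin (M + 1)) =>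
      YY β (visM (c := c) (D := D) (m := m)) (x i)) := by
    rw [measurable_pi_iff]
    intro i
    exact (measurable_YY β _).comp (measurable_pi_apply i)
  unfold rhoM
  rw [← h2, ← h1, Measure.map_map hm2 hm]
  congr 1
  ext a j
  rw [← YY_visM]
  rfl

lemma rhoM_conc {β : ℝ} (hβ : 0 < β) {μ : Measure ℝ} [IsProbabilityMeasure μ]
    {a b : ℝ} (hab : a < b) (hp : 0 < μ.real (Set.Ici b)) (hm : 0 < μ.real (Set.Iic a))
    {c : ℕ → Fin d → ℤ} {D m : ℕ} (hne : Nonempty (MT c D m)) (hmpos : 1 ≤ m) {L : ℝ}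
    (hL : 0 ≤ L) (y : ℝ) :
    (rhoM β c D m μ).real (Set.Icc y (y + 2 * L)) ≤
      (2 * L + 2) * Real.sqrt ((2 * D + 1) ^ d *
        (1 / μ.real (Set.Ici b) + 1 / μ.real (Set.Iic a))) /
        ((1 - Real.exp (-(β * (b - a)))) * Real.sqrt m) := by
  have hcardpos : 0 < Fintype.card (Blk d D m) := by
    rw [card_blk]; positivity
  have hB : Nonempty (Blk d D m) := Fintype.card_pos_iff.1 hcardpos
  have h := anti_conc (ι := Blk d D m) μ hab hp hm hβ (visM (c := c) (D := D) (m := m))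
    (fun w => card_visM w) (y := y) (L := 2 * L) (by linarith)
  unfold rhoM
  rw [map_measureReal_apply (measurable_YY β _) measurableSet_Icc]
  rw [card_blk] at h
  set K := 1 / μ.real (Set.Ici b) + 1 / μ.real (Set.Iic a) with hK
  set q := 1 - Real.exp (-(β * (b - a))) with hq
  have hqpos : 0 < q := by
    rw [hq]
    have : Real.exp (-(β * (b - a))) < 1 := by
      rw [← Real.exp_zero]
      apply Real.exp_lt_exp.2
      have := mul_pos hβ (sub_pos.2 hab)
      linarith
    linarith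
  have hmR : (0 : ℝ) < m := by exact_mod_cast hmpos
  have hsq : 0 < Real.sqrt m := Real.sqrt_pos.2 hmR
  have hsq2 : Real.sqrt m * Real.sqrt m = m := Real.mul_self_sqrt hmR.le
  have e : Real.sqrt (((m * (2 * D + 1) ^ d : ℕ) : ℝ) * K) =
      Real.sqrt m * Real.sqrt ((2 * D + 1) ^ d * K) := by
    push_cast
    rw [mul_assoc, Real.sqrt_mul hmR.le]
  rw [e] at h
  rw [le_div_iff₀ (by positivity)]
  set X := (Measure.pi fun _ : Blk d D m => μ).real
    (YY β (visM (c := c) (D := D) (m := m)) ⁻¹' Set.Icc y (y + 2 * L)) with hX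
  set S := Real.sqrt ((2 * D + 1) ^ d * K) with hS
  have h2 : Real.sqrt m * (X * (q * Real.sqrt m)) ≤ Real.sqrt m * ((2 * L + 2) * S) := by
    calc Real.sqrt m * (X * (q * Real.sqrt m)) = (Real.sqrt m * Real.sqrt m) * q * X := by ring
      _ = m * q * X := by rw [hsq2]
      _ ≤ (2 * L + 2) * (Real.sqrt m * S) := h
      _ = Real.sqrt m * ((2 * L + 2) * S) := by ring
  exact le_of_mul_le_mul_left h2 hsq

lemma max_boundM {ω : ℕ → (Fin d → ℤ) → Ω → ℝ} (h : IsEnv P ω) {β : ℝ}
    (hβ : 0 < β) {a b : ℝ} (hab : a < b) (hp : 0 < (P.map (ω 1 0)).real (Set.Ici b))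
    (hm : 0 < (P.map (ω 1 0)).real (Set.Iic a)) (c : ℕ → Fin d → ℤ) (z e : Fin d → ℤ)
    {D m : ℕ} (T M : ℕ) {k : Fin d} (he : 2 * (D : ℤ) < |e k|) (hne : Nonempty (MT c D m))
    (hmpos : 1 ≤ m) {L : ℝ} (hL0 : 0 ≤ L) :
    P.real {x | ∀ j : Fin (M + 1), Real.log (XV β (fun i y => ω i y x) c D m T
        (z + (j.val : ℤ) • e)) - L ≤ Real.log (XV β (fun i y => ω i y x) c D m T
        (z + ((0 : Fin (M + 1)).val : ℤ) • e))} ≤
      1 / (M + 1) + M * ((2 * L + 2) * Real.sqrt ((2 * D + 1) ^ d *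
        (1 / (P.map (ω 1 0)).real (Set.Ici b) + 1 / (P.map (ω 1 0)).real (Set.Iic a))) /
        ((1 - Real.exp (-(β * (b - a)))) * Real.sqrt m)) := by
  have hprob : IsProbabilityMeasure (P.map (ω 1 0)) :=
    Measure.isProbabilityMeasure_map (h.meas 1 0).aemeasurable
  have hl := lawM h β c z e D m T M he
  have hYm : Measurable (fun a (j : Fin (M + 1)) => Real.log (XV β (fun i x => ω i x a) c D m T
      (z + (j.val : ℤ) • e))) := by
    rw [measurable_pi_iff]
    intro j
    exact measurable_XV h β c D m T _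
  have hS : MeasurableSet {y : Fin (M + 1) → ℝ | ∀ j, y j - L ≤ y 0} := by
    have : {y : Fin (M + 1) → ℝ | ∀ j, y j - L ≤ y 0} =
        ⋂ j, {y : Fin (M + 1) → ℝ | y j - L ≤ y 0} := by
      ext y; simp
    rw [this]
    apply MeasurableSet.iInter
    intro j
    exact measurableSet_le ((measurable_pi_apply j).sub measurable_const) (measurable_pi_apply 0)
  have e1 : P.real {x | ∀ j : Fin (M + 1), Real.log (XV β (fun i y => ω i y x) c D m T
        (z + (j.val : ℤ) • e)) - L ≤ Real.log (XV β (fun i y => ω i y x) c D m T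
        (z + ((0 : Fin (M + 1)).val : ℤ) • e))} =
      (P.map (fun a (j : Fin (M + 1)) => Real.log (XV β (fun i x => ω i x a) c D m T
      (z + (j.val : ℤ) • e)))).real
        {y : Fin (M + 1) → ℝ | ∀ j, y j - L ≤ y 0} := by
    rw [map_measureReal_apply hYm hS]
    rfl
  rw [e1, hl]
  have hrho : IsProbabilityMeasure (rhoM β c D m (P.map (ω 1 0))) := by
    unfold rhoM
    exact Measure.isProbabilityMeasure_map (measurable_YY β _).aemeasurable
  exact iid_max _ (fun y => rhoM_conc hβ hab hp hm hne hmpos hL0 y)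

/-- the walks which stay in the tube of radius `D` (sup-norm) about the walk `w0` -/
def tubeW {n : ℕ} (D : ℕ) (w0 : Fin n → Step d) : Set (Fin n → Step d) :=
  {w | ∀ i ≤ n, ∀ k, |(pos w i - pos w0 i) k| ≤ (D : ℤ)}

lemma XV_pos {T m D : ℕ} (β : ℝ) (η : ℕ → (Fin d → ℤ) → ℝ) {c : ℕ → Fin d → ℤ}
    (hne : Nonempty (MT c D m)) (z : Fin d → ℤ) : 0 < XV β η c D m T z := by
  unfold XV
  exact Finset.sum_pos (fun _ _ => Real.exp_pos _) Finset.univ_nonempty

lemma MT_nonempty {T m D : ℕ} (w0 : Fin (T + m) → Step d) :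
    Nonempty (MT (fun i => pos w0 (T + i) - pos w0 T) D m) := by
  -- the last `m` steps of `w0`
  set a : Fin T → Step d := fun i => w0 (Fin.castAdd m i) with ha
  set u : Fin m → Step d := fun i => w0 (Fin.natAdd T i) with hu
  have hw : Fin.append a u = w0 := by
    rw [ha, hu]
    exact Fin.append_castAdd_natAdd
  refine ⟨⟨(⟨0, mem_box.2 (fun k => by simp)⟩, u), par_zero, fun i hi k => ?_⟩⟩
  have h1 : pos w0 (T + i) - pos w0 T = pos u i := by
    rw [← hw, pos_append_right, pos_append_left a u le_rfl, add_sub_cancel_left]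
  simp only [h1]
  simp

/-- the deterministic comparison -/
lemma compareM {T m D : ℕ} (hd : 0 < d) {η : ℕ → (Fin d → ℤ) → ℝ} {R β L t : ℝ} (hβ : 0 < β)
    (hG : Good η (T + m) R) (w0 : Fin (T + m) → Step d) (v : Fin d → ℤ)
    (hv : ∀ x : Box d D, par x.1 = 0 → ∃ a : Fin T → Step d, pos a T = pos w0 T + v + x.1)
    (hL : t + 2 * (β * (T * R)) + T * Real.log (2 * d) + d * Real.log (2 * D + 1) ≤ L)
    (hlt : Real.log (XV β η (fun i => pos w0 (T + i) - pos w0 T) D m T (pos w0 T)) <
      Real.log (XV β η (fun i => pos w0 (T + i) - pos w0 T) D m T (pos w0 T + v)) - L) :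
    polymerProb β η (T + m) (tubeW D w0) ≤ Real.exp (-t) := by
  set c : ℕ → Fin d → ℤ := fun i => pos w0 (T + i) - pos w0 T with hc
  have hne : Nonempty (MT c D m) := MT_nonempty w0
  have hi := inc_bound (D := D) hβ hG w0
  have hj := comp_bound (D := D) hβ hG c (pos w0 T + v) hv
  rw [← hc] at hi
  have p0 := XV_pos (T := T) β η hne (pos w0 T)
  have pj := XV_pos (T := T) β η hne (pos w0 T + v)
  have hZ := ZF_pos hd β η (T + m)
  have hdR : (0 : ℝ) < 2 * d := by
    have : (0 : ℝ) < d := by exact_mod_cast hd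
    linarith
  rw [polymerProb_eq hd, div_le_iff₀ hZ]
  have e0 : ∑ w : Fin (T + m) → Step d,
      (tubeW D w0).indicator (fun w => Real.exp (β * energy η w)) w =
      ∑ w : Fin (T + m) → Step d, if (∀ i ≤ T + m, ∀ k, |(pos w i - pos w0 i) k| ≤ (D : ℤ)) then
      Real.exp (β * energy η w) else 0 := by
    apply Finset.sum_congr rfl
    intro w _
    by_cases hw : ∀ i ≤ T + m, ∀ k, |(pos w i - pos w0 i) k| ≤ (D : ℤ)
    · rw [if_pos hw, Set.indicator_of_mem (show w ∈ tubeW D w0 from hw)]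
    · rw [if_neg hw, Set.indicator_of_notMem (show w ∉ tubeW D w0 from hw)]
  rw [e0]
  refine hi.trans ?_
  have hexpX : XV β η c D m T (pos w0 T) ≤ Real.exp (-L) * XV β η c D m T (pos w0 T + v) := by
    have h1 : Real.log (XV β η c D m T (pos w0 T)) ≤
        Real.log (Real.exp (-L) * XV β η c D m T (pos w0 T + v)) := by
      rw [Real.log_mul (Real.exp_pos _).ne' pj.ne', Real.log_exp]
      linarith
    exact (Real.log_le_log_iff p0 (by positivity)).1 h1
  have e1 : (2 * (d : ℝ)) ^ T = Real.exp (T * Real.log (2 * d)) := by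
    rw [← Real.log_pow, Real.exp_log (by positivity)]
  have e2 : (2 * (D : ℝ) + 1) ^ d = Real.exp (d * Real.log (2 * D + 1)) := by
    rw [← Real.log_pow, Real.exp_log (by positivity)]
  calc (2 * (d : ℝ)) ^ T * Real.exp (β * (T * R)) * XV β η c D m T (pos w0 T)
      ≤ (2 * (d : ℝ)) ^ T * Real.exp (β * (T * R)) *
        (Real.exp (-L) * ((2 * (D : ℝ) + 1) ^ d * Real.exp (β * (T * R)) * ZF β η (T + m))) := by
        apply mul_le_mul_of_nonneg_left _ (by positivity)
        exact hexpX.trans (mul_le_mul_of_nonneg_left hj (Real.exp_pos _).le)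
    _ = Real.exp (T * Real.log (2 * d) + 2 * (β * (T * R)) - L + d * Real.log (2 * D + 1)) *
        ZF β η (T + m) := by
        rw [e1, e2, Real.exp_add, Real.exp_sub, Real.exp_add, two_mul (β * (T * R)),
          Real.exp_add (β * (T * R)), Real.exp_neg]
        field_simp
    _ ≤ _ := by
        apply mul_le_mul_of_nonneg_right _ hZ.le
        apply Real.exp_le_exp.2
        linarith

lemma two_lt {d D : ℕ} (hd : 0 < d) (hD : 1 ≤ D) : 2 * (D : ℤ) < ((4 * d * D : ℕ) : ℤ) := by
  have h1 : D ≤ d * D := Nat.le_mul_of_pos_left D hd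
  have h2 : 4 * d * D = 4 * (d * D) := by ring
  have h3 : 2 * D < 4 * d * D := by omega
  exact_mod_cast h3

lemma le_four (d D : ℕ) : d * D ≤ 4 * d * D := by
  have h2 : 4 * d * D = 4 * (d * D) := by ring
  omega

/-- The polymer does not stay in a tube of radius `n^κ` about a deterministic path. -/
theorem no_tube {ω : ℕ → (Fin d → ℤ) → Ω → ℝ} (h : IsEnv P ω) (hd : 0 < d)
    (hexp : ∀ b : ℝ, Integrable (fun x => Real.exp (b * ω 1 0 x)) P)
    (hnc : ¬ ∃ c : ℝ, ∀ᵐ x ∂P, ω 1 0 x = c) {β : ℝ} (hβ : 0 < β) {κ c : ℝ} (hκ : 0 < κ)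
    (hc0 : 0 ≤ c) (hc : 3 * c < (1 - d * κ) / 2 - κ) :
    ∀ᶠ n : ℕ in atTop, ∀ w0 : Fin n → Step d,
      P.real {x | Real.exp (-(n : ℝ) ^ κ) < polymerProb β (fun i y => ω i y x) n
        (tubeW ⌊(n : ℝ) ^ κ⌋₊ w0)} ≤ (n : ℝ) ^ (-c) := by
  obtain ⟨a, b, hab, hp, hm⟩ := exists_gap (h.meas 1 0) hexp hnc
  set K := 1 / (P.map (ω 1 0)).real (Set.Ici b) + 1 / (P.map (ω 1 0)).real (Set.Iic a) with hK
  have hKpos : 0 < K := by positivity
  set q := 1 - Real.exp (-(β * (b - a))) with hq
  have hqpos : 0 < q := by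
    rw [hq]
    have : Real.exp (-(β * (b - a))) < 1 := by
      rw [← Real.exp_zero]
      apply Real.exp_lt_exp.2
      have := mul_pos hβ (sub_pos.2 hab)
      linarith
    linarith
  set g0 := (1 - d * κ) / 2 - κ with hg0
  set δ := (g0 - 3 * c) / 8 with hδ
  have hδ0 : 0 < δ := by rw [hδ]; linarith
  set al := c + δ with hal
  set e := δ with he
  set lp := κ + al + 2 * δ with hlp
  have hdκ : (0 : ℝ) ≤ d * κ := by positivity
  have hκ1 : κ + al < 1 := by
    rw [hal]
    linarith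
  have hlp1 : κ < lp := by rw [hlp, hal]; linarith
  have hlp2 : κ + al < lp := by rw [hlp]; linarith
  have hlp4 : κ + al + e < lp := by rw [hlp, he]; linarith
  have hlp0 : 0 ≤ lp := by linarith
  set K1 := ∫ x, (Real.exp (ω 1 0 x) + Real.exp (-ω 1 0 x)) ∂P with hK1
  have hK1pos : 0 ≤ K1 := integral_nonneg (fun x => by positivity)
  set C := 4 * Real.sqrt (3 ^ d * K) * Real.sqrt 2 / q with hC
  have hCpos : 0 ≤ C := by positivity
  have hlogd : 0 ≤ Real.log (2 * d) := by
    apply Real.log_nonneg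
    have : (1 : ℝ) ≤ d := by exact_mod_cast hd
    linarith
  set A : ℝ := (d + 1) * (4 * d) + d with hA
  have hA0 : 0 ≤ A := by rw [hA]; positivity
  have q1 := pow_dom hκ1 (2 * A)
  have q2 := pow_dom hlp1 (3 * (1 + 2 * d))
  have q3 := pow_dom hlp4 (3 * (2 * β * A))
  have q4 := pow_dom hlp2 (3 * (A * Real.log (2 * d)))
  have q5 := pow_dom (s := -al) (t := -c) (by rw [hal]; linarith) 3
  have q6 := pow_dom (s := al + (lp + d * κ / 2 - 1 / 2)) (t := -c)
    (by rw [hlp, hal]; linarith) (3 * C)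
  have q7 := G_dom (e := e) (by rw [he]; linarith) hK1pos d c
  filter_upwards [q1, q2, q3, q4, q5, q6, q7, eventually_ge_atTop 1] with n r1 r2 r3 r4 r5 r6 r7 hn
  intro w0
  have hn1 : (1 : ℝ) ≤ n := by exact_mod_cast hn
  have hn0 : (0 : ℝ) < n := by linarith
  set D := ⌊(n : ℝ) ^ κ⌋₊ with hD
  set M := ⌊(n : ℝ) ^ al⌋₊ with hM
  have hal0 : 0 < al := by rw [hal]; linarith
  have hnκ1 : (1 : ℝ) ≤ (n : ℝ) ^ κ := Real.one_le_rpow hn1 hκ.le
  have hnal1 : (1 : ℝ) ≤ (n : ℝ) ^ al := Real.one_le_rpow hn1 hal0.le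
  have hD1 : 1 ≤ D := Nat.le_floor (by exact_mod_cast hnκ1)
  have hDle : (D : ℝ) ≤ (n : ℝ) ^ κ := Nat.floor_le (by positivity)
  have hMle : (M : ℝ) ≤ (n : ℝ) ^ al := Nat.floor_le (by positivity)
  have hMlt : (n : ℝ) ^ al < (M : ℝ) + 1 := Nat.lt_floor_add_one _
  set Δ := 4 * d * D with hΔ
  set T := (d + 1) * (Δ * M) + d * D with hT
  have hTle : (T : ℝ) ≤ A * (n : ℝ) ^ (κ + al) := by
    rw [hT, hΔ, hA, Real.rpow_add hn0]
    push_cast
    have a1 : (D : ℝ) * M ≤ (n : ℝ) ^ κ * (n : ℝ) ^ al := by gcongr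
    have a2 : (D : ℝ) ≤ (n : ℝ) ^ κ * (n : ℝ) ^ al := by
      calc (D : ℝ) ≤ (n : ℝ) ^ κ * 1 := by linarith
        _ ≤ _ := by gcongr
    have a3 : (d : ℝ) * D ≤ d * ((n : ℝ) ^ κ * (n : ℝ) ^ al) := by gcongr
    have a4 : ((d : ℝ) + 1) * (4 * d) * (D * M) ≤
        ((d : ℝ) + 1) * (4 * d) * ((n : ℝ) ^ κ * (n : ℝ) ^ al) := by gcongr
    calc ((d : ℝ) + 1) * (4 * d * D * M) + d * D =
        ((d : ℝ) + 1) * (4 * d) * (D * M) + d * D := by ring
      _ ≤ ((d : ℝ) + 1) * (4 * d) * ((n : ℝ) ^ κ * (n : ℝ) ^ al) +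
        d * ((n : ℝ) ^ κ * (n : ℝ) ^ al) := add_le_add a4 a3
      _ = _ := by ring
  rw [Real.rpow_one] at r1
  have hTn : (T : ℝ) ≤ n / 2 := by linarith
  have hTn' : T ≤ n := by
    have : (T : ℝ) ≤ n := by linarith
    exact_mod_cast this
  obtain ⟨m, hm'⟩ := Nat.exists_eq_add_of_le hTn'
  have hmn : (n : ℝ) / 2 ≤ m := by
    have : (n : ℝ) = (T : ℝ) + m := by exact_mod_cast hm'
    linarith
  have hm1 : 1 ≤ m := by
    have : (0 : ℝ) < m := by linarith
    exact_mod_cast this
  set L := (n : ℝ) ^ lp with hL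
  have hL1 : 1 ≤ L := Real.one_le_rpow hn1 hlp0
  have hLcond : (n : ℝ) ^ κ + 2 * (β * (T * (n : ℝ) ^ e)) + T * Real.log (2 * d) +
      d * Real.log (2 * D + 1) ≤ L := by
    have s1 : (d : ℝ) * Real.log (2 * D + 1) ≤ 2 * d * (n : ℝ) ^ κ := by
      have : Real.log (2 * (D : ℝ) + 1) ≤ 2 * D := by
        have := Real.log_le_sub_one_of_pos (show (0 : ℝ) < 2 * (D : ℝ) + 1 by positivity)
        linarith
      calc (d : ℝ) * Real.log (2 * D + 1) ≤ d * (2 * (n : ℝ) ^ κ) := by
            apply mul_le_mul_of_nonneg_left _ (by positivity)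
            linarith
        _ = _ := by ring
    have s2 : 2 * (β * (T * (n : ℝ) ^ e)) ≤ 2 * β * A * (n : ℝ) ^ (κ + al + e) := by
      rw [Real.rpow_add hn0 (κ + al) e]
      calc 2 * (β * (T * (n : ℝ) ^ e))
          ≤ 2 * (β * ((A * (n : ℝ) ^ (κ + al)) * (n : ℝ) ^ e)) := by gcongr
        _ = _ := by ring
    have s3 : (T : ℝ) * Real.log (2 * d) ≤ A * Real.log (2 * d) * (n : ℝ) ^ (κ + al) := by
      calc (T : ℝ) * Real.log (2 * d) ≤ (A * (n : ℝ) ^ (κ + al)) * Real.log (2 * d) := by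
            gcongr
        _ = _ := by ring
    linarith
  -- fix the length
  have hmain : ∀ w0 : Fin (T + m) → Step d,
      P.real {x | Real.exp (-(n : ℝ) ^ κ) < polymerProb β (fun i y => ω i y x) (T + m)
        (tubeW D w0)} ≤ (n : ℝ) ^ (-c) := by
    clear w0
    intro w0
    set cc : ℕ → Fin d → ℤ := fun i => pos w0 (T + i) - pos w0 T with hcc
    have hΔ1 : d * D ≤ Δ := le_four d D
    obtain ⟨k, σ, hσ, hdir⟩ := exists_dir (M := M) hd hΔ1 (le_of_eq hT.symm) (pos w0 T) (by
      have := l1_pos_le w0 T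
      have h2 : ∀ g : Fin T → Step d, ∑ k, |pos g T k| ≤ (T : ℤ) := fun g => by
        exact_mod_cast l1_pos_le g T
      have h3 : pos w0 T = pos (fun i : Fin T => w0 (Fin.castAdd m i)) T := by
        have hw : Fin.append (fun i : Fin T => w0 (Fin.castAdd m i))
            (fun i : Fin m => w0 (Fin.natAdd T i)) = w0 := Fin.append_castAdd_natAdd
        conv_lhs => rw [← hw]
        exact pos_append_left _ _ le_rfl
      rw [h3]
      exact h2 _)
    set ev : Fin d → ℤ := Pi.single k (σ * Δ) with hev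
    have hek : 2 * (D : ℤ) < |ev k| := by
      rw [hev, Pi.single_eq_same, abs_mul, hσ, one_mul, abs_of_nonneg (by positivity)]
      exact two_lt hd hD1
    have hne : Nonempty (MT cc D m) := MT_nonempty w0
    have hsub : {x | Real.exp (-(n : ℝ) ^ κ) < polymerProb β (fun i y => ω i y x) (T + m)
        (tubeW D w0)} ⊆ {x | ¬ Good (fun i y => ω i y x) n ((n : ℝ) ^ e)} ∪
        {x | ∀ j : Fin (M + 1), Real.log (XV β (fun i y => ω i y x) cc D m T
        (pos w0 T + (j.val : ℤ) • ev)) - L ≤ Real.log (XV β (fun i y => ω i y x) cc D m T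
        (pos w0 T + ((0 : Fin (M + 1)).val : ℤ) • ev))} := by
      intro x hx
      by_contra hcon
      simp only [Set.mem_union, Set.mem_ofPred_eq, not_or, not_not, not_forall, not_le] at hcon
      obtain ⟨hG, j, hj⟩ := hcon
      have hz0 : pos w0 T + (((0 : Fin (M + 1)).val : ℕ) : ℤ) • ev = pos w0 T := by simp
      rw [hz0] at hj
      have hj0 : 1 ≤ j.val := by
        rcases Nat.eq_zero_or_pos j.val with h0 | h0
        · exfalso
          rw [h0] at hj
          simp only [Nat.cast_zero, zero_smul, add_zero] at hj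
          linarith
        · exact h0
      have hG2 : Good (fun i y => ω i y x) (T + m) ((n : ℝ) ^ e) := by rw [← hm']; exact hG
      have hv : ∀ x : Box d D, par x.1 = 0 → ∃ a : Fin T → Step d,
          pos a T = pos w0 T + (j.val : ℤ) • ev + x.1 := by
        intro x hx
        apply exists_walk hd
        · have h1 := hdir j.val hj0 (by have := j.isLt; omega)
          have h2 : ∑ l, |(pos w0 T + (j.val : ℤ) • ev + x.1) l| ≤
              ∑ l, |(pos w0 T + (j.val : ℤ) • ev) l| + ∑ l, |x.1 l| := by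
            rw [← Finset.sum_add_distrib]
            apply Finset.sum_le_sum
            intro l _
            rw [Pi.add_apply]
            exact abs_add_le _ _
          have h3 : ∑ l, |x.1 l| ≤ (d : ℤ) * D := by
            calc ∑ l, |x.1 l| ≤ ∑ _l : Fin d, (D : ℤ) :=
                  Finset.sum_le_sum (fun l _ => mem_box.1 x.2 l)
              _ = _ := by
                  rw [Finset.sum_const, Finset.card_univ, Fintype.card_fin, nsmul_eq_mul]
          linarith
        · rw [par_add, par_add, hx, add_zero, par_pos w0 (Nat.le_add_right _ _)]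
          have h4 : par ((j.val : ℤ) • ev) = 0 := by
            have h5 : (j.val : ℤ) • ev = Pi.single k (2 * ((j.val : ℤ) * σ * (2 * d * D))) := by
              rw [hev, ← Pi.single_smul]
              congr 1
              rw [smul_eq_mul, hΔ]
              push_cast
              ring
            rw [h5]
            unfold par
            rw [Finset.sum_eq_single k]
            · rw [Pi.single_eq_same]
              push_cast
              have : (2 : ZMod 2) = 0 := by decide
              rw [this, zero_mul]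
            · intro l _ hl
              rw [Pi.single_eq_of_ne hl]
              simp
            · intro h
              exact absurd (Finset.mem_univ _) h
          rw [h4, add_zero]
      have hfin := compareM (T := T) (m := m) hd hβ hG2 w0 ((j.val : ℤ) • ev) hv hLcond hj
      exact absurd hx (not_lt.2 hfin)
    have b1 := good_bound h hexp n ((n : ℝ) ^ e)
    have b2 := max_boundM h hβ hab hp hm cc (pos w0 T) ev (D := D) (m := m) T M hek hne hm1
      (L := L) (by linarith)
    have b3 := E_bound (d := d) (n := n) (D := D) (m := m) hn1 hKpos hqpos hlp0 hDle hnκ1 hmn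
    have b4 : (1 : ℝ) / (M + 1) ≤ (n : ℝ) ^ (-al) := by
      rw [Real.rpow_neg hn0.le, ← one_div]
      apply one_div_le_one_div_of_le (by positivity) hMlt.le
    have b5 : (M : ℝ) * (C * (n : ℝ) ^ (lp + d * κ / 2 - 1 / 2)) ≤
        C * (n : ℝ) ^ (al + (lp + d * κ / 2 - 1 / 2)) := by
      rw [Real.rpow_add hn0 al]
      calc (M : ℝ) * (C * (n : ℝ) ^ (lp + d * κ / 2 - 1 / 2))
          ≤ (n : ℝ) ^ al * (C * (n : ℝ) ^ (lp + d * κ / 2 - 1 / 2)) := by gcongr
        _ = _ := by ring
    have b6 : (M : ℝ) * ((2 * L + 2) * Real.sqrt ((2 * D + 1) ^ d * K) / (q * Real.sqrt m)) ≤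
        (M : ℝ) * (C * (n : ℝ) ^ (lp + d * κ / 2 - 1 / 2)) := by gcongr
    refine (measureReal_mono hsub (measure_ne_top _ _)).trans ?_
    refine (measureReal_union_le _ _).trans ?_
    linarith
  have hfinal : ∀ (N : ℕ) (hN : n = N) (w : Fin n → Step d),
      (∀ w' : Fin N → Step d, P.real {x | Real.exp (-(n : ℝ) ^ κ) <
        polymerProb β (fun i y => ω i y x) N (tubeW D w')} ≤ (n : ℝ) ^ (-c)) →
      P.real {x | Real.exp (-(n : ℝ) ^ κ) <
        polymerProb β (fun i y => ω i y x) n (tubeW D w)} ≤ (n : ℝ) ^ (-c) := by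
    intro N hN w hw
    subst hN
    exact hw w
  exact hfinal (T + m) hm' w0 hmain

end Pool.Agent.Q220.DP
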