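import Pool.Agent.TH967.DP.Bound

open MeasureTheory ProbabilityTheory

namespace Pool.Agent.Q220.DP
open TH967.DP

section abstract_part

variable {ι W : Type*} [Fintype ι] [DecidableEq ι] [Fintype W]

/-- Weighted anti-concentration of the logarithm of a partition function. -/
theorem anti_conc_w [Nonempty W] (μ : Measure ℝ) [IsProbabilityMeasure μ] {a b : ℝ}
    (hab : a < b) (hp : 0 < μ.real (Set.Ici b)) (hm : 0 < μ.real (Set.Iic a)) {β : ℝ}
    (hβ : 0 < β) (vis : W → Finset ι) (A : ι → ℝ) (hA : ∀ s, 0 ≤ A s)
    {y L : ℝ} (hL : 0 ≤ L) :
    (1 - Real.exp (-(β * (b - a)))) *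
      ∫ η in YY β vis ⁻¹' Set.Icc y (y + L), (∑ s, A s * occ β vis s η)
        ∂(Measure.pi fun _ : ι => μ) ≤
    (L + 2) * Real.sqrt ((∑ s, A s ^ 2) *
      (1 / μ.real (Set.Ici b) + 1 / μ.real (Set.Iic a))) := by
  set q := 1 - Real.exp (-(β * (b - a))) with hq
  set π := (Measure.pi fun _ : ι => μ) with hπ
  set K := 1 / μ.real (Set.Ici b) + 1 / μ.real (Set.Iic a) with hK
  have hKpos : 0 < K := by positivity
  have hmS : MeasurableSet (YY β vis ⁻¹' Set.Icc y (y + L)) :=
    measurable_YY β vis measurableSet_Icc
  rcases eq_or_lt_of_le (Finset.sum_nonneg (fun s (_ : s ∈ Finset.univ) => sq_nonneg (A s)))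
    with hz | hpos
  · -- all weights vanish
    have hA0 : ∀ s, A s = 0 := by
      intro s
      have h1 := Finset.single_le_sum (f := fun s => A s ^ 2) (s := Finset.univ)
        (fun _ _ => sq_nonneg _) (Finset.mem_univ s)
      rw [← hz] at h1
      exact pow_eq_zero_iff (two_ne_zero) |>.1 (le_antisymm h1 (sq_nonneg _))
    simp only [hA0, zero_mul, Finset.sum_const_zero, integral_zero, mul_zero]
    positivity
  -- left side as a sum
  have hint1 : ∀ s, Integrable (fun η => q * occ β vis s η *
        (YY β vis ⁻¹' Set.Icc y (y + L)).indicator (fun _ => (1 : ℝ)) η) π := by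
    intro s
    apply integrable_bdd (C := |q| * 1 * 1)
      (((measurable_occ β vis s).const_mul q).mul (measurable_const.indicator hmS))
    intro η
    simp only [Pi.mul_apply]
    rw [abs_mul, abs_mul]
    have h1 : |occ β vis s η| ≤ 1 := by
      rw [abs_of_nonneg (occ_nonneg β vis s η)]; exact occ_le_one β vis s η
    have h2 : |(YY β vis ⁻¹' Set.Icc y (y + L)).indicator (fun _ => (1 : ℝ)) η| ≤ 1 := by
      by_cases h : η ∈ YY β vis ⁻¹' Set.Icc y (y + L)
      · rw [Set.indicator_of_mem h]; simp
      · rw [Set.indicator_of_notMem h]; simp
    gcongr
  have hint2 : ∀ s, Integrable (fun η : ι → ℝ => clip y L (YY β vis η) * score μ a b (η s)) π := by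
    intro s
    apply integrable_bdd (C := (L + 2) * K) (((measurable_clip y L).comp (measurable_YY β vis)).mul
      ((measurable_score μ a b).comp (measurable_pi_apply s)))
    intro η
    simp only [Pi.mul_apply, Function.comp]
    rw [abs_mul]
    exact mul_le_mul (abs_clip_le hL _) (abs_score_le μ a b _) (abs_nonneg _) (by linarith)
  have lhs : q * ∫ η in YY β vis ⁻¹' Set.Icc y (y + L), (∑ s, A s * occ β vis s η) ∂π =
      ∑ s, A s * ∫ η, q * occ β vis s η *
        (YY β vis ⁻¹' Set.Icc y (y + L)).indicator (fun _ => (1 : ℝ)) η ∂π := by
    rw [← integral_indicator hmS, ← integral_const_mul]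
    simp_rw [← integral_const_mul]
    rw [← integral_finsetSum _ (fun s _ => (hint1 s).const_mul (A s))]
    congr 1
    ext η
    by_cases h : η ∈ YY β vis ⁻¹' Set.Icc y (y + L)
    · rw [Set.indicator_of_mem h, Finset.mul_sum]
      apply Finset.sum_congr rfl
      intro s _
      rw [Set.indicator_of_mem h]
      ring
    · rw [Set.indicator_of_notMem h, mul_zero]
      symm
      apply Finset.sum_eq_zero
      intro s _
      rw [Set.indicator_of_notMem h]
      ring
  rw [lhs]
  calc ∑ s, A s * ∫ η, q * occ β vis s η *
        (YY β vis ⁻¹' Set.Icc y (y + L)).indicator (fun _ => (1 : ℝ)) η ∂π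
      ≤ ∑ s, A s * ∫ η, clip y L (YY β vis η) * score μ a b (η s) ∂π :=
        Finset.sum_le_sum (fun s _ =>
          mul_le_mul_of_nonneg_left (site_ineq μ hab hp hm hβ vis s hL) (hA s))
    _ = ∫ η, clip y L (YY β vis η) * (∑ s, A s * score μ a b (η s)) ∂π := by
        simp_rw [← integral_const_mul]
        rw [← integral_finsetSum _ (fun s _ => (hint2 s).const_mul (A s))]
        congr 1
        ext η
        rw [Finset.mul_sum]
        apply Finset.sum_congr rfl
        intro s _
        ring
    _ ≤ (L + 2) * Real.sqrt ((∑ s, A s ^ 2) * K) := by
        set t := Real.sqrt ((∑ s, A s ^ 2) * K) with ht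
        have htpos : 0 < t := Real.sqrt_pos.2 (mul_pos hpos hKpos)
        have ht2 : t ^ 2 = (∑ s, A s ^ 2) * K := Real.sq_sqrt (mul_pos hpos hKpos).le
        have hmem : ∀ s, MemLp (fun u => A s * score μ a b u) 2 μ := by
          intro s
          have h0 : MemLp (score μ a b) 2 μ := by
            apply MemLp.of_bound (measurable_score μ a b).aestronglyMeasurable K
            exact Filter.Eventually.of_forall (fun x => abs_score_le μ a b x)
          exact h0.const_mul (A s)
        have hvar := variance_sum_pi (μ := fun _ : ι => μ)
          (X := fun s : ι => fun u => A s * score μ a b u) hmem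
        have hint0 : ∀ s : ι, Integrable (fun η : ι → ℝ => A s * score μ a b (η s)) π := by
          intro s
          exact (integrable_bdd (C := K) ((measurable_score μ a b).comp (measurable_pi_apply s))
            (fun η => abs_score_le μ a b _)).const_mul (A s)
        have hmean : ∀ s : ι, ∫ η : ι → ℝ, A s * score μ a b (η s) ∂π = 0 := by
          intro s
          rw [integral_const_mul]
          have h := (measurePreserving_eval (fun _ : ι => μ) s)
          have h2 := integral_map (μ := Measure.pi fun _ : ι => μ) (φ := Function.eval s)
            h.measurable.aemeasurable (f := score μ a b)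
            (measurable_score μ a b).aestronglyMeasurable
          rw [h.map_eq, integral_score μ hp hm] at h2
          have h3 : ∫ η : ι → ℝ, score μ a b (η s) ∂π = 0 := h2.symm
          rw [h3, mul_zero]
        have hfun : (∑ i : ι, fun ω : ι → ℝ => A i * score μ a b (ω i)) =
            fun η => ∑ s, A s * score μ a b (η s) := by
          ext η
          simp
        have hsum0 : ∫ η, (∑ s, A s * score μ a b (η s)) ∂π = 0 := by
          rw [integral_finsetSum _ (fun s _ => hint0 s)]
          simp only [hmean, Finset.sum_const_zero]
        have hmeasG : Measurable (fun η : ι → ℝ => ∑ s, A s * score μ a b (η s)) := by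
          apply Finset.measurable_sum
          intro s _
          exact ((measurable_score μ a b).comp (measurable_pi_apply s)).const_mul (A s)
        have hE2 : ∫ η, (∑ s, A s * score μ a b (η s)) ^ 2 ∂π = t ^ 2 := by
          rw [hfun, variance_of_integral_eq_zero hmeasG.aemeasurable hsum0] at hvar
          rw [hvar, ht2, Finset.sum_mul]
          apply Finset.sum_congr rfl
          intro s _
          rw [variance_const_mul, variance_of_integral_eq_zero
            (measurable_score μ a b).aemeasurable (integral_score μ hp hm),
            integral_score_sq μ hab hp hm]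
        have hGb : ∀ η : ι → ℝ, |∑ s, A s * score μ a b (η s)| ≤ (∑ s, A s) * K := by
          intro η
          refine (Finset.abs_sum_le_sum_abs _ _).trans ?_
          rw [Finset.sum_mul]
          apply Finset.sum_le_sum
          intro s _
          rw [abs_mul, abs_of_nonneg (hA s)]
          exact mul_le_mul_of_nonneg_left (abs_score_le μ a b (η s)) (hA s)
        have hintG2 : Integrable (fun η : ι → ℝ => (∑ s, A s * score μ a b (η s)) ^ 2) π := by
          apply integrable_bdd (C := ((∑ s, A s) * K) ^ 2) (hmeasG.pow_const 2)
          intro η
          rw [abs_pow]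
          exact pow_le_pow_left₀ (abs_nonneg _) (hGb η) 2
        have hintl : Integrable (fun η : ι → ℝ => clip y L (YY β vis η) *
            (∑ s, A s * score μ a b (η s))) π := by
          apply integrable_bdd (C := (L + 2) * ((∑ s, A s) * K))
            (((measurable_clip y L).comp (measurable_YY β vis)).mul hmeasG)
          intro η
          simp only [Pi.mul_apply, Function.comp]
          rw [abs_mul]
          exact mul_le_mul (abs_clip_le hL _) (hGb η) (abs_nonneg _) (by linarith)
        calc ∫ η, clip y L (YY β vis η) * (∑ s, A s * score μ a b (η s)) ∂π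
            ≤ ∫ η, (L + 2) * (((∑ s, A s * score μ a b (η s)) ^ 2 / t + t) / 2) ∂π := by
              apply integral_mono hintl
              · exact (((hintG2.div_const _).add (integrable_const _)).div_const _).const_mul _
              · intro η
                simp only
                set G := ∑ s, A s * score μ a b (η s) with hGdef
                have h1 : |G| ≤ (G ^ 2 / t + t) / 2 := by
                  rw [le_div_iff₀ (by norm_num : (0:ℝ) < 2), ← sub_nonneg]
                  have : G ^ 2 / t + t - |G| * 2 = (|G| - t) ^ 2 / t := by
                    rw [← sq_abs G]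
                    field_simp
                    ring
                  rw [this]
                  positivity
                calc clip y L (YY β vis η) * G ≤ |clip y L (YY β vis η) * G| := le_abs_self _
                  _ = |clip y L (YY β vis η)| * |G| := abs_mul _ _
                  _ ≤ (L + 2) * ((G ^ 2 / t + t) / 2) :=
                    mul_le_mul (abs_clip_le hL _) h1 (abs_nonneg _) (by linarith)
          _ = (L + 2) * t := by
              rw [integral_const_mul, integral_div, integral_add (hintG2.div_const _)
                (integrable_const _), integral_div, hE2]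
              simp only [integral_const, probReal_univ, one_smul]
              field_simp
              ring

end abstract_part

end Pool.Agent.Q220.DP
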