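import Pool.Agent.Q220.DP.Transfer
import Pool.Agent.TH967.DP.AS

open MeasureTheory ProbabilityTheory Filter Topology
open Classical

namespace Pool.Agent.Q220.DP
open TH967.DP

variable {d : ℕ} {Ω : Type*} [MeasurableSpace Ω] {P : Measure Ω} [IsProbabilityMeasure P]

/-- The first inequality, with one constant. -/
theorem weights {ω : ℕ → (Fin d → ℤ) → Ω → ℝ} (h : IsEnv P ω) (hd : 0 < d)
    (hexp : ∀ b : ℝ, Integrable (fun x => Real.exp (b * ω 1 0 x)) P)
    (hnc : ¬ ∃ c : ℝ, ∀ᵐ x ∂P, ω 1 0 x = c) {β : ℝ} (hβ : 0 < β) :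
    ∃ C : ℝ, 0 < C ∧ ∀ (n : ℕ) (W : Set (Fin n → Step d)), W.Nonempty →
      ∀ a : ℕ → (Fin d → ℤ) → ℝ, (∀ i z, 0 ≤ a i z) → ∀ y L : ℝ, 0 ≤ L →
      ∫ x in {x | Real.log (restrictedFn β (fun i z => ω i z x) n W) ∈ Set.Icc y (y + L)},
        restrictedMean β (fun i z => ω i z x) n W
          (fun w => ∑ i : Fin n, a (i.val + 1) (pos w (i.val + 1))) ∂P ≤
      C * (L + 1) * Real.sqrt (∑ i ∈ Finset.Icc 1 n,
        ∑ z ∈ Finset.Icc (fun _ : Fin d => -(n : ℤ)) (fun _ => (n : ℤ)), a i z ^ 2) := by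
  obtain ⟨α, b, hab, hp, hm⟩ := exists_gap (h.meas 1 0) hexp hnc
  set q := 1 - Real.exp (-(β * (b - α))) with hq
  have hqpos : 0 < q := by
    rw [hq]
    have : Real.exp (-(β * (b - α))) < 1 := by
      rw [← Real.exp_zero]
      apply Real.exp_lt_exp.2
      have := mul_pos hβ (sub_pos.2 hab)
      linarith
    linarith
  set K := 1 / (P.map (ω 1 0)).real (Set.Ici b) + 1 / (P.map (ω 1 0)).real (Set.Iic α) with hK
  have hKpos : 0 < K := by positivity
  refine ⟨2 * Real.sqrt K / q, by positivity, ?_⟩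
  intro n W hW a ha y L hL
  have h1 := key h hd hab hp hm hβ hW a ha y hL
  rw [← hq, ← hK, Real.sqrt_mul (Finset.sum_nonneg (fun i _ => Finset.sum_nonneg
    (fun z _ => sq_nonneg _)))] at h1
  set I := ∫ x in {x | Real.log (restrictedFn β (fun i z => ω i z x) n W) ∈ Set.Icc y (y + L)},
        restrictedMean β (fun i z => ω i z x) n W
          (fun w => ∑ i : Fin n, a (i.val + 1) (pos w (i.val + 1))) ∂P with hI
  set S := Real.sqrt (∑ i ∈ Finset.Icc 1 n,
        ∑ z ∈ Finset.Icc (fun _ : Fin d => -(n : ℤ)) (fun _ => (n : ℤ)), a i z ^ 2) with hS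
  have hS0 : 0 ≤ S := Real.sqrt_nonneg _
  have hK0 : 0 ≤ Real.sqrt K := Real.sqrt_nonneg _
  have h2 : q * I ≤ 2 * (L + 1) * (S * Real.sqrt K) := by
    refine h1.trans ?_
    have : 0 ≤ S * Real.sqrt K := mul_nonneg hS0 hK0
    nlinarith
  have h3 : I ≤ (2 * (L + 1) * (S * Real.sqrt K)) / q := by
    rw [le_div_iff₀ hqpos]
    linarith
  refine h3.trans (le_of_eq ?_)
  ring

omit [IsProbabilityMeasure P] in
lemma measurable_mean {ω : ℕ → (Fin d → ℤ) → Ω → ℝ} (h : IsEnv P ω) (β : ℝ) (n : ℕ)
    (W : Set (Fin n → Step d)) (f : (Fin n → Step d) → ℝ) :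
    Measurable (fun x => restrictedMean β (fun i z => ω i z x) n W f) := by
  have he : ∀ w : Fin n → Step d, Measurable (fun x => Real.exp (β * energy (fun i z => ω i z x) w)) := by
    intro w
    apply Real.measurable_exp.comp
    apply Measurable.const_mul
    unfold energy
    apply Finset.measurable_sum
    intro i _
    exact h.meas _ _
  have h1 : ∀ g : (Fin n → Step d) → ℝ, Measurable (fun x => ∑ w : Fin n → Step d,
      W.indicator (fun w => g w * Real.exp (β * energy (fun i z => ω i z x) w)) w) := by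
    intro g
    apply Finset.measurable_sum
    intro w _
    by_cases hw : w ∈ W
    · simp only [Set.indicator_of_mem hw]
      exact (he w).const_mul _
    · simp only [Set.indicator_of_notMem hw]
      exact measurable_const
  unfold restrictedMean restrictedFn
  apply Measurable.div
  · exact (h1 f).div_const _
  · have := h1 (fun _ => 1)
    simp only [one_mul] at this
    exact this.div_const _

lemma restrictedFn_pos (hd : 0 < d) (β : ℝ) (η : ℕ → (Fin d → ℤ) → ℝ) {n : ℕ}
    {W : Set (Fin n → Step d)} (hW : W.Nonempty) : 0 < restrictedFn β η n W := by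
  obtain ⟨w0, hw0⟩ := hW
  have hdR : (0 : ℝ) < d := by exact_mod_cast hd
  unfold restrictedFn
  apply div_pos _ (by positivity)
  apply Finset.sum_pos'
  · intro w _
    exact Set.indicator_nonneg (fun _ _ => (Real.exp_pos _).le) _
  · exact ⟨w0, Finset.mem_univ _, by rw [Set.indicator_of_mem hw0]; positivity⟩

lemma mean_mono (hd : 0 < d) (β : ℝ) (η : ℕ → (Fin d → ℤ) → ℝ) {n : ℕ}
    {W : Set (Fin n → Step d)} (hW : W.Nonempty) {f g : (Fin n → Step d) → ℝ}
    (hfg : ∀ w ∈ W, f w ≤ g w) : restrictedMean β η n W f ≤ restrictedMean β η n W g := by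
  have hdR : (0 : ℝ) < d := by exact_mod_cast hd
  unfold restrictedMean
  apply div_le_div_of_nonneg_right _ (restrictedFn_pos hd β η hW).le
  apply div_le_div_of_nonneg_right _ (by positivity)
  apply Finset.sum_le_sum
  intro w _
  by_cases hw : w ∈ W
  · rw [Set.indicator_of_mem hw, Set.indicator_of_mem hw]
    exact mul_le_mul_of_nonneg_right (hfg w hw) (Real.exp_pos _).le
  · rw [Set.indicator_of_notMem hw, Set.indicator_of_notMem hw]

lemma mean_const (hd : 0 < d) (β : ℝ) (η : ℕ → (Fin d → ℤ) → ℝ) {n : ℕ}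
    {W : Set (Fin n → Step d)} (hW : W.Nonempty) (c : ℝ) :
    restrictedMean β η n W (fun _ => c) = c := by
  have hp := restrictedFn_pos hd β η hW
  unfold restrictedMean
  have : (∑ w : Fin n → Step d, W.indicator (fun w => c * Real.exp (β * energy η w)) w) /
      (2 * (d : ℝ)) ^ n = c * restrictedFn β η n W := by
    unfold restrictedFn
    rw [mul_div_assoc', Finset.mul_sum]
    congr 1
    apply Finset.sum_congr rfl
    intro w _
    by_cases hw : w ∈ W
    · rw [Set.indicator_of_mem hw, Set.indicator_of_mem hw]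
    · rw [Set.indicator_of_notMem hw, Set.indicator_of_notMem hw, mul_zero]
  rw [this, mul_div_assoc, div_self hp.ne', mul_one]

/-- the number of visits to `S` by the walk `w` at the times `1, …, n` -/
noncomputable def visits {n : ℕ} (S : Finset (ℕ × (Fin d → ℤ))) (w : Fin n → Step d) : ℝ :=
  ∑ i : Fin n, if (i.val + 1, pos w (i.val + 1)) ∈ S then 1 else 0

lemma visits_nonneg {n : ℕ} (S : Finset (ℕ × (Fin d → ℤ))) (w : Fin n → Step d) :
    0 ≤ visits S w := by
  unfold visits
  apply Finset.sum_nonneg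
  intro i _
  split_ifs <;> norm_num

lemma visits_le {n : ℕ} (S : Finset (ℕ × (Fin d → ℤ))) (w : Fin n → Step d) :
    visits S w ≤ n := by
  unfold visits
  calc _ ≤ ∑ i : Fin n, (1 : ℝ) := by
        apply Finset.sum_le_sum
        intro i _
        split_ifs <;> norm_num
    _ = n := by simp

/-- time in sets -/
theorem sets {ω : ℕ → (Fin d → ℤ) → Ω → ℝ} (h : IsEnv P ω) (hd : 0 < d) {β C : ℝ} (hC : 0 < C)
    (hCw : ∀ (n : ℕ) (W : Set (Fin n → Step d)), W.Nonempty →
      ∀ a : ℕ → (Fin d → ℤ) → ℝ, (∀ i z, 0 ≤ a i z) → ∀ y L : ℝ, 0 ≤ L →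
      ∫ x in {x | Real.log (restrictedFn β (fun i z => ω i z x) n W) ∈ Set.Icc y (y + L)},
        restrictedMean β (fun i z => ω i z x) n W
          (fun w => ∑ i : Fin n, a (i.val + 1) (pos w (i.val + 1))) ∂P ≤
      C * (L + 1) * Real.sqrt (∑ i ∈ Finset.Icc 1 n,
        ∑ z ∈ Finset.Icc (fun _ : Fin d => -(n : ℤ)) (fun _ => (n : ℤ)), a i z ^ 2))
    {n : ℕ} {W : Set (Fin n → Step d)} (hW : W.Nonempty) (S : Finset (ℕ × (Fin d → ℤ)))
    {θ : ℝ} (hθ : 0 < θ) (y : ℝ) {L : ℝ} (hL : 0 ≤ L) :
    P.real {x | Real.log (restrictedFn β (fun i z => ω i z x) n W) ∈ Set.Icc y (y + L)} ≤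
      P.real {x | restrictedMean β (fun i z => ω i z x) n W (visits S) < θ} +
        C * (L + 1) * Real.sqrt S.card / θ := by
  set E := {x | Real.log (restrictedFn β (fun i z => ω i z x) n W) ∈ Set.Icc y (y + L)} with hE
  set m : Ω → ℝ := fun x => restrictedMean β (fun i z => ω i z x) n W (visits S) with hm
  have hmm : Measurable m := measurable_mean h β n W _
  have hm0 : ∀ x, 0 ≤ m x := by
    intro x
    have := mean_mono hd β (fun i z => ω i z x) hW (f := fun _ => (0 : ℝ)) (g := visits S)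
      (fun w _ => visits_nonneg S w)
    rwa [mean_const hd β _ hW] at this
  have hmn : ∀ x, m x ≤ n := by
    intro x
    have := mean_mono hd β (fun i z => ω i z x) hW (f := visits S) (g := fun _ => (n : ℝ))
      (fun w _ => visits_le S w)
    rwa [mean_const hd β _ hW] at this
  have hmint : Integrable m (P.restrict E) := by
    apply Integrable.of_bound hmm.aestronglyMeasurable (n : ℝ)
    apply Eventually.of_forall
    intro x
    rw [Real.norm_eq_abs, abs_of_nonneg (hm0 x)]
    exact hmn x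
  have h1 := hCw n W hW (fun i z => if (i, z) ∈ S then 1 else 0) (by
    intro i z; split_ifs <;> norm_num) y L hL
  have h2 : ∑ i ∈ Finset.Icc 1 n, ∑ z ∈ Finset.Icc (fun _ : Fin d => -(n : ℤ))
      (fun _ => (n : ℤ)), (if (i, z) ∈ S then (1 : ℝ) else 0) ^ 2 ≤ S.card := by
    rw [← Finset.sum_product' (f := fun i z => (if (i, z) ∈ S then (1 : ℝ) else 0) ^ 2)]
    have : ∀ p : ℕ × (Fin d → ℤ), (if (p.1, p.2) ∈ S then (1 : ℝ) else 0) ^ 2 =
        if p ∈ S then 1 else 0 := by
      intro p
      by_cases hp : p ∈ S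
      · simp [hp]
      · simp [hp]
    simp_rw [this]
    rw [Finset.sum_ite_mem, Finset.sum_const, nsmul_eq_mul, mul_one]
    exact_mod_cast Finset.card_le_card Finset.inter_subset_right
  have h3 : ∫ x in E, m x ∂P ≤ C * (L + 1) * Real.sqrt S.card := by
    refine h1.trans ?_
    apply mul_le_mul_of_nonneg_left _ (by positivity)
    exact Real.sqrt_le_sqrt h2
  have h4 : θ * (P.restrict E).real {x | θ ≤ m x} ≤ ∫ x in E, m x ∂P :=
    mul_meas_ge_le_integral_of_nonneg (Eventually.of_forall hm0) hmint θ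
  have h5 : (P.restrict E).real {x | θ ≤ m x} ≤ C * (L + 1) * Real.sqrt S.card / θ := by
    rw [le_div_iff₀ hθ]
    linarith
  have h6 : E ⊆ {x | m x < θ} ∪ ({x | θ ≤ m x} ∩ E) := by
    intro x hx
    by_cases hc : m x < θ
    · exact Or.inl hc
    · exact Or.inr ⟨not_lt.1 hc, hx⟩
  have h7 : (P.restrict E).real {x | θ ≤ m x} = P.real ({x | θ ≤ m x} ∩ E) := by
    rw [measureReal_restrict_apply (measurableSet_le measurable_const hmm)]
  calc P.real E ≤ P.real ({x | m x < θ} ∪ ({x | θ ≤ m x} ∩ E)) := measureReal_mono h6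
    _ ≤ P.real {x | m x < θ} + P.real ({x | θ ≤ m x} ∩ E) := measureReal_union_le _ _
    _ ≤ _ := by
        rw [← h7]
        linarith

lemma restrictedFn_univ (β : ℝ) (η : ℕ → (Fin d → ℤ) → ℝ) (n : ℕ) :
    restrictedFn β η n Set.univ = partitionFn β η n := by
  unfold restrictedFn partitionFn
  simp

lemma mean_indicator (β : ℝ) (η : ℕ → (Fin d → ℤ) → ℝ) (n : ℕ) (A : Set (Fin n → Step d))
    (c : ℝ) : restrictedMean β η n Set.univ (A.indicator (fun _ => c)) =
      c * polymerProb β η n A := by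
  unfold restrictedMean polymerProb
  rw [restrictedFn_univ, mul_div_assoc', mul_div_assoc', Finset.mul_sum]
  congr 2
  apply Finset.sum_congr rfl
  intro w _
  rw [Set.indicator_univ]
  by_cases hw : w ∈ A
  · simp only [Set.indicator_of_mem hw]
  · simp only [Set.indicator_of_notMem hw]
    ring

/-- time in the tube of radius `r` -/
theorem tube {ω : ℕ → (Fin d → ℤ) → Ω → ℝ} (h : IsEnv P ω) (hd : 0 < d) {β C : ℝ} (hC : 0 < C)
    (hCw : ∀ (n : ℕ) (W : Set (Fin n → Step d)), W.Nonempty →
      ∀ a : ℕ → (Fin d → ℤ) → ℝ, (∀ i z, 0 ≤ a i z) → ∀ y L : ℝ, 0 ≤ L →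
      ∫ x in {x | Real.log (restrictedFn β (fun i z => ω i z x) n W) ∈ Set.Icc y (y + L)},
        restrictedMean β (fun i z => ω i z x) n W
          (fun w => ∑ i : Fin n, a (i.val + 1) (pos w (i.val + 1))) ∂P ≤
      C * (L + 1) * Real.sqrt (∑ i ∈ Finset.Icc 1 n,
        ∑ z ∈ Finset.Icc (fun _ : Fin d => -(n : ℤ)) (fun _ => (n : ℤ)), a i z ^ 2))
    {n : ℕ} (hn : 1 ≤ n) {r : ℝ} (hr : 0 ≤ r) (y : ℝ) {L : ℝ} (hL : 0 ≤ L) :
    P.real {x | Real.log (partitionFn β (fun i z => ω i z x) n) ∈ Set.Icc y (y + L)} ≤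
      P.real {x | polymerProb β (fun i z => ω i z x) n (cyl d n n r) < 1 / 2} +
        2 * C * (L + 1) * Real.sqrt ((2 * r + 1) ^ d / n) := by
  have hnR : (0 : ℝ) < n := by exact_mod_cast hn
  set R := ⌊r⌋₊ with hR
  set S : Finset (ℕ × (Fin d → ℤ)) := Finset.Icc 1 n ×ˢ
    Finset.Icc (fun _ : Fin d => -(R : ℤ)) (fun _ => (R : ℤ)) with hS
  have hcard : (S.card : ℝ) = n * (2 * R + 1) ^ d := by
    rw [hS, Finset.card_product, card_box, Nat.card_Icc]
    push_cast
    simp
  obtain ⟨w0, hw0⟩ := exists_conf (d := d) hd (le_refl 1) n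
  have hW : (Set.univ : Set (Fin n → Step d)).Nonempty := ⟨w0, trivial⟩
  have h1 := sets h hd hC hCw hW S (θ := (n : ℝ) / 2) (by positivity) y hL
  simp_rw [restrictedFn_univ] at h1
  refine h1.trans (add_le_add ?_ ?_)
  · apply measureReal_mono _ (measure_ne_top _ _)
    intro x hx
    simp only [Set.mem_ofPred_eq] at hx ⊢
    have h2 := mean_mono hd β (fun i z => ω i z x) hW
      (f := (cyl d n n r).indicator (fun _ => (n : ℝ))) (g := visits S) (by
        intro w _
        by_cases hw : w ∈ cyl d n n r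
        · rw [Set.indicator_of_mem hw]
          unfold visits
          have h3 : ∀ i : Fin n, (i.val + 1, pos w (i.val + 1)) ∈ S := by
            intro i
            rw [hS, Finset.mem_product]
            refine ⟨Finset.mem_Icc.2 ⟨by omega, by have := i.isLt; omega⟩, mem_box.2 ?_⟩
            intro k
            have h4 := (abs_le_euclid (pos w (i.val + 1)) k).trans
              (hw (i.val + 1) (by have := i.isLt; omega))
            have h5 : ((|pos w (i.val + 1) k| : ℤ) : ℝ) ≤ r := by push_cast; exact h4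
            have h6 : |pos w (i.val + 1) k|.toNat ≤ R := by
              rw [hR]
              apply Nat.le_floor
              have : ((|pos w (i.val + 1) k|.toNat : ℕ) : ℝ) =
                  ((|pos w (i.val + 1) k| : ℤ) : ℝ) := by
                have := Int.toNat_of_nonneg (abs_nonneg (pos w (i.val + 1) k))
                exact_mod_cast this
              rw [this]
              exact h5
            have h7 := Int.toNat_of_nonneg (abs_nonneg (pos w (i.val + 1) k))
            change |pos w (i.val + 1) k| ≤ (R : ℤ)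
            omega
          simp only [h3, if_true]
          simp
        · rw [Set.indicator_of_notMem hw]
          exact visits_nonneg S w)
    rw [mean_indicator] at h2
    by_contra hcon
    push Not at hcon
    nlinarith
  · rw [hcard]
    have e1 : Real.sqrt (n * (2 * R + 1) ^ d) / ((n : ℝ) / 2) =
        2 * Real.sqrt ((2 * R + 1) ^ d / n) := by
      have hs : Real.sqrt n * Real.sqrt n = n := Real.mul_self_sqrt hnR.le
      have hsp : 0 < Real.sqrt n := Real.sqrt_pos.2 hnR
      rw [Real.sqrt_mul hnR.le, Real.sqrt_div (by positivity)]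
      rw [div_eq_iff (by positivity)]
      field_simp
      rw [sq, hs]
    rw [mul_div_assoc, e1]
    have h8 : Real.sqrt ((2 * (R : ℝ) + 1) ^ d / n) ≤ Real.sqrt ((2 * r + 1) ^ d / n) := by
      apply Real.sqrt_le_sqrt
      have : (R : ℝ) ≤ r := Nat.floor_le hr
      gcongr
    have h9 : 0 ≤ C * (L + 1) := by positivity
    nlinarith

end Pool.Agent.Q220.DP
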