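import Pool.Agent.Q220.DP.Occ
import Pool.Agent.Q220.DP.Defs

open MeasureTheory ProbabilityTheory
open Classical

namespace Pool.Agent.Q220.DP
open TH967.DP

variable {d : ℕ}

/-- the sites visited by a walk of `n` steps -/
noncomputable def visF {n : ℕ} (w : Fin n → Step d) : Finset (Blk d n n) :=
  Finset.univ.image (fun i : Fin n =>
    (i, (⟨pos w (i.val + 1), mem_box.2 (fun k => abs_pos_le w _ k)⟩ : Box d n)))

lemma visF_inj {n : ℕ} (w : Fin n → Step d) : Function.Injective (fun i : Fin n =>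
    (i, (⟨pos w (i.val + 1), mem_box.2 (fun k => abs_pos_le w _ k)⟩ : Box d n))) := by
  intro i j h
  exact congrArg Prod.fst h

lemma sum_visF {n : ℕ} (w : Fin n → Step d) (g : Blk d n n → ℝ) :
    ∑ s ∈ visF w, g s = ∑ i : Fin n, g (i, ⟨pos w (i.val + 1),
      mem_box.2 (fun k => abs_pos_le w _ k)⟩) := by
  unfold visF
  rw [Finset.sum_image (fun i _ j _ h => visF_inj w h)]

/-- the environment seen on the block -/
def onBlk (n : ℕ) (η : ℕ → (Fin d → ℤ) → ℝ) : Blk d n n → ℝ := fun s => η (s.1.val + 1) s.2.1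

lemma sum_onBlk {n : ℕ} (η : ℕ → (Fin d → ℤ) → ℝ) (w : Fin n → Step d) :
    ∑ s ∈ visF w, onBlk n η s = energy η w := by
  rw [sum_visF]
  rfl

/-- the visits of the walks in `W` -/
noncomputable def visW {n : ℕ} (W : Set (Fin n → Step d)) : {w // w ∈ W} → Finset (Blk d n n) :=
  fun w => visF w.1

lemma sum_sub {n : ℕ} (W : Set (Fin n → Step d)) (F : (Fin n → Step d) → ℝ) :
    ∑ w : {w // w ∈ W}, F w.1 = ∑ w, W.indicator F w := by
  rw [← Finset.sum_subtype (Finset.univ.filter (fun w => w ∈ W)) (by simp) F, Finset.sum_filter]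
  rfl

lemma ZZ_visW {n : ℕ} (β : ℝ) (η : ℕ → (Fin d → ℤ) → ℝ) (W : Set (Fin n → Step d)) :
    ZZ β (visW W) (onBlk n η) = ∑ w, W.indicator (fun w => Real.exp (β * energy η w)) w := by
  unfold ZZ visW
  rw [← sum_sub]
  simp_rw [sum_onBlk]

lemma log_restrictedFn {n : ℕ} (hd : 0 < d) (β : ℝ) (η : ℕ → (Fin d → ℤ) → ℝ)
    {W : Set (Fin n → Step d)} (hW : W.Nonempty) :
    Real.log (restrictedFn β η n W) = YY β (visW W) (onBlk n η) - Real.log ((2 * (d : ℝ)) ^ n) := by
  obtain ⟨w0, hw0⟩ := hW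
  have : Nonempty {w // w ∈ W} := ⟨⟨w0, hw0⟩⟩
  have hdR : (0 : ℝ) < d := by exact_mod_cast hd
  have hp := ZZ_pos β (visW W) (onBlk n η)
  unfold restrictedFn YY
  rw [ZZ_visW] at *
  rw [Real.log_div hp.ne' (by positivity)]

lemma mean_eq {n : ℕ} (hd : 0 < d) (β : ℝ) (η : ℕ → (Fin d → ℤ) → ℝ)
    {W : Set (Fin n → Step d)} (hW : W.Nonempty) (a : ℕ → (Fin d → ℤ) → ℝ) :
    restrictedMean β η n W (fun w => ∑ i : Fin n, a (i.val + 1) (pos w (i.val + 1))) =
      ∑ s : Blk d n n, a (s.1.val + 1) s.2.1 * occ β (visW W) s (onBlk n η) := by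
  obtain ⟨w0, hw0⟩ := hW
  have : Nonempty {w // w ∈ W} := ⟨⟨w0, hw0⟩⟩
  have hdR : (0 : ℝ) < d := by exact_mod_cast hd
  have hp := ZZ_pos β (visW W) (onBlk n η)
  unfold restrictedMean restrictedFn occ
  rw [← ZZ_visW]
  have e1 : ∀ s : Blk d n n, a (s.1.val + 1) s.2.1 * ((∑ w : {w // w ∈ W},
      if s ∈ visW W w then Real.exp (β * ∑ t ∈ visW W w, onBlk n η t) else 0) /
        ZZ β (visW W) (onBlk n η)) =
      (∑ w : {w // w ∈ W}, if s ∈ visW W w then a (s.1.val + 1) s.2.1 *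
        Real.exp (β * ∑ t ∈ visW W w, onBlk n η t) else 0) / ZZ β (visW W) (onBlk n η) := by
    intro s
    rw [mul_div_assoc', Finset.mul_sum]
    congr 1
    apply Finset.sum_congr rfl
    intro w _
    split_ifs <;> simp
  simp_rw [e1]
  rw [← Finset.sum_div, Finset.sum_comm]
  have e2 : ∀ w : {w // w ∈ W}, ∑ s : Blk d n n, (if s ∈ visW W w then a (s.1.val + 1) s.2.1 *
        Real.exp (β * ∑ t ∈ visW W w, onBlk n η t) else 0) =
      (∑ i : Fin n, a (i.val + 1) (pos w.1 (i.val + 1))) * Real.exp (β * energy η w.1) := by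
    intro w
    rw [← Finset.sum_filter]
    have e3 : (Finset.univ.filter (fun s => s ∈ visW W w)) = visF w.1 := by
      ext s
      rw [Finset.mem_filter]
      exact ⟨fun h => h.2, fun h => ⟨Finset.mem_univ _, h⟩⟩
    rw [e3, ← Finset.sum_mul, sum_visF w.1 (fun s => a (s.1.val + 1) s.2.1)]
    unfold visW
    rw [sum_onBlk]
  simp_rw [e2]
  rw [sum_sub W (fun w => (∑ i : Fin n, a (i.val + 1) (pos w (i.val + 1))) *
    Real.exp (β * energy η w))]
  field_simp

lemma sum_blk {n : ℕ} (g : ℕ → (Fin d → ℤ) → ℝ) :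
    ∑ s : Blk d n n, g (s.1.val + 1) s.2.1 =
      ∑ i ∈ Finset.Icc 1 n, ∑ z ∈ Finset.Icc (fun _ : Fin d => -(n : ℤ)) (fun _ => (n : ℤ)),
        g i z := by
  rw [Fintype.sum_prod_type]
  have e1 : ∀ i : Fin n, ∑ x : Box d n, g (i.val + 1) x.1 =
      ∑ z ∈ Finset.Icc (fun _ : Fin d => -(n : ℤ)) (fun _ => (n : ℤ)), g (i.val + 1) z := by
    intro i
    exact Finset.sum_coe_sort _ (fun z => g (i.val + 1) z)
  simp only [e1]
  rw [Fin.sum_univ_eq_sum_range (fun i => ∑ z ∈ Finset.Icc (fun _ : Fin d => -(n : ℤ))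
    (fun _ => (n : ℤ)), g (i + 1) z) n]
  rw [Finset.sum_bij (fun i _ => i + 1)]
  · intro i hi
    rw [Finset.mem_range] at hi
    rw [Finset.mem_Icc]
    omega
  · intro i _ j _ h
    omega
  · intro j hj
    rw [Finset.mem_Icc] at hj
    exact ⟨j - 1, Finset.mem_range.2 (by omega), by omega⟩
  · intro i _
    rfl

variable {Ω : Type*} [MeasurableSpace Ω] {P : Measure Ω} [IsProbabilityMeasure P]

/-- the key inequality for the polymer -/
theorem key {ω : ℕ → (Fin d → ℤ) → Ω → ℝ} (h : IsEnv P ω) (hd : 0 < d) {α b : ℝ} (hab : α < b)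
    (hp : 0 < (P.map (ω 1 0)).real (Set.Ici b)) (hm : 0 < (P.map (ω 1 0)).real (Set.Iic α))
    {β : ℝ} (hβ : 0 < β) {n : ℕ} {W : Set (Fin n → Step d)} (hW : W.Nonempty)
    (a : ℕ → (Fin d → ℤ) → ℝ) (ha : ∀ i z, 0 ≤ a i z) (y : ℝ) {L : ℝ} (hL : 0 ≤ L) :
    (1 - Real.exp (-(β * (b - α)))) *
      ∫ x in {x | Real.log (restrictedFn β (fun i z => ω i z x) n W) ∈ Set.Icc y (y + L)},
        restrictedMean β (fun i z => ω i z x) n W
          (fun w => ∑ i : Fin n, a (i.val + 1) (pos w (i.val + 1))) ∂P ≤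
    (L + 2) * Real.sqrt ((∑ i ∈ Finset.Icc 1 n,
      ∑ z ∈ Finset.Icc (fun _ : Fin d => -(n : ℤ)) (fun _ => (n : ℤ)), a i z ^ 2) *
      (1 / (P.map (ω 1 0)).real (Set.Ici b) + 1 / (P.map (ω 1 0)).real (Set.Iic α))) := by
  have hpm : IsProbabilityMeasure (P.map (ω 1 0)) :=
    Measure.isProbabilityMeasure_map (h.meas 1 0).aemeasurable
  have hne : Nonempty {w // w ∈ W} := ⟨⟨hW.choose, hW.choose_spec⟩⟩
  set c := Real.log ((2 * (d : ℝ)) ^ n) with hc
  have hmain := anti_conc_w (ι := Blk d n n) (P.map (ω 1 0)) hab hp hm hβ (visW W)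
    (fun s => a (s.1.val + 1) s.2.1) (fun s => ha _ _) (y := y + c) hL
  rw [sum_blk (fun i z => a i z ^ 2)] at hmain
  -- transfer
  let φ : Blk d n n → ℕ × (Fin d → ℤ) := fun s => (s.1.val + 1, s.2.1)
  have hφ : Function.Injective φ := by
    rintro ⟨i, x⟩ ⟨j, z⟩ he
    simp only [φ, Prod.mk.injEq] at he
    have h1 : i = j := Fin.ext (by omega)
    have h2 : x = z := Subtype.ext he.2
    rw [h1, h2]
  have hlaw := law1 h hφ
  have hΦ : Measurable (fun x (s : Blk d n n) => ω (φ s).1 (φ s).2 x) := by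
    rw [measurable_pi_iff]
    intro s
    exact h.meas _ _
  have hS : MeasurableSet (YY β (visW W) ⁻¹' Set.Icc (y + c) (y + c + L)) :=
    measurable_YY β _ measurableSet_Icc
  have hF : Measurable (fun η : Blk d n n → ℝ =>
      ∑ s : Blk d n n, a (s.1.val + 1) s.2.1 * occ β (visW W) s η) := by
    apply Finset.measurable_sum
    intro s _
    exact (measurable_occ β _ s).const_mul _
  have e1 : ∫ η in YY β (visW W) ⁻¹' Set.Icc (y + c) (y + c + L),
      (∑ s : Blk d n n, a (s.1.val + 1) s.2.1 * occ β (visW W) s η)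
        ∂(Measure.pi fun _ : Blk d n n => P.map (ω 1 0)) =
      ∫ x in {x | Real.log (restrictedFn β (fun i z => ω i z x) n W) ∈ Set.Icc y (y + L)},
        restrictedMean β (fun i z => ω i z x) n W
          (fun w => ∑ i : Fin n, a (i.val + 1) (pos w (i.val + 1))) ∂P := by
    rw [← hlaw, setIntegral_map hS hF.aestronglyMeasurable hΦ.aemeasurable]
    have e2 : (fun x (s : Blk d n n) => ω (φ s).1 (φ s).2 x) ⁻¹'
        (YY β (visW W) ⁻¹' Set.Icc (y + c) (y + c + L)) =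
        {x | Real.log (restrictedFn β (fun i z => ω i z x) n W) ∈ Set.Icc y (y + L)} := by
      ext x
      simp only [Set.mem_preimage, Set.mem_Icc, Set.mem_ofPred_eq]
      rw [log_restrictedFn hd β _ hW, ← hc]
      have e3 : (fun (s : Blk d n n) => ω (φ s).1 (φ s).2 x) = onBlk n (fun i z => ω i z x) := rfl
      rw [e3]
      constructor
      · rintro ⟨h1, h2⟩
        constructor <;> linarith
      · rintro ⟨h1, h2⟩
        constructor <;> linarith
    rw [e2]
    apply integral_congr_ae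
    apply Filter.Eventually.of_forall
    intro x
    simp only
    rw [mean_eq hd β _ hW a]
    rfl
  rw [← e1]
  exact hmain

end Pool.Agent.Q220.DP
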