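import Pool.Agent.TH967.DP.AS

open MeasureTheory ProbabilityTheory Filter Topology
open Classical

namespace Pool.Agent.Q220.DP
open TH967.DP

variable {d : ℕ}

/-- starting points and walks of `m` steps in a moving tube; `c` is the position of the centre -/
abbrev MT (c : ℕ → Fin d → ℤ) (D m : ℕ) : Type :=
  {p : Box d D × (Fin m → Step d) // par p.1.1 = 0 ∧
    ∀ i ≤ m, ∀ k, |(p.1.1 + pos p.2 i - c i) k| ≤ (D : ℤ)}

/-- the partition function of the moving tube whose centre starts from `z` at the time `T` -/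
noncomputable def XV (β : ℝ) (η : ℕ → (Fin d → ℤ) → ℝ) (c : ℕ → Fin d → ℤ) (D m T : ℕ)
    (z : Fin d → ℤ) : ℝ :=
  ∑ p : MT c D m, Real.exp (β * energy (shift T (z + p.1.1.1) η) p.1.2)

/-- the block sites visited, in the moving frame -/
noncomputable def visM {c : ℕ → Fin d → ℤ} {D m : ℕ} (p : MT c D m) : Finset (Blk d D m) :=
  Finset.univ.image (fun i : Fin m =>
    (i, (⟨p.1.1.1 + pos p.1.2 (i.val + 1) - c (i.val + 1),
      mem_box.2 (fun k => p.2.2 _ (by have := i.isLt; omega) k)⟩ : Box d D)))

lemma visM_inj {c : ℕ → Fin d → ℤ} {D m : ℕ} (p : MT c D m) : Function.Injective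
    (fun i : Fin m => (i, (⟨p.1.1.1 + pos p.1.2 (i.val + 1) - c (i.val + 1),
      mem_box.2 (fun k => p.2.2 _ (by have := i.isLt; omega) k)⟩ : Box d D))) := by
  intro i j h
  exact congrArg Prod.fst h

lemma card_visM {c : ℕ → Fin d → ℤ} {D m : ℕ} (p : MT c D m) : (visM p).card = m := by
  unfold visM
  rw [Finset.card_image_of_injective _ (visM_inj p)]
  simp

lemma YY_visM {c : ℕ → Fin d → ℤ} {D m : ℕ} (β : ℝ) (η : ℕ → (Fin d → ℤ) → ℝ) (T : ℕ)
    (z : Fin d → ℤ) :
    YY β (visM (c := c) (D := D) (m := m))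
      (fun s => η (T + (s.1.val + 1)) (z + c (s.1.val + 1) + s.2.1)) =
      Real.log (XV β η c D m T z) := by
  unfold YY
  congr 1
  unfold ZZ XV
  apply Finset.sum_congr rfl
  intro p _
  congr 2
  unfold visM energy
  rw [Finset.sum_image (fun i _ j _ h => visM_inj p h)]
  apply Finset.sum_congr rfl
  intro i _
  unfold shift
  congr 1
  ext k
  simp only [Pi.add_apply, Pi.sub_apply]
  ring

/-- embedding of the translates of the moving block -/
def embM {M : ℕ} (z e : Fin d → ℤ) (c : ℕ → Fin d → ℤ) (D m T : ℕ)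
    (p : Fin (M + 1) × Blk d D m) : ℕ × (Fin d → ℤ) :=
  (T + (p.2.1.val + 1), (z + (p.1.val : ℤ) • e) + c (p.2.1.val + 1) + p.2.2.1)

lemma embM_inj {M : ℕ} (z e : Fin d → ℤ) (c : ℕ → Fin d → ℤ) (D m T : ℕ) {k : Fin d}
    (he : 2 * (D : ℤ) < |e k|) : Function.Injective (embM (M := M) z e c D m T) := by
  rintro ⟨j, i, x⟩ ⟨j', i', x'⟩ h
  unfold embM at h
  simp only [Prod.mk.injEq] at h
  obtain ⟨h1, h2⟩ := h
  have hi : i = i' := by
    apply Fin.ext
    omega
  subst hi
  have h3 := congrFun h2 k
  simp only [Pi.add_apply, Pi.smul_apply, smul_eq_mul] at h3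
  have hx := abs_le.1 (mem_box.1 x.2 k)
  have hx' := abs_le.1 (mem_box.1 x'.2 k)
  have h4 : ((j.val : ℤ) - j'.val) * e k = x'.1 k - x.1 k := by linarith
  have hjj : j = j' := by
    by_contra hne
    have h5 : 1 ≤ |(j.val : ℤ) - j'.val| := by
      apply Int.one_le_abs
      intro h0
      apply hne
      apply Fin.ext
      omega
    have h6 : |((j.val : ℤ) - j'.val) * e k| = |(j.val : ℤ) - j'.val| * |e k| := abs_mul _ _
    rw [h4] at h6
    have h7 : |x'.1 k - x.1 k| ≤ 2 * (D : ℤ) := by
      rw [abs_le]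
      constructor <;> linarith [hx.1, hx.2, hx'.1, hx'.2]
    nlinarith [abs_nonneg (e k)]
  subst hjj
  have hxx : x = x' := Subtype.ext (add_left_cancel h2)
  subst hxx
  rfl

/-- incumbent bound -/
lemma inc_bound {T m D : ℕ} {η : ℕ → (Fin d → ℤ) → ℝ} {R β : ℝ} (hβ : 0 < β)
    (hG : Good η (T + m) R) (w0 : Fin (T + m) → Step d) :
    (∑ w : Fin (T + m) → Step d, if (∀ i ≤ T + m, ∀ k, |(pos w i - pos w0 i) k| ≤ (D : ℤ)) then
      Real.exp (β * energy η w) else 0) ≤
    (2 * (d : ℝ)) ^ T * Real.exp (β * (T * R)) *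
      XV β η (fun i => pos w0 (T + i) - pos w0 T) D m T (pos w0 T) := by
  rw [sum_append]
  have hterm : ∀ a : Fin T → Step d, (∑ u : Fin m → Step d,
      if (∀ i ≤ T + m, ∀ k, |(pos (Fin.append a u) i - pos w0 i) k| ≤ (D : ℤ)) then
        Real.exp (β * energy η (Fin.append a u)) else 0) ≤ Real.exp (β * (T * R)) *
      XV β η (fun i => pos w0 (T + i) - pos w0 T) D m T (pos w0 T) := by
    intro a
    by_cases hx : (∀ k, |(pos a T - pos w0 T) k| ≤ (D : ℤ))
    · have hpar : par (pos a T - pos w0 T) = 0 := by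
        rw [par_sub, par_pos a le_rfl, par_pos w0 (Nat.le_add_right _ _), sub_self]
      set x : Box d D := ⟨pos a T - pos w0 T, mem_box.2 hx⟩ with hxdef
      unfold XV
      rw [Finset.mul_sum]
      -- the walks that stay in the tube
      set Q : Finset (Fin m → Step d) := Finset.univ.filter (fun u =>
        ∀ i ≤ T + m, ∀ k, |(pos (Fin.append a u) i - pos w0 i) k| ≤ (D : ℤ)) with hQ
      rw [← Finset.sum_filter, ← hQ]
      have hmem : ∀ u ∈ Q, par x.1 = 0 ∧ ∀ i ≤ m, ∀ k,
          |(x.1 + pos u i - (pos w0 (T + i) - pos w0 T)) k| ≤ (D : ℤ) := by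
        intro u hu
        refine ⟨hpar, fun i hi k => ?_⟩
        have h1 := (Finset.mem_filter.1 hu).2 (T + i) (by omega) k
        rw [pos_append_right] at h1
        have e : x.1 + pos u i - (pos w0 (T + i) - pos w0 T) =
            pos a T + pos u i - pos w0 (T + i) := by
          ext l
          simp only [hxdef, Pi.add_apply, Pi.sub_apply]
          ring
        rw [e]
        exact h1
      have hterm2 : ∀ u ∈ Q, Real.exp (β * energy η (Fin.append a u)) ≤
          Real.exp (β * (T * R)) * Real.exp (β * energy (shift T (pos w0 T + x.1) η) u) := by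
        intro u _
        rw [energy_append, ← Real.exp_add, Real.exp_le_exp]
        have e : pos w0 T + x.1 = pos a T := by
          ext l
          simp only [hxdef, Pi.add_apply, Pi.sub_apply]
          ring
        rw [e]
        have h1 := (abs_le.1 (energy_le_left hG a)).2
        have h2 := mul_le_mul_of_nonneg_left h1 hβ.le
        linarith
      refine (Finset.sum_le_sum hterm2).trans ?_
      have e1 : ∑ u ∈ Q, Real.exp (β * (T * R)) *
          Real.exp (β * energy (shift T (pos w0 T + x.1) η) u) =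
          ∑ u ∈ Q.attach, Real.exp (β * (T * R)) *
          Real.exp (β * energy (shift T (pos w0 T + x.1) η) u.1) :=
        (Finset.sum_attach Q (fun u => Real.exp (β * (T * R)) *
          Real.exp (β * energy (shift T (pos w0 T + x.1) η) u))).symm
      rw [e1]
      let ψ : {u // u ∈ Q} → MT (fun i => pos w0 (T + i) - pos w0 T) D m :=
        fun u => ⟨(x, u.1), hmem u.1 u.2⟩
      have hψ : Function.Injective ψ := by
        intro u v huv
        have h1 := congrArg (fun p => p.1.2) huv
        exact Subtype.ext h1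
      have e2 : ∑ u ∈ Q.attach, Real.exp (β * (T * R)) *
          Real.exp (β * energy (shift T (pos w0 T + x.1) η) u.1) =
          ∑ p ∈ Q.attach.image ψ, Real.exp (β * (T * R)) *
            Real.exp (β * energy (shift T (pos w0 T + p.1.1.1) η) p.1.2) := by
        rw [Finset.sum_image (fun u _ v _ h => hψ h)]
      rw [e2]
      apply Finset.sum_le_sum_of_subset_of_nonneg (Finset.subset_univ _)
      intro p _ _
      positivity
    · have h0 : (∑ u : Fin m → Step d,
          if (∀ i ≤ T + m, ∀ k, |(pos (Fin.append a u) i - pos w0 i) k| ≤ (D : ℤ)) then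
            Real.exp (β * energy η (Fin.append a u)) else 0) = 0 := by
        apply Finset.sum_eq_zero
        intro u _
        rw [if_neg]
        intro hc
        apply hx
        intro k
        have h1 := hc T (Nat.le_add_right _ _) k
        rwa [pos_append_left a u le_rfl] at h1
      rw [h0]
      unfold XV
      positivity
  refine (Finset.sum_le_sum (fun a _ => hterm a)).trans ?_
  rw [Finset.sum_const, Finset.card_univ, Fintype.card_fun, Fintype.card_prod, Fintype.card_fin,
    Fintype.card_bool, Fintype.card_fin, nsmul_eq_mul]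
  push_cast
  apply le_of_eq
  ring

/-- competitor bound -/
lemma comp_bound {T m D : ℕ} {η : ℕ → (Fin d → ℤ) → ℝ} {R β : ℝ} (hβ : 0 < β)
    (hG : Good η (T + m) R) (c : ℕ → Fin d → ℤ) (z : Fin d → ℤ)
    (hz : ∀ x : Box d D, par x.1 = 0 → ∃ a : Fin T → Step d, pos a T = z + x.1) :
    XV β η c D m T z ≤ (2 * (D : ℝ) + 1) ^ d * Real.exp (β * (T * R)) * ZF β η (T + m) := by
  have h1 : ∀ x : Box d D, par x.1 = 0 → ∑ u : Fin m → Step d,
      Real.exp (β * energy (shift T (z + x.1) η) u) ≤ Real.exp (β * (T * R)) * ZF β η (T + m) := by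
    intro x hx
    obtain ⟨a, ha⟩ := hz x hx
    unfold ZF
    rw [sum_append, ← ha]
    calc ∑ u : Fin m → Step d, Real.exp (β * energy (shift T (pos a T) η) u)
        ≤ ∑ u : Fin m → Step d, Real.exp (β * (T * R)) *
          Real.exp (β * energy η (Fin.append a u)) := by
          apply Finset.sum_le_sum
          intro u _
          rw [energy_append, ← Real.exp_add, Real.exp_le_exp]
          have h1 := (abs_le.1 (energy_le_left hG a)).1
          have h2 := mul_le_mul_of_nonneg_left h1 hβ.le
          linarith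
      _ = Real.exp (β * (T * R)) * ∑ u : Fin m → Step d,
          Real.exp (β * energy η (Fin.append a u)) := by rw [Finset.mul_sum]
      _ ≤ _ := by
          apply mul_le_mul_of_nonneg_left _ (Real.exp_pos _).le
          exact Finset.single_le_sum (f := fun a => ∑ u : Fin m → Step d,
            Real.exp (β * energy η (Fin.append a u)))
            (fun u _ => Finset.sum_nonneg (fun v _ => (Real.exp_pos _).le)) (Finset.mem_univ a)
  have hZ : 0 ≤ Real.exp (β * (T * R)) * ZF β η (T + m) := by
    unfold ZF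
    positivity
  have h2 : XV β η c D m T z ≤ ∑ x : Box d D, (if par x.1 = 0 then ∑ u : Fin m → Step d,
      Real.exp (β * energy (shift T (z + x.1) η) u) else 0) := by
    unfold XV
    have e1 : ∑ x : Box d D, (if par x.1 = 0 then ∑ u : Fin m → Step d,
        Real.exp (β * energy (shift T (z + x.1) η) u) else 0) =
        ∑ p : Box d D × (Fin m → Step d), (if par p.1.1 = 0 then
          Real.exp (β * energy (shift T (z + p.1.1) η) p.2) else 0) := by
      rw [Fintype.sum_prod_type]
      apply Finset.sum_congr rfl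
      intro x _
      split_ifs with h
      · rfl
      · simp
    rw [e1]
    rw [← Finset.sum_subtype (Finset.univ.filter (fun p : Box d D × (Fin m → Step d) =>
      par p.1.1 = 0 ∧ ∀ i ≤ m, ∀ k, |(p.1.1 + pos p.2 i - c i) k| ≤ (D : ℤ))) (by simp)
      (fun p => Real.exp (β * energy (shift T (z + p.1.1) η) p.2)), Finset.sum_filter]
    apply Finset.sum_le_sum
    intro p _
    by_cases hp : par p.1.1 = 0
    · rw [if_pos hp]
      split_ifs
      · exact le_rfl
      · positivity
    · rw [if_neg (fun h => hp h.1), if_neg hp]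
  refine h2.trans ?_
  calc ∑ x : Box d D, (if par x.1 = 0 then ∑ u : Fin m → Step d,
      Real.exp (β * energy (shift T (z + x.1) η) u) else 0)
      ≤ ∑ x : Box d D, Real.exp (β * (T * R)) * ZF β η (T + m) := by
        apply Finset.sum_le_sum
        intro x _
        split_ifs with h
        · exact h1 x h
        · exact hZ
    _ = _ := by
        rw [Finset.sum_const, Finset.card_univ, Fintype.card_coe, card_box, nsmul_eq_mul]
        push_cast
        ring

/-- there is a direction in which the tube can be joined -/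
lemma exists_dir (hd : 0 < d) {T M D Δ : ℕ} (hΔ : d * D ≤ Δ) (hT : (d + 1) * (Δ * M) + d * D ≤ T)
    (g : Fin d → ℤ) (hg : ∑ k, |g k| ≤ (T : ℤ)) :
    ∃ (k : Fin d) (σ : ℤ), |σ| = 1 ∧ ∀ j : ℕ, 1 ≤ j → j ≤ M →
      ∑ l, |(g + (j : ℤ) • (Pi.single k (σ * Δ) : Fin d → ℤ)) l| + d * D ≤ (T : ℤ) := by
  have hΔz : (d : ℤ) * D ≤ Δ := by exact_mod_cast hΔ
  have hTz : ((d : ℤ) + 1) * (Δ * M) + d * D ≤ T := by exact_mod_cast hT
  by_cases hA : ∑ k, |g k| + Δ * M + d * D ≤ (T : ℤ)
  · refine ⟨⟨0, hd⟩, 1, by simp, fun j hj1 hj2 => ?_⟩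
    have h1 : ∑ l, |(g + (j : ℤ) • (Pi.single (⟨0, hd⟩ : Fin d) (1 * (Δ : ℤ)) : Fin d → ℤ)) l| ≤
        ∑ l, |g l| + ∑ l, |((j : ℤ) • (Pi.single (⟨0, hd⟩ : Fin d) (1 * (Δ : ℤ)) : Fin d → ℤ)) l| := by
      rw [← Finset.sum_add_distrib]
      apply Finset.sum_le_sum
      intro l _
      rw [Pi.add_apply]
      exact abs_add_le _ _
    have h2 : ∑ l, |((j : ℤ) • (Pi.single (⟨0, hd⟩ : Fin d) (1 * (Δ : ℤ)) : Fin d → ℤ)) l| =
        j * Δ := by
      rw [Finset.sum_eq_single ⟨0, hd⟩]
      · rw [Pi.smul_apply, Pi.single_eq_same, smul_eq_mul, one_mul]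
        exact abs_of_nonneg (by positivity)
      · intro l _ hl
        rw [Pi.smul_apply, Pi.single_eq_of_ne hl, smul_zero, abs_zero]
      · intro h
        exact absurd (Finset.mem_univ _) h
    have hj : (j : ℤ) ≤ M := by exact_mod_cast hj2
    have hΔ0 : (0 : ℤ) ≤ Δ := by positivity
    nlinarith
  · push Not at hA
    have hex : ∃ k, (Δ : ℤ) * M < |g k| := by
      by_contra hcon
      push Not at hcon
      have h1 : ∑ k, |g k| ≤ ∑ _k : Fin d, (Δ : ℤ) * M := Finset.sum_le_sum (fun k _ => hcon k)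
      rw [Finset.sum_const, Finset.card_univ, Fintype.card_fin, nsmul_eq_mul] at h1
      linarith
    obtain ⟨k, hk⟩ := hex
    have hΔM : (0 : ℤ) ≤ (Δ : ℤ) * M := by positivity
    have hgk : g k ≠ 0 := by
      intro h0
      rw [h0, abs_zero] at hk
      linarith
    refine ⟨k, -(SignType.sign (g k) : ℤ), ?_, fun j hj1 hj2 => ?_⟩
    · rw [abs_neg]
      rcases lt_or_gt_of_ne hgk with h | h
      · rw [sign_neg h]; simp
      · rw [sign_pos h]; simp
    · have hjz : (j : ℤ) ≤ M := by exact_mod_cast hj2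
      have hj1z : (1 : ℤ) ≤ j := by exact_mod_cast hj1
      have hΔ0 : (0 : ℤ) ≤ Δ := by positivity
      have hjΔ : (j : ℤ) * Δ < |g k| := by nlinarith
      have h1 : ∀ l, |(g + (j : ℤ) • (Pi.single k (-(SignType.sign (g k) : ℤ) * Δ) : Fin d → ℤ)) l| =
          |g l| - (if l = k then (j : ℤ) * Δ else 0) := by
        intro l
        rw [Pi.add_apply, Pi.smul_apply, smul_eq_mul]
        by_cases hl : l = k
        · subst hl
          rw [Pi.single_eq_same, if_pos rfl]
          rcases lt_or_gt_of_ne hgk with h | h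
          · rw [sign_neg h]
            rw [abs_of_neg h] at hjΔ ⊢
            simp only [SignType.coe_neg_one, neg_neg, one_mul]
            rw [abs_of_neg (by linarith)]
            ring
          · rw [sign_pos h]
            rw [abs_of_pos h] at hjΔ ⊢
            simp only [SignType.coe_one, neg_mul, one_mul, mul_neg]
            rw [abs_of_pos (by linarith)]
            ring
        · rw [Pi.single_eq_of_ne hl, if_neg hl, mul_zero, add_zero, sub_zero]
      simp_rw [h1]
      rw [Finset.sum_sub_distrib, Finset.sum_ite_eq', if_pos (Finset.mem_univ k)]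
      nlinarith

end Pool.Agent.Q220.DP
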