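import Pool.Agent.Q220.DP.NoTube
import Pool.Agent.Q220.DP.Blocks

open MeasureTheory ProbabilityTheory Filter Topology
open Classical

set_option maxHeartbeats 4000000

namespace Pool.Agent.Q220.DP
open TH967.DP

variable {d : ℕ}

lemma XV_shift (β : ℝ) (η : ℕ → (Fin d → ℤ) → ℝ) (c : ℕ → Fin d → ℤ) (D m T N1 : ℕ)
    (p z : Fin d → ℤ) : XV β (shift N1 p η) c D m T z = XV β η c D m (N1 + T) (p + z) := by
  unfold XV
  apply Finset.sum_congr rfl
  intro q _
  congr 3
  unfold shift
  ext i x
  have e : p + (z + q.1.1.1 + x) = p + z + q.1.1.1 + x := by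
    ext l
    simp only [Pi.add_apply]
    ring
  rw [add_assoc N1 T i, e]

/-- incumbent bound in a window -/
lemma inc2 {T m D : ℕ} {η : ℕ → (Fin d → ℤ) → ℝ} {R β : ℝ} (hβ : 0 < β)
    (hG : Good η (T + m + T) R) (c2 : ℕ → Fin d → ℤ) (hpar : par (c2 T) = (T : ZMod 2)) :
    (∑ u : Fin (T + m + T) → Step d, if (∀ i ≤ T + m + T, ∀ k, |(pos u i - c2 i) k| ≤ (D : ℤ)) then
      Real.exp (β * energy η u) else 0) ≤
    (2 * (d : ℝ)) ^ (T + T) * Real.exp (β * ((T + T : ℕ) * R)) *
      XV β η (fun i => c2 (T + i) - c2 T) D m T (c2 T) := by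
  have hX0 : 0 ≤ XV β η (fun i => c2 (T + i) - c2 T) D m T (c2 T) := by
    unfold XV
    positivity
  rw [sum_append]
  -- remove the tail
  have htail : ∀ u : Fin (T + m) → Step d, (∑ b : Fin T → Step d,
      if (∀ i ≤ T + m + T, ∀ k, |(pos (Fin.append u b) i - c2 i) k| ≤ (D : ℤ)) then
        Real.exp (β * energy η (Fin.append u b)) else 0) ≤
      (2 * (d : ℝ)) ^ T * Real.exp (β * (T * R)) *
        (if (∀ i ≤ T + m, ∀ k, |(pos u i - c2 i) k| ≤ (D : ℤ)) then
          Real.exp (β * energy η u) else 0) := by
    intro u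
    by_cases hu : ∀ i ≤ T + m, ∀ k, |(pos u i - c2 i) k| ≤ (D : ℤ)
    · rw [if_pos hu]
      have h1 : ∀ b : Fin T → Step d,
          (if (∀ i ≤ T + m + T, ∀ k, |(pos (Fin.append u b) i - c2 i) k| ≤ (D : ℤ)) then
            Real.exp (β * energy η (Fin.append u b)) else 0) ≤
          Real.exp (β * (T * R)) * Real.exp (β * energy η u) := by
        intro b
        split_ifs
        · rw [energy_append, ← Real.exp_add, Real.exp_le_exp]
          have h2 := (abs_le.1 (energy_le_right hG u b)).2
          have h3 := mul_le_mul_of_nonneg_left h2 hβ.le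
          linarith
        · positivity
      refine (Finset.sum_le_sum (fun b _ => h1 b)).trans ?_
      rw [Finset.sum_const, Finset.card_univ, Fintype.card_fun, Fintype.card_prod,
        Fintype.card_fin, Fintype.card_bool, Fintype.card_fin, nsmul_eq_mul]
      push_cast
      apply le_of_eq
      ring
    · rw [if_neg hu, mul_zero]
      apply le_of_eq
      apply Finset.sum_eq_zero
      intro b _
      rw [if_neg]
      intro hc
      apply hu
      intro i hi k
      have := hc i (by omega) k
      rwa [pos_append_left u b hi] at this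
  refine (Finset.sum_le_sum (fun u _ => htail u)).trans ?_
  rw [← Finset.mul_sum]
  -- the first `T + m` steps
  have hGG : Good η (T + m) R := by
    intro i hi1 hi2 x hx
    apply hG i hi1 (by omega) x
    intro k
    have := hx k
    push_cast at this ⊢
    omega
  have hmain : (∑ u : Fin (T + m) → Step d, if (∀ i ≤ T + m, ∀ k, |(pos u i - c2 i) k| ≤ (D : ℤ)) then
      Real.exp (β * energy η u) else 0) ≤
      (2 * (d : ℝ)) ^ T * Real.exp (β * (T * R)) *
      XV β η (fun i => c2 (T + i) - c2 T) D m T (c2 T) := by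
    rw [sum_append]
    have hterm : ∀ a : Fin T → Step d, (∑ u : Fin m → Step d,
        if (∀ i ≤ T + m, ∀ k, |(pos (Fin.append a u) i - c2 i) k| ≤ (D : ℤ)) then
          Real.exp (β * energy η (Fin.append a u)) else 0) ≤ Real.exp (β * (T * R)) *
        XV β η (fun i => c2 (T + i) - c2 T) D m T (c2 T) := by
      intro a
      by_cases hx : (∀ k, |(pos a T - c2 T) k| ≤ (D : ℤ))
      · have hp : par (pos a T - c2 T) = 0 := by
          rw [par_sub, par_pos a le_rfl, hpar, sub_self]
        set x : Box d D := ⟨pos a T - c2 T, mem_box.2 hx⟩ with hxdef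
        unfold XV
        rw [Finset.mul_sum]
        set Q : Finset (Fin m → Step d) := Finset.univ.filter (fun u =>
          ∀ i ≤ T + m, ∀ k, |(pos (Fin.append a u) i - c2 i) k| ≤ (D : ℤ)) with hQ
        rw [← Finset.sum_filter, ← hQ]
        have hmem : ∀ u ∈ Q, par x.1 = 0 ∧ ∀ i ≤ m, ∀ k,
            |(x.1 + pos u i - (c2 (T + i) - c2 T)) k| ≤ (D : ℤ) := by
          intro u hu
          refine ⟨hp, fun i hi k => ?_⟩
          have h1 := (Finset.mem_filter.1 hu).2 (T + i) (by omega) k
          rw [pos_append_right] at h1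
          have e : x.1 + pos u i - (c2 (T + i) - c2 T) = pos a T + pos u i - c2 (T + i) := by
            ext l
            simp only [hxdef, Pi.add_apply, Pi.sub_apply]
            ring
          rw [e]
          exact h1
        have hterm2 : ∀ u ∈ Q, Real.exp (β * energy η (Fin.append a u)) ≤
            Real.exp (β * (T * R)) * Real.exp (β * energy (shift T (c2 T + x.1) η) u) := by
          intro u _
          rw [energy_append, ← Real.exp_add, Real.exp_le_exp]
          have e : c2 T + x.1 = pos a T := by
            ext l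
            simp only [hxdef, Pi.add_apply, Pi.sub_apply]
            ring
          rw [e]
          have h1 := (abs_le.1 (energy_le_left hGG a)).2
          have h2 := mul_le_mul_of_nonneg_left h1 hβ.le
          linarith
        refine (Finset.sum_le_sum hterm2).trans ?_
        have e1 : ∑ u ∈ Q, Real.exp (β * (T * R)) *
            Real.exp (β * energy (shift T (c2 T + x.1) η) u) =
            ∑ u ∈ Q.attach, Real.exp (β * (T * R)) *
            Real.exp (β * energy (shift T (c2 T + x.1) η) u.1) :=
          (Finset.sum_attach Q (fun u => Real.exp (β * (T * R)) *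
            Real.exp (β * energy (shift T (c2 T + x.1) η) u))).symm
        rw [e1]
        let ψ : {u // u ∈ Q} → MT (fun i => c2 (T + i) - c2 T) D m :=
          fun u => ⟨(x, u.1), hmem u.1 u.2⟩
        have hψ : Function.Injective ψ := by
          intro u v huv
          have h1 := congrArg (fun p => p.1.2) huv
          exact Subtype.ext h1
        have e2 : ∑ u ∈ Q.attach, Real.exp (β * (T * R)) *
            Real.exp (β * energy (shift T (c2 T + x.1) η) u.1) =
            ∑ p ∈ Q.attach.image ψ, Real.exp (β * (T * R)) *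
              Real.exp (β * energy (shift T (c2 T + p.1.1.1) η) p.1.2) := by
          rw [Finset.sum_image (fun u _ v _ h => hψ h)]
        rw [e2]
        apply Finset.sum_le_sum_of_subset_of_nonneg (Finset.subset_univ _)
        intro p _ _
        positivity
      · have h0 : (∑ u : Fin m → Step d,
            if (∀ i ≤ T + m, ∀ k, |(pos (Fin.append a u) i - c2 i) k| ≤ (D : ℤ)) then
              Real.exp (β * energy η (Fin.append a u)) else 0) = 0 := by
          apply Finset.sum_eq_zero
          intro u _
          rw [if_neg]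
          intro hc
          apply hx
          intro k
          have h1 := hc T (Nat.le_add_right _ _) k
          rwa [pos_append_left a u le_rfl] at h1
        rw [h0]
        positivity
    refine (Finset.sum_le_sum (fun a _ => hterm a)).trans ?_
    rw [Finset.sum_const, Finset.card_univ, Fintype.card_fun, Fintype.card_prod, Fintype.card_fin,
      Fintype.card_bool, Fintype.card_fin, nsmul_eq_mul]
    push_cast
    apply le_of_eq
    ring
  calc (2 * (d : ℝ)) ^ T * Real.exp (β * (T * R)) *
        (∑ u : Fin (T + m) → Step d, if (∀ i ≤ T + m, ∀ k, |(pos u i - c2 i) k| ≤ (D : ℤ)) then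
          Real.exp (β * energy η u) else 0)
      ≤ (2 * (d : ℝ)) ^ T * Real.exp (β * (T * R)) * ((2 * (d : ℝ)) ^ T * Real.exp (β * (T * R)) *
      XV β η (fun i => c2 (T + i) - c2 T) D m T (c2 T)) :=
        mul_le_mul_of_nonneg_left hmain (by positivity)
    _ = _ := by
        push_cast
        rw [pow_add, add_mul, mul_add, Real.exp_add]
        ring

/-- competitor bound in a window -/
lemma comp2 {T m D : ℕ} {η : ℕ → (Fin d → ℤ) → ℝ} {R β : ℝ} (hβ : 0 < β)
    (hG : Good η (T + m + T) R) (c : ℕ → Fin d → ℤ) (hcm : par (c m) = (m : ZMod 2))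
    (z y : Fin d → ℤ)
    (hz : ∀ x : Box d D, par x.1 = 0 → ∃ a : Fin T → Step d, pos a T = z + x.1)
    (hy : ∀ x : Box d D, par x.1 = 0 → ∃ b : Fin T → Step d, pos b T = y - (z + c m + x.1)) :
    XV β η c D m T z ≤ (2 * (D : ℝ) + 1) ^ d * Real.exp (β * ((T + T : ℕ) * R)) *
      ZY β η (T + m + T) y := by
  have hnn : ∀ (a : Fin T → Step d) (v : Fin m → Step d) (b : Fin T → Step d),
      0 ≤ (if pos (Fin.append (Fin.append a v) b) (T + m + T) = y then
        Real.exp (β * energy η (Fin.append (Fin.append a v) b)) else 0) := by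
    intro a v b
    split_ifs
    · positivity
    · exact le_rfl
  have hZ0 : 0 ≤ ZY β η (T + m + T) y := by
    unfold ZY
    apply Finset.sum_nonneg
    intro u _
    split_ifs
    · positivity
    · exact le_rfl
  have h1 : ∀ x : Box d D, par x.1 = 0 → (∑ u : Fin m → Step d,
      if (∀ i ≤ m, ∀ k, |(x.1 + pos u i - c i) k| ≤ (D : ℤ)) then
        Real.exp (β * energy (shift T (z + x.1) η) u) else 0) ≤
      Real.exp (β * ((T + T : ℕ) * R)) * ZY β η (T + m + T) y := by
    intro x hx
    obtain ⟨a, ha⟩ := hz x hx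
    have h2 : (∑ u : Fin m → Step d,
        if (∀ i ≤ m, ∀ k, |(x.1 + pos u i - c i) k| ≤ (D : ℤ)) then
          Real.exp (β * energy (shift T (z + x.1) η) u) else 0) ≤
        Real.exp (β * ((T + T : ℕ) * R)) * ∑ v : Fin m → Step d, ∑ b : Fin T → Step d,
          (if pos (Fin.append (Fin.append a v) b) (T + m + T) = y then
            Real.exp (β * energy η (Fin.append (Fin.append a v) b)) else 0) := by
      rw [Finset.mul_sum]
      apply Finset.sum_le_sum
      intro v _
      by_cases hv : ∀ i ≤ m, ∀ k, |(x.1 + pos v i - c i) k| ≤ (D : ℤ)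
      · rw [if_pos hv]
        have hp : par (x.1 + pos v m - c m) = 0 := by
          rw [par_sub, par_add, hx, par_pos v le_rfl, hcm]
          simp
        obtain ⟨b, hb⟩ := hy ⟨x.1 + pos v m - c m, mem_box.2 (hv m le_rfl)⟩ hp
        have h3 := Finset.single_le_sum (f := fun b : Fin T → Step d =>
          (if pos (Fin.append (Fin.append a v) b) (T + m + T) = y then
            Real.exp (β * energy η (Fin.append (Fin.append a v) b)) else 0))
          (s := Finset.univ) (fun b _ => hnn a v b) (Finset.mem_univ b)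
        refine le_trans ?_ (mul_le_mul_of_nonneg_left h3 (Real.exp_pos _).le)
        have hend : pos (Fin.append (Fin.append a v) b) (T + m + T) = y := by
          rw [pos_append_right, pos_append_right, ha, hb]
          ext l
          simp only [Pi.add_apply, Pi.sub_apply]
          ring
        simp only [hend, if_true]
        rw [energy_append, energy_append, ha, ← Real.exp_add, Real.exp_le_exp]
        have hG' : Good η (T + (m + T)) R := by rw [← add_assoc]; exact hG
        have e1 := (abs_le.1 (energy_le_left hG' a)).1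
        have e2 := (abs_le.1 (energy_le_right hG (Fin.append a v) b)).1
        have e3 := mul_le_mul_of_nonneg_left e1 hβ.le
        have e4 := mul_le_mul_of_nonneg_left e2 hβ.le
        push_cast
        rw [mul_add β (energy η a + _), mul_add]
        nlinarith
      · rw [if_neg hv]
        apply mul_nonneg (Real.exp_pos _).le
        exact Finset.sum_nonneg (fun b _ => hnn a v b)
    refine h2.trans (mul_le_mul_of_nonneg_left ?_ (Real.exp_pos _).le)
    unfold ZY
    rw [sum_append, sum_append]
    exact Finset.single_le_sum (f := fun a => ∑ v : Fin m → Step d,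
      ∑ b : Fin T → Step d, (if pos (Fin.append (Fin.append a v) b) (T + m + T) = y then
        Real.exp (β * energy η (Fin.append (Fin.append a v) b)) else 0))
      (fun a _ => Finset.sum_nonneg (fun v _ => Finset.sum_nonneg (fun b _ => hnn a v b)))
      (Finset.mem_univ a)
  have h2 : XV β η c D m T z = ∑ x : Box d D, (if par x.1 = 0 then ∑ u : Fin m → Step d,
      (if (∀ i ≤ m, ∀ k, |(x.1 + pos u i - c i) k| ≤ (D : ℤ)) then
        Real.exp (β * energy (shift T (z + x.1) η) u) else 0) else 0) := by
    unfold XV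
    have e1 : ∑ x : Box d D, (if par x.1 = 0 then ∑ u : Fin m → Step d,
        (if (∀ i ≤ m, ∀ k, |(x.1 + pos u i - c i) k| ≤ (D : ℤ)) then
          Real.exp (β * energy (shift T (z + x.1) η) u) else 0) else 0) =
        ∑ p : Box d D × (Fin m → Step d), (if (par p.1.1 = 0 ∧
          ∀ i ≤ m, ∀ k, |(p.1.1 + pos p.2 i - c i) k| ≤ (D : ℤ)) then
          Real.exp (β * energy (shift T (z + p.1.1) η) p.2) else 0) := by
      rw [Fintype.sum_prod_type]
      apply Finset.sum_congr rfl
      intro x _
      by_cases h : par x.1 = 0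
      · rw [if_pos h]
        apply Finset.sum_congr rfl
        intro u _
        by_cases h3 : ∀ i ≤ m, ∀ k, |(x.1 + pos u i - c i) k| ≤ (D : ℤ)
        · rw [if_pos h3, if_pos ⟨h, h3⟩]
        · rw [if_neg h3, if_neg (fun h4 => h3 h4.2)]
      · rw [if_neg h]
        symm
        apply Finset.sum_eq_zero
        intro u _
        rw [if_neg (fun h4 => h h4.1)]
    rw [e1, ← Finset.sum_filter]
    rw [← Finset.sum_subtype (Finset.univ.filter (fun p : Box d D × (Fin m → Step d) =>
      par p.1.1 = 0 ∧ ∀ i ≤ m, ∀ k, |(p.1.1 + pos p.2 i - c i) k| ≤ (D : ℤ))) (by simp)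
      (fun p => Real.exp (β * energy (shift T (z + p.1.1) η) p.2))]
  rw [h2]
  calc ∑ x : Box d D, (if par x.1 = 0 then ∑ u : Fin m → Step d,
      (if (∀ i ≤ m, ∀ k, |(x.1 + pos u i - c i) k| ≤ (D : ℤ)) then
        Real.exp (β * energy (shift T (z + x.1) η) u) else 0) else 0)
      ≤ ∑ x : Box d D, Real.exp (β * ((T + T : ℕ) * R)) * ZY β η (T + m + T) y := by
        apply Finset.sum_le_sum
        intro x _
        by_cases h : par x.1 = 0
        · rw [if_pos h]
          exact h1 x h
        · rw [if_neg h]
          positivity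
    _ = _ := by
        rw [Finset.sum_const, Finset.card_univ, Fintype.card_coe, card_box, nsmul_eq_mul]
        push_cast
        ring

/-- comparison with given endpoints in a window -/
lemma compare2 {T m D : ℕ} (hd : 0 < d) {η : ℕ → (Fin d → ℤ) → ℝ} {R β L t : ℝ} (hβ : 0 < β)
    (hG : Good η (T + m + T) R) (c2 : ℕ → Fin d → ℤ) (hpar : par (c2 T) = (T : ZMod 2))
    (hcm : par (c2 (T + m) - c2 T) = (m : ZMod 2))
    (hne : Nonempty (MT (fun i => c2 (T + i) - c2 T) D m)) (v y : Fin d → ℤ)
    (hz : ∀ x : Box d D, par x.1 = 0 → ∃ a : Fin T → Step d, pos a T = c2 T + v + x.1)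
    (hy : ∀ x : Box d D, par x.1 = 0 → ∃ b : Fin T → Step d,
      pos b T = y - (c2 (T + m) + v + x.1))
    (hL : t + 2 * (β * ((T + T : ℕ) * R)) + (T + T : ℕ) * Real.log (2 * d) +
      d * Real.log (2 * D + 1) ≤ L)
    (hlt : Real.log (XV β η (fun i => c2 (T + i) - c2 T) D m T (c2 T)) <
      Real.log (XV β η (fun i => c2 (T + i) - c2 T) D m T (c2 T + v)) - L) :
    (∑ u : Fin (T + m + T) → Step d,
      if (∀ i ≤ T + m + T, ∀ k, |(pos u i - c2 i) k| ≤ (D : ℤ)) then
        Real.exp (β * energy η u) else 0) ≤ Real.exp (-t) * ZY β η (T + m + T) y := by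
  set c : ℕ → Fin d → ℤ := fun i => c2 (T + i) - c2 T with hc
  have hi := inc2 (D := D) hβ hG c2 hpar
  have hj := comp2 (D := D) hβ hG c hcm (c2 T + v) y hz (by
    intro x hx
    obtain ⟨b, hb⟩ := hy x hx
    refine ⟨b, ?_⟩
    rw [hb]
    ext l
    simp only [hc, Pi.add_apply, Pi.sub_apply]
    ring)
  rw [← hc] at hi
  have p0 := XV_pos (T := T) β η hne (c2 T)
  have pj := XV_pos (T := T) β η hne (c2 T + v)
  have hdR : (0 : ℝ) < 2 * d := by
    have : (0 : ℝ) < d := by exact_mod_cast hd
    linarith
  refine hi.trans ?_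
  have hexpX : XV β η c D m T (c2 T) ≤ Real.exp (-L) * XV β η c D m T (c2 T + v) := by
    have h1 : Real.log (XV β η c D m T (c2 T)) ≤
        Real.log (Real.exp (-L) * XV β η c D m T (c2 T + v)) := by
      rw [Real.log_mul (Real.exp_pos _).ne' pj.ne', Real.log_exp]
      linarith
    exact (Real.log_le_log_iff p0 (by positivity)).1 h1
  have e1 : (2 * (d : ℝ)) ^ (T + T) = Real.exp ((T + T : ℕ) * Real.log (2 * d)) := by
    rw [← Real.log_pow, Real.exp_log (by positivity)]
  have e2 : (2 * (D : ℝ) + 1) ^ d = Real.exp (d * Real.log (2 * D + 1)) := by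
    rw [← Real.log_pow, Real.exp_log (by positivity)]
  have hZ0 : 0 ≤ ZY β η (T + m + T) y := by
    unfold ZY
    apply Finset.sum_nonneg
    intro u _
    split_ifs
    · positivity
    · exact le_rfl
  calc (2 * (d : ℝ)) ^ (T + T) * Real.exp (β * ((T + T : ℕ) * R)) * XV β η c D m T (c2 T)
      ≤ (2 * (d : ℝ)) ^ (T + T) * Real.exp (β * ((T + T : ℕ) * R)) *
        (Real.exp (-L) * ((2 * (D : ℝ) + 1) ^ d * Real.exp (β * ((T + T : ℕ) * R)) *
          ZY β η (T + m + T) y)) := by
        apply mul_le_mul_of_nonneg_left _ (by positivity)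
        exact hexpX.trans (mul_le_mul_of_nonneg_left hj (Real.exp_pos _).le)
    _ = Real.exp ((T + T : ℕ) * Real.log (2 * d) + 2 * (β * ((T + T : ℕ) * R)) - L +
        d * Real.log (2 * D + 1)) * ZY β η (T + m + T) y := by
        rw [e1, e2, Real.exp_add, Real.exp_sub, Real.exp_add,
          two_mul (β * ((T + T : ℕ) * R)), Real.exp_add (β * ((T + T : ℕ) * R)), Real.exp_neg]
        field_simp
    _ ≤ _ := by
        apply mul_le_mul_of_nonneg_right _ hZ0
        apply Real.exp_le_exp.2
        linarith

/-- sums over the fibres of the endpoint -/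
lemma fiber_ineq {α γ : Type*} [Fintype α] [DecidableEq γ] (f : α → γ) (A B G : α → ℝ)
    (hG0 : ∀ u, 0 ≤ G u) (hG : ∀ u u', f u = f u' → G u = G u')
    (h : ∀ y, ∑ u ∈ Finset.univ.filter (fun u => f u = y), A u ≤
      ∑ u ∈ Finset.univ.filter (fun u => f u = y), B u) :
    ∑ u, G u * A u ≤ ∑ u, G u * B u := by
  rw [← Finset.sum_fiberwise_of_maps_to (s := Finset.univ) (t := Finset.univ.image f) (g := f)
    (fun u _ => Finset.mem_image_of_mem _ (Finset.mem_univ u)),
    ← Finset.sum_fiberwise_of_maps_to (s := Finset.univ) (t := Finset.univ.image f) (g := f)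
    (fun u _ => Finset.mem_image_of_mem _ (Finset.mem_univ u))]
  apply Finset.sum_le_sum
  intro y hy
  obtain ⟨u0, _, hu0⟩ := Finset.mem_image.1 hy
  have e : ∀ F : α → ℝ, ∑ u ∈ Finset.univ.filter (fun u => f u = y), G u * F u =
      G u0 * ∑ u ∈ Finset.univ.filter (fun u => f u = y), F u := by
    intro F
    rw [Finset.mul_sum]
    apply Finset.sum_congr rfl
    intro u hu
    rw [hG u u0 ((Finset.mem_filter.1 hu).2.trans hu0.symm)]
  rw [e, e]
  exact mul_le_mul_of_nonneg_left (h y) (hG0 u0)

end Pool.Agent.Q220.DP
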