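import Pool.Agent.Q220.DP.Window

open MeasureTheory ProbabilityTheory Filter Topology
open Classical

set_option maxHeartbeats 4000000

namespace Pool.Agent.Q220.DP
open TH967.DP

variable {d : ℕ}

lemma pos_castLE {A N : ℕ} (h : A ≤ N) (w : Fin N → Step d) {i : ℕ} (hi : i ≤ A) :
    pos (fun j : Fin A => w (Fin.castLE h j)) i = pos w i := by
  obtain ⟨r, rfl⟩ := Nat.exists_eq_add_of_le h
  have hw : Fin.append (fun j : Fin A => w (Fin.castAdd r j))
      (fun j : Fin r => w (Fin.natAdd A j)) = w := Fin.append_castAdd_natAdd
  conv_rhs => rw [← hw]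
  rw [pos_append_left _ _ hi]
  rfl

lemma MT_nonempty' {N S m D : ℕ} (h : S + m ≤ N) (w0 : Fin N → Step d) :
    Nonempty (MT (fun i => pos w0 (S + i) - pos w0 S) D m) := by
  obtain ⟨p⟩ := MT_nonempty (T := S) (m := m) (D := D)
    (fun j : Fin (S + m) => w0 (Fin.castLE h j))
  refine ⟨⟨p.1, p.2.1, fun i hi k => ?_⟩⟩
  have h1 := p.2.2 i hi k
  have e1 : pos (fun j : Fin (S + m) => w0 (Fin.castLE h j)) (S + i) = pos w0 (S + i) :=
    pos_castLE h w0 (by omega)
  have e2 : pos (fun j : Fin (S + m) => w0 (Fin.castLE h j)) S = pos w0 S :=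
    pos_castLE h w0 (Nat.le_add_right _ _)
  change |(p.1.1.1 + pos p.1.2 i - (pos w0 (S + i) - pos w0 S)) k| ≤ (D : ℤ)
  rw [← e1, ← e2]
  exact h1

lemma pos_zero {n : ℕ} (w : Fin n → Step d) : pos w 0 = 0 := by
  unfold pos
  simp

lemma append_pos_mid {A B r : ℕ} (a : Fin A → Step d) (u : Fin B → Step d) (b : Fin r → Step d)
    {i : ℕ} (hi : i ≤ B) : pos (Fin.append (Fin.append a u) b) (A + i) = pos a A + pos u i := by
  rw [pos_append_left _ _ (by omega), pos_append_right]

/-- the walks which stay near `w0` in a time window of length `ℓ` that starts at `s` -/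
def tubeS {N n : ℕ} (s ℓ D : ℕ) (w0 : Fin N → Step d) : Set (Fin n → Step d) :=
  {w | ∀ i, s ≤ i → i ≤ s + ℓ → ∀ k, |(pos w i - pos w0 i) k| ≤ (D : ℤ)}

/-- the comparison for the whole polymer -/
lemma glob {N1 T m r D N : ℕ} (hd : 0 < d) {η : ℕ → (Fin d → ℤ) → ℝ} {R β L t : ℝ} (hβ : 0 < β)
    (w0 : Fin N → Step d) (hN : N1 + (T + m + T) ≤ N)
    (hG : Good (shift N1 (pos w0 N1) η) (T + m + T + D) R) (v : Fin d → ℤ) (hv : par v = 0)
    (h1 : ∑ l, |(pos w0 (N1 + T) - pos w0 N1 + v) l| + 2 * d * D ≤ (T : ℤ))
    (h2 : ∑ l, |(pos w0 (N1 + (T + m + T)) - pos w0 (N1 + (T + m)) - v) l| + 2 * d * D ≤ (T : ℤ))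
    (hL : t + 2 * (β * ((T + T : ℕ) * R)) + (T + T : ℕ) * Real.log (2 * d) +
      d * Real.log (2 * D + 1) ≤ L)
    (hlt : Real.log (XV β η (fun i => pos w0 (N1 + T + i) - pos w0 (N1 + T)) D m (N1 + T)
        (pos w0 (N1 + T))) <
      Real.log (XV β η (fun i => pos w0 (N1 + T + i) - pos w0 (N1 + T)) D m (N1 + T)
        (pos w0 (N1 + T) + v)) - L)
    (W : Set (Fin (N1 + (T + m + T) + r) → Step d))
    (hW : ∀ (a : Fin N1 → Step d) (u u' : Fin (T + m + T) → Step d) (b : Fin r → Step d),
      pos u (T + m + T) = pos u' (T + m + T) →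
      (Fin.append (Fin.append a u) b ∈ W ↔ Fin.append (Fin.append a u') b ∈ W)) :
    ∑ w, (W ∩ tubeS N1 (T + m + T) D w0).indicator (fun w => Real.exp (β * energy η w)) w ≤
      Real.exp (-t) * ∑ w, W.indicator (fun w => Real.exp (β * energy η w)) w := by
  rw [sum_append, sum_append, sum_append, sum_append, Finset.mul_sum]
  apply Finset.sum_le_sum
  intro a _
  rw [Finset.sum_comm, Finset.sum_comm (f := fun (u : Fin (T + m + T) → Step d)
    (b : Fin r → Step d) => W.indicator (fun w => Real.exp (β * energy η w))
      (Fin.append (Fin.append a u) b)), Finset.mul_sum]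
  apply Finset.sum_le_sum
  intro b _
  -- notation
  set η2 := shift N1 (pos a N1) η with hη2
  set c2 : ℕ → Fin d → ℤ := fun i => pos w0 (N1 + i) - pos a N1 with hc2
  set G : (Fin (T + m + T) → Step d) → ℝ := fun u =>
    (if Fin.append (Fin.append a u) b ∈ W then (1 : ℝ) else 0) *
      (Real.exp (β * energy η a) * Real.exp (β * energy (shift (N1 + (T + m + T))
        (pos a N1 + pos u (T + m + T)) η) b)) with hGdef
  have hE : ∀ u : Fin (T + m + T) → Step d,
      Real.exp (β * energy η (Fin.append (Fin.append a u) b)) =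
      Real.exp (β * energy η a) * Real.exp (β * energy (shift (N1 + (T + m + T))
        (pos a N1 + pos u (T + m + T)) η) b) * Real.exp (β * energy η2 u) := by
    intro u
    rw [energy_append, energy_append, pos_append_right, ← Real.exp_add, ← Real.exp_add]
    congr 1
    ring
  have hB : ∀ u, W.indicator (fun w => Real.exp (β * energy η w))
      (Fin.append (Fin.append a u) b) = G u * Real.exp (β * energy η2 u) := by
    intro u
    rw [hGdef]
    by_cases hw : Fin.append (Fin.append a u) b ∈ W
    · rw [Set.indicator_of_mem hw, hE]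
      simp only [hw, if_true, one_mul]
    · rw [Set.indicator_of_notMem hw]
      simp only [hw, if_false, zero_mul]
  have hA : ∀ u, (W ∩ tubeS N1 (T + m + T) D w0).indicator (fun w => Real.exp (β * energy η w))
      (Fin.append (Fin.append a u) b) = G u *
        (if (∀ i ≤ T + m + T, ∀ k, |(pos u i - c2 i) k| ≤ (D : ℤ)) then
          Real.exp (β * energy η2 u) else 0) := by
    intro u
    have hiff : Fin.append (Fin.append a u) b ∈ tubeS N1 (T + m + T) D w0 ↔
        (∀ i ≤ T + m + T, ∀ k, |(pos u i - c2 i) k| ≤ (D : ℤ)) := by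
      have e : ∀ i ≤ T + m + T, pos (Fin.append (Fin.append a u) b) (N1 + i) -
          pos w0 (N1 + i) = pos u i - c2 i := by
        intro i hi
        rw [append_pos_mid a u b hi, hc2]
        ext l
        simp only [Pi.add_apply, Pi.sub_apply]
        ring
      constructor
      · intro h i hi k
        rw [← e i hi]
        exact h (N1 + i) (by omega) (by omega) k
      · intro h i hi1 hi2 k
        obtain ⟨j, rfl⟩ := Nat.exists_eq_add_of_le hi1
        rw [e j (by omega)]
        exact h j (by omega) k
    by_cases ht : ∀ i ≤ T + m + T, ∀ k, |(pos u i - c2 i) k| ≤ (D : ℤ)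
    · rw [if_pos ht, ← hB]
      by_cases hw : Fin.append (Fin.append a u) b ∈ W
      · rw [Set.indicator_of_mem hw, Set.indicator_of_mem (Set.mem_inter hw (hiff.2 ht))]
      · rw [Set.indicator_of_notMem hw, Set.indicator_of_notMem (fun h => hw h.1)]
    · rw [if_neg ht, mul_zero, Set.indicator_of_notMem (fun h => ht (hiff.1 h.2))]
  have hrhs : Real.exp (-t) * ∑ u, W.indicator (fun w => Real.exp (β * energy η w))
      (Fin.append (Fin.append a u) b) = ∑ u, G u * (Real.exp (-t) * Real.exp (β * energy η2 u)) := by
    rw [Finset.mul_sum]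
    apply Finset.sum_congr rfl
    intro u _
    rw [hB]
    ring
  rw [hrhs]
  simp_rw [hA]
  apply fiber_ineq (fun u : Fin (T + m + T) → Step d => pos u (T + m + T))
  · intro u
    rw [hGdef]
    positivity
  · intro u u' huu
    rw [hGdef]
    simp only
    rw [huu]
    by_cases hw : Fin.append (Fin.append a u) b ∈ W
    · rw [if_pos hw, if_pos ((hW a u u' b huu).1 hw)]
    · rw [if_neg hw, if_neg (fun h => hw ((hW a u u' b huu).2 h))]
  · intro y
    -- the fibre
    by_cases hex : ∃ u : Fin (T + m + T) → Step d, pos u (T + m + T) = y ∧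
        ∀ i ≤ T + m + T, ∀ k, |(pos u i - c2 i) k| ≤ (D : ℤ)
    · obtain ⟨u, hu1, hu2⟩ := hex
      -- the start
      have hx1 : ∀ k, |(pos a N1 - pos w0 N1) k| ≤ (D : ℤ) := by
        intro k
        have h3 := hu2 0 (Nat.zero_le _) k
        rw [pos_zero, hc2] at h3
        simp only [add_zero, Pi.sub_apply, Pi.zero_apply, zero_sub, neg_sub] at h3
        exact h3
      have hG2 : Good η2 (T + m + T) R := by
        intro i hi1 hi2 x hx
        have h3 := hG i hi1 (by omega) (pos a N1 - pos w0 N1 + x) (by
          intro k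
          have h4 := abs_le.1 (hx1 k)
          have h5 := abs_le.1 (hx k)
          rw [Pi.add_apply, abs_le]
          push_cast at h5 ⊢
          constructor <;> linarith [h4.1, h4.2, h5.1, h5.2])
        have e : shift N1 (pos w0 N1) η i (pos a N1 - pos w0 N1 + x) = η2 i x := by
          rw [hη2]
          unfold shift
          congr 1
          ext l
          simp only [Pi.add_apply, Pi.sub_apply]
          ring
        rw [e] at h3
        exact h3
      have hpar : par (c2 T) = (T : ZMod 2) := by
        rw [hc2]
        simp only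
        rw [par_sub, par_pos w0 (by omega), par_pos a le_rfl]
        push_cast
        ring
      have hpar2 : par (c2 (T + m)) = ((T + m : ℕ) : ZMod 2) := by
        rw [hc2]
        simp only
        rw [par_sub, par_pos w0 (by omega), par_pos a le_rfl]
        push_cast
        ring
      have hcm : par (c2 (T + m) - c2 T) = (m : ZMod 2) := by
        rw [par_sub, hpar, hpar2]
        push_cast
        ring
      have hceq : (fun i => c2 (T + i) - c2 T) =
          fun i => pos w0 (N1 + T + i) - pos w0 (N1 + T) := by
        ext i l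
        rw [hc2]
        simp only [Pi.sub_apply]
        rw [add_assoc]
        ring
      have hne : Nonempty (MT (fun i => c2 (T + i) - c2 T) D m) := by
        rw [hceq]
        exact MT_nonempty' (by omega) w0
      have hpa : par (pos a N1 - pos w0 N1) = 0 := by
        rw [par_sub, par_pos a le_rfl, par_pos w0 (by omega), sub_self]
      have hz : ∀ x : Box d D, par x.1 = 0 → ∃ a' : Fin T → Step d,
          pos a' T = c2 T + v + x.1 := by
        intro x hx
        apply exists_walk hd
        · have e : ∀ l, |(c2 T + v + x.1) l| ≤ |(pos w0 (N1 + T) - pos w0 N1 + v) l| + 2 * D := by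
            intro l
            have h4 := abs_le.1 (hx1 l)
            have h5 := abs_le.1 (mem_box.1 x.2 l)
            have h6 := abs_le.1 (le_refl |(pos w0 (N1 + T) - pos w0 N1 + v) l|)
            rw [hc2]
            simp only [Pi.add_apply, Pi.sub_apply] at h4 h6 ⊢
            rw [abs_le]
            constructor <;> linarith [h4.1, h4.2, h5.1, h5.2, h6.1, h6.2]
          refine (Finset.sum_le_sum (fun l _ => e l)).trans ?_
          rw [Finset.sum_add_distrib, Finset.sum_const, Finset.card_univ, Fintype.card_fin,
            nsmul_eq_mul]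
          linarith
        · rw [par_add, par_add, hx, hv, hpar]
          ring
      have hyb := hu2 (T + m + T) le_rfl
      rw [hu1] at hyb
      have hyp : par y = ((T + m + T : ℕ) : ZMod 2) := by
        rw [← hu1]
        exact par_pos u le_rfl
      have hy : ∀ x : Box d D, par x.1 = 0 → ∃ b' : Fin T → Step d,
          pos b' T = y - (c2 (T + m) + v + x.1) := by
        intro x hx
        apply exists_walk hd
        · have e : ∀ l, |(y - (c2 (T + m) + v + x.1)) l| ≤
              |(pos w0 (N1 + (T + m + T)) - pos w0 (N1 + (T + m)) - v) l| + 2 * D := by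
            intro l
            have h4 := abs_le.1 (hyb l)
            have h5 := abs_le.1 (mem_box.1 x.2 l)
            have h6 := abs_le.1 (le_refl
              |(pos w0 (N1 + (T + m + T)) - pos w0 (N1 + (T + m)) - v) l|)
            rw [hc2] at h4
            rw [hc2]
            simp only [Pi.add_apply, Pi.sub_apply] at h4 h6 ⊢
            rw [abs_le]
            constructor <;> linarith [h4.1, h4.2, h5.1, h5.2, h6.1, h6.2]
          refine (Finset.sum_le_sum (fun l _ => e l)).trans ?_
          rw [Finset.sum_add_distrib, Finset.sum_const, Finset.card_univ, Fintype.card_fin,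
            nsmul_eq_mul]
          linarith
        · rw [par_sub, par_add, par_add, hx, hv, hpar2, hyp]
          push_cast
          ring
      have hlt2 : Real.log (XV β η2 (fun i => c2 (T + i) - c2 T) D m T (c2 T)) <
          Real.log (XV β η2 (fun i => c2 (T + i) - c2 T) D m T (c2 T + v)) - L := by
        rw [hceq, hη2, XV_shift, XV_shift]
        have e1 : pos a N1 + c2 T = pos w0 (N1 + T) := by
          rw [hc2]
          ext l
          simp only [Pi.add_apply, Pi.sub_apply]
          ring
        have e2 : pos a N1 + (c2 T + v) = pos w0 (N1 + T) + v := by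
          rw [← e1]
          ext l
          simp only [Pi.add_apply]
          ring
        rw [e1, e2]
        exact hlt
      have hfin := compare2 (T := T) (m := m) hd hβ hG2 c2 hpar hcm hne v y hz hy hL hlt2
      have hl1 : ∑ u ∈ Finset.univ.filter (fun u : Fin (T + m + T) → Step d =>
          pos u (T + m + T) = y),
          (if (∀ i ≤ T + m + T, ∀ k, |(pos u i - c2 i) k| ≤ (D : ℤ)) then
            Real.exp (β * energy η2 u) else 0) ≤
          ∑ u : Fin (T + m + T) → Step d,
          (if (∀ i ≤ T + m + T, ∀ k, |(pos u i - c2 i) k| ≤ (D : ℤ)) then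
            Real.exp (β * energy η2 u) else 0) := by
        apply Finset.sum_le_sum_of_subset_of_nonneg (Finset.filter_subset _ _)
        intro u _ _
        split_ifs
        · positivity
        · exact le_rfl
      refine hl1.trans (hfin.trans (le_of_eq ?_))
      unfold ZY
      rw [← Finset.mul_sum, Finset.sum_filter]
    · have h0 : ∑ u ∈ Finset.univ.filter (fun u : Fin (T + m + T) → Step d =>
          pos u (T + m + T) = y),
          (if (∀ i ≤ T + m + T, ∀ k, |(pos u i - c2 i) k| ≤ (D : ℤ)) then
            Real.exp (β * energy η2 u) else 0) = 0 := by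
        apply Finset.sum_eq_zero
        intro u hu
        rw [if_neg]
        intro hc
        exact hex ⟨u, (Finset.mem_filter.1 hu).2, hc⟩
      rw [h0]
      apply Finset.sum_nonneg
      intro u _
      positivity

end Pool.Agent.Q220.DP
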