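import Pool.Agent.Q220.DP.Window2

open MeasureTheory ProbabilityTheory Filter Topology
open Classical

set_option maxHeartbeats 4000000

namespace Pool.Agent.Q220.DP
open TH967.DP

variable {d : ℕ} {Ω : Type*} [MeasurableSpace Ω] {P : Measure Ω} [IsProbabilityMeasure P]

omit [IsProbabilityMeasure P] in
/-- the environment seen from another site -/
lemma isEnv_shift {ω : ℕ → (Fin d → ℤ) → Ω → ℝ} (h : IsEnv P ω) (S : ℕ) (z : Fin d → ℤ) :
    IsEnv P (fun i y => ω (S + i) (z + y)) := by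
  refine ⟨fun i y => h.meas _ _, ?_, fun i y => ?_⟩
  · have hinj : Function.Injective (fun s : ℕ × (Fin d → ℤ) => (S + s.1, z + s.2)) := by
      rintro ⟨i, x⟩ ⟨j, y⟩ he
      simp only [Prod.mk.injEq] at he
      have h1 : i = j := by omega
      have h2 : x = y := add_left_cancel he.2
      rw [h1, h2]
    exact h.indep.precomp hinj
  · exact (h.ident _ _).trans (h.ident _ _).symm

lemma good_shift {ω : ℕ → (Fin d → ℤ) → Ω → ℝ} (h : IsEnv P ω)
    (hexp : ∀ b : ℝ, Integrable (fun x => Real.exp (b * ω 1 0 x)) P) (S : ℕ) (z : Fin d → ℤ)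
    (n : ℕ) (R : ℝ) :
    P.real {x | ¬ Good (shift S z (fun i y => ω i y x)) n R} ≤
      n * (2 * n + 1) ^ d * ((∫ x, (Real.exp (ω 1 0 x) + Real.exp (-ω 1 0 x)) ∂P) *
        Real.exp (-R)) := by
  have hs := isEnv_shift h S z
  have hid := (h.ident (S + 1) (z + 0))
  have hexp' : ∀ b : ℝ, Integrable (fun x => Real.exp (b * ω (S + 1) (z + 0) x)) P := by
    intro b
    have h1 := hid.comp (u := fun t : ℝ => Real.exp (b * t)) (by fun_prop)
    exact h1.symm.integrable_snd (hexp b)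
  have h1 := good_bound hs hexp' n R
  have h2 : ∫ x, (Real.exp (ω (S + 1) (z + 0) x) + Real.exp (-ω (S + 1) (z + 0) x)) ∂P =
      ∫ x, (Real.exp (ω 1 0 x) + Real.exp (-ω 1 0 x)) ∂P := by
    have h3 := hid.comp (u := fun t : ℝ => Real.exp t + Real.exp (-t)) (by fun_prop)
    exact h3.integral_eq
  rw [h2] at h1
  exact h1

/-- numerical bound, with a window of length `m ≥ θ n` -/
lemma E_bound2 {n D m : ℕ} {K q κ lp θ : ℝ} (hn1 : (1 : ℝ) ≤ n) (hK : 0 < K) (hq : 0 < q)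
    (hlp : 0 ≤ lp) (hDle : (D : ℝ) ≤ (n : ℝ) ^ κ) (hnκ1 : (1 : ℝ) ≤ (n : ℝ) ^ κ) (hθ : 0 < θ)
    (hmn : θ * n ≤ m) :
    (2 * (n : ℝ) ^ lp + 2) * Real.sqrt ((2 * D + 1) ^ d * K) / (q * Real.sqrt m) ≤
      4 * Real.sqrt (3 ^ d * K) / (Real.sqrt θ * q) * (n : ℝ) ^ (lp + d * κ / 2 - 1 / 2) := by
  have hn0 : (0 : ℝ) < n := by linarith
  set L := (n : ℝ) ^ lp with hL
  have hL1 : 1 ≤ L := Real.one_le_rpow hn1 hlp
  have t1 : 2 * L + 2 ≤ 4 * L := by linarith
  have t2 : Real.sqrt ((2 * D + 1) ^ d * K) ≤ Real.sqrt (3 ^ d * K) * (n : ℝ) ^ (d * κ / 2) := by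
    have : (2 * (D : ℝ) + 1) ^ d * K ≤ (3 ^ d * K) * (n : ℝ) ^ (d * κ) := by
      have u1 : (2 * (D : ℝ) + 1) ≤ 3 * (n : ℝ) ^ κ := by linarith
      have u2 : (2 * (D : ℝ) + 1) ^ d ≤ 3 ^ d * (n : ℝ) ^ (d * κ) := by
        calc (2 * (D : ℝ) + 1) ^ d ≤ (3 * (n : ℝ) ^ κ) ^ d :=
              pow_le_pow_left₀ (by positivity) u1 d
          _ = 3 ^ d * (n : ℝ) ^ (d * κ) := by
              rw [mul_pow, mul_comm (d : ℝ) κ, Real.rpow_mul hn0.le, Real.rpow_natCast]
      calc (2 * (D : ℝ) + 1) ^ d * K ≤ (3 ^ d * (n : ℝ) ^ (d * κ)) * K := by gcongr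
        _ = _ := by ring
    refine (Real.sqrt_le_sqrt this).trans ?_
    rw [Real.sqrt_mul (by positivity)]
    apply le_of_eq
    congr 1
    rw [Real.sqrt_eq_rpow, ← Real.rpow_mul hn0.le]
    congr 1
    ring
  have t3 : Real.sqrt θ * Real.sqrt n ≤ Real.sqrt m := by
    rw [← Real.sqrt_mul hθ.le]
    exact Real.sqrt_le_sqrt hmn
  have hs2 : 0 < Real.sqrt θ := Real.sqrt_pos.2 hθ
  have hsn : 0 < Real.sqrt n := Real.sqrt_pos.2 hn0
  calc (2 * L + 2) * Real.sqrt ((2 * D + 1) ^ d * K) / (q * Real.sqrt m)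
      ≤ (4 * L) * (Real.sqrt (3 ^ d * K) * (n : ℝ) ^ (d * κ / 2)) /
        (q * (Real.sqrt θ * Real.sqrt n)) := by gcongr
    _ = (4 * Real.sqrt (3 ^ d * K) / (Real.sqrt θ * q)) *
        (L * (n : ℝ) ^ (d * κ / 2) / Real.sqrt n) := by
        field_simp
    _ = _ := by
        rw [hL, Real.sqrt_eq_rpow (n : ℝ), ← Real.rpow_add hn0, ← Real.rpow_sub hn0]

/-- an event that does not depend on the walk inside the window from `s` to `s + ℓ` -/
def Outside {n : ℕ} (s ℓ : ℕ) (W : Set (Fin n → Step d)) : Prop :=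
  ∀ w w' : Fin n → Step d, (∀ i ≤ s, pos w i = pos w' i) →
    (∀ i, s + ℓ ≤ i → i ≤ n → pos w i = pos w' i) → (w ∈ W ↔ w' ∈ W)

lemma par_smul_single {k : Fin d} (a : ℤ) : par (Pi.single k (2 * a) : Fin d → ℤ) = 0 := by
  unfold par
  rw [Finset.sum_eq_single k]
  · rw [Pi.single_eq_same]
    push_cast
    have : (2 : ZMod 2) = 0 := by decide
    rw [this, zero_mul]
  · intro l _ hl
    rw [Pi.single_eq_of_ne hl]
    simp
  · intro h
    exact absurd (Finset.mem_univ _) h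

/-- the two blocks for a given centre -/
lemma find_blocks {N s ℓ T h q : ℕ} (hd : 0 < d) (w0 : Fin N → Step d) (hN : s + ℓ ≤ N)
    (hT : 1 ≤ T) (hq : (ℓ / T) * h + T < q)
    (hdisp : ∑ k, |(pos w0 (s + ℓ) - pos w0 s) k| + 8 * d * q ≤ (ℓ : ℤ)) :
    ∃ (s1 s2 : ℕ) (k : Fin d) (σ : ℤ), |σ| = 1 ∧ s1 + T + q ≤ s2 ∧ s2 + T ≤ ℓ ∧
      ∀ A' sl : ℤ, 0 ≤ sl → sl ≤ A' → A' + sl ≤ 2 * h →
        ∑ j, |(pos w0 (s + s1 + T) - pos w0 (s + s1) + (Pi.single k (σ * A') : Fin d → ℤ)) j| + sl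
          ≤ (T : ℤ) ∧
        ∑ j, |(pos w0 (s + s2 + T) - pos w0 (s + s2) - (Pi.single k (σ * A') : Fin d → ℤ)) j| + sl
          ≤ (T : ℤ) := by
  obtain ⟨k, hk1, hk2⟩ := exists_coord w0 hd (a := s) (b := s + ℓ) (x := 4 * q) (by omega) hN (by
    push_cast at hdisp ⊢
    linarith)
  set f : ℕ → ℕ := fun t => cnt w0 (k, true) s (s + t) with hf
  set g : ℕ → ℕ := fun t => cnt w0 (k, false) s (s + t) with hg
  have hfl : ∀ t, f (t + 1) ≤ f t + 1 := fun t => cnt_succ w0 _ s (s + t)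
  have hgl : ∀ t, g (t + 1) ≤ g t + 1 := fun t => cnt_succ w0 _ s (s + t)
  have hf0 : f 0 = 0 := cnt_self w0 _ s
  have hg0 : g 0 = 0 := cnt_self w0 _ s
  obtain ⟨s1, s2, h1, h2, h3⟩ := two_rich hfl hgl hf0 hg0 hT hq hk1 hk2
  have hcnt : ∀ (b : Bool) (t : ℕ), cnt w0 (k, b) s (s + t) + h ≤ cnt w0 (k, b) s (s + (t + T)) →
      h ≤ cnt w0 (k, b) (s + t) (s + t + T) := by
    intro b t ht
    have e := cnt_add w0 (k, b) (a := s) (b := s + t) (c := s + (t + T)) (by omega) (by omega)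
    have e2 : s + (t + T) = s + t + T := by omega
    rw [e2] at e ht
    omega
  have hT1 : ((s + s1 + T : ℕ) : ℤ) - ((s + s1 : ℕ) : ℤ) = T := by push_cast; ring
  have hT2 : ((s + s2 + T : ℕ) : ℤ) - ((s + s2 : ℕ) : ℤ) = T := by push_cast; ring
  rcases h3 with ⟨h3, h4⟩ | ⟨h3, h4⟩
  · refine ⟨s1, s2, k, -1, by simp, h1, h2, fun A' sl hsl0 hsl1 hsl2 => ⟨?_, ?_⟩⟩
    · have := shift_block w0 (a := s + s1) (b := s + s1 + T) (by omega) (by omega)
        (hcnt true s1 h3) hsl0 hsl1 hsl2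
      rw [hT1] at this
      simpa using this
    · have := shift_block w0 (a := s + s2) (b := s + s2 + T) (by omega) (by omega)
        (hcnt false s2 h4) hsl0 hsl1 hsl2
      rw [hT2] at this
      have e : pos w0 (s + s2 + T) - pos w0 (s + s2) - (Pi.single k (-1 * A') : Fin d → ℤ) =
          pos w0 (s + s2 + T) - pos w0 (s + s2) +
            (Pi.single k ((if false = true then -1 else 1) * A') : Fin d → ℤ) := by
        rw [sub_eq_add_neg, ← Pi.single_neg]
        congr 2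
        simp
      rw [e]
      exact this
  · refine ⟨s1, s2, k, 1, by simp, h1, h2, fun A' sl hsl0 hsl1 hsl2 => ⟨?_, ?_⟩⟩
    · have := shift_block w0 (a := s + s1) (b := s + s1 + T) (by omega) (by omega)
        (hcnt false s1 h3) hsl0 hsl1 hsl2
      rw [hT1] at this
      simpa using this
    · have := shift_block w0 (a := s + s2) (b := s + s2 + T) (by omega) (by omega)
        (hcnt true s2 h4) hsl0 hsl1 hsl2
      rw [hT2] at this
      have e : pos w0 (s + s2 + T) - pos w0 (s + s2) - (Pi.single k (1 * A') : Fin d → ℤ) =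
          pos w0 (s + s2 + T) - pos w0 (s + s2) +
            (Pi.single k ((if true = true then -1 else 1) * A') : Fin d → ℤ) := by
        rw [sub_eq_add_neg, ← Pi.single_neg]
        congr 2
        simp
      rw [e]
      exact this

/-- The polymer does not stay near a deterministic walk in a time window, whatever it does outside
the window. -/
theorem window_tube {ω : ℕ → (Fin d → ℤ) → Ω → ℝ} (h : IsEnv P ω) (hd : 0 < d)
    (hexp : ∀ b : ℝ, Integrable (fun x => Real.exp (b * ω 1 0 x)) P)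
    (hnc : ¬ ∃ c : ℝ, ∀ᵐ x ∂P, ω 1 0 x = c) {β : ℝ} (hβ : 0 < β) {κ c ε : ℝ} (hκ : 0 < κ)
    (hc0 : 0 ≤ c) (hc : 3 * c < (1 - d * κ) / 2 - κ) (hε : 0 < ε) :
    ∀ᶠ ℓ : ℕ in atTop, ∀ (s N : ℕ) (w0 : Fin N → Step d), s + ℓ ≤ N →
      ((∑ k, |(pos w0 (s + ℓ) - pos w0 s) k| : ℤ) : ℝ) ≤ (1 - ε) * ℓ →
      P.real {x | ∃ n, s + ℓ ≤ n ∧ ∃ W : Set (Fin n → Step d), Outside s ℓ W ∧
        Real.exp (-(ℓ : ℝ) ^ κ) *
          ∑ w, W.indicator (fun w => Real.exp (β * energy (fun i y => ω i y x) w)) w <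
        ∑ w, (W ∩ tubeS s ℓ ⌊(ℓ : ℝ) ^ κ⌋₊ w0).indicator
          (fun w => Real.exp (β * energy (fun i y => ω i y x) w)) w} ≤ (ℓ : ℝ) ^ (-c) := by
  obtain ⟨a, b, hab, hp, hm⟩ := exists_gap (h.meas 1 0) hexp hnc
  set K := 1 / (P.map (ω 1 0)).real (Set.Ici b) + 1 / (P.map (ω 1 0)).real (Set.Iic a) with hK
  have hKpos : 0 < K := by positivity
  set q := 1 - Real.exp (-(β * (b - a))) with hq
  have hqpos : 0 < q := by
    rw [hq]
    have : Real.exp (-(β * (b - a))) < 1 := by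
      rw [← Real.exp_zero]
      apply Real.exp_lt_exp.2
      have := mul_pos hβ (sub_pos.2 hab)
      linarith
    linarith
  have hdR : (0 : ℝ) < d := by exact_mod_cast hd
  set g0 := (1 - d * κ) / 2 - κ with hg0
  set δ := (g0 - 3 * c) / 8 with hδ
  have hδ0 : 0 < δ := by rw [hδ]; linarith
  set al := c + δ with hal
  set e := δ with he
  set lp := κ + al + 2 * δ with hlp
  have hdκ : (0 : ℝ) ≤ d * κ := by positivity
  have hκ1 : κ + al < 1 := by
    rw [hal]
    linarith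
  have hlp1 : κ < lp := by rw [hlp, hal]; linarith
  have hlp2 : κ + al < lp := by rw [hlp]; linarith
  have hlp4 : κ + al + e < lp := by rw [hlp, he]; linarith
  have hlp0 : 0 ≤ lp := by linarith
  set K1 := ∫ x, (Real.exp (ω 1 0 x) + Real.exp (-ω 1 0 x)) ∂P with hK1
  have hK1pos : 0 ≤ K1 := integral_nonneg (fun x => by positivity)
  set θ := ε / (16 * d) with hθ
  have hθ0 : 0 < θ := by rw [hθ]; positivity
  set C := 4 * Real.sqrt (3 ^ d * K) / (Real.sqrt θ * q) with hC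
  have hCpos : 0 ≤ C := by positivity
  have hlogd : 0 ≤ Real.log (2 * d) := by
    apply Real.log_nonneg
    have : (1 : ℝ) ≤ d := by exact_mod_cast hd
    linarith
  -- `T ≤ A ℓ^(κ+al)`
  set A : ℝ := (32 * d / ε) * (4 * d) + 2 with hA
  have hA0 : 0 < A := by rw [hA]; positivity
  have q0 := pow_dom hκ1 ((A + 2) * (32 * d / ε))
  have q2 := pow_dom hlp1 (3 * (1 + 2 * d))
  have q3 := pow_dom hlp4 (3 * (4 * β * A))
  have q4 := pow_dom hlp2 (3 * (2 * A * Real.log (2 * d)))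
  have q5 := pow_dom (s := -al) (t := -c) (by rw [hal]; linarith) 3
  have q6 := pow_dom (s := al + (lp + d * κ / 2 - 1 / 2)) (t := -c)
    (by rw [hlp, hal]; linarith) (3 * C)
  -- the event of large values in a box of size `2ℓ`
  have q7 := G_dom (e := e) (K1 := 2 * 2 ^ d * K1) (by rw [he]; linarith) (by positivity) d c
  have q8 : ∀ᶠ n : ℕ in atTop, (16 * d / ε : ℝ) ≤ n := by
    obtain ⟨N0, hN0⟩ := exists_nat_ge (16 * d / ε : ℝ)
    filter_upwards [eventually_ge_atTop N0] with n hn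
    exact hN0.trans (by exact_mod_cast hn)
  filter_upwards [q0, q2, q3, q4, q5, q6, q7, q8, eventually_ge_atTop 1] with
    n r0 r2 r3 r4 r5 r6 r7 r8 hn
  intro s N w0 hN hdisp
  have hn1 : (1 : ℝ) ≤ n := by exact_mod_cast hn
  have hn0 : (0 : ℝ) < n := by linarith
  set D := ⌊(n : ℝ) ^ κ⌋₊ with hD
  set M := ⌊(n : ℝ) ^ al⌋₊ with hM
  have hal0 : 0 < al := by rw [hal]; linarith
  have hnκ1 : (1 : ℝ) ≤ (n : ℝ) ^ κ := Real.one_le_rpow hn1 hκ.le
  have hnal1 : (1 : ℝ) ≤ (n : ℝ) ^ al := Real.one_le_rpow hn1 hal0.le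
  have hD1 : 1 ≤ D := Nat.le_floor (by exact_mod_cast hnκ1)
  have hM1 : 1 ≤ M := Nat.le_floor (by exact_mod_cast hnal1)
  have hDle : (D : ℝ) ≤ (n : ℝ) ^ κ := Nat.floor_le (by positivity)
  have hMle : (M : ℝ) ≤ (n : ℝ) ^ al := Nat.floor_le (by positivity)
  have hMlt : (n : ℝ) ^ al < (M : ℝ) + 1 := Nat.lt_floor_add_one _
  set Δ := 4 * d * D with hΔ
  set hh := M * Δ with hhh
  set T := ⌈(32 * d / ε : ℝ) * hh⌉₊ + 1 with hT
  set qq := ⌊ε * n / (8 * d)⌋₊ with hqq
  have hT1 : 1 ≤ T := by rw [hT]; omega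
  have hnκal : (1 : ℝ) ≤ (n : ℝ) ^ (κ + al) := Real.one_le_rpow hn1 (by linarith)
  have hhle : (hh : ℝ) ≤ 4 * d * (n : ℝ) ^ (κ + al) := by
    rw [hhh, hΔ, Real.rpow_add hn0]
    push_cast
    calc (M : ℝ) * (4 * d * D) = 4 * d * (D * M) := by ring
      _ ≤ 4 * d * ((n : ℝ) ^ κ * (n : ℝ) ^ al) := by gcongr
  have hTub : (T : ℝ) ≤ (32 * d / ε : ℝ) * hh + 2 := by
    have := Nat.ceil_lt_add_one (show (0 : ℝ) ≤ (32 * d / ε : ℝ) * hh by positivity)
    rw [hT]
    push_cast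
    linarith
  have hTlb : (32 * d / ε : ℝ) * hh ≤ T := by
    have := Nat.le_ceil ((32 * d / ε : ℝ) * hh)
    rw [hT]
    push_cast
    linarith
  have hTle : (T : ℝ) ≤ A * (n : ℝ) ^ (κ + al) := by
    refine hTub.trans ?_
    rw [hA, add_mul]
    have : (32 * d / ε : ℝ) * hh ≤ (32 * d / ε) * (4 * d * (n : ℝ) ^ (κ + al)) := by gcongr
    nlinarith
  rw [Real.rpow_one] at r0
  have hε32 : (0 : ℝ) < 32 * d / ε := by positivity
  -- `T + 2 ≤ ε n / (32 d)`
  have hTn : (T : ℝ) + 2 ≤ ε * n / (32 * d) := by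
    have h1 : ((T : ℝ) + 2) * (32 * d / ε) ≤ n := by
      have : (T : ℝ) + 2 ≤ (A + 2) * (n : ℝ) ^ (κ + al) := by nlinarith
      calc ((T : ℝ) + 2) * (32 * d / ε) ≤ ((A + 2) * (n : ℝ) ^ (κ + al)) * (32 * d / ε) := by
            gcongr
        _ = (A + 2) * (32 * d / ε) * (n : ℝ) ^ (κ + al) := by ring
        _ ≤ n := r0
    rw [le_div_iff₀ (by positivity)]
    have h2 : ((T : ℝ) + 2) * (32 * d / ε) = ((T : ℝ) + 2) * (32 * d) / ε := by ring
    rw [h2, div_le_iff₀ hε] at h1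
    linarith
  have hqlb : ε * n / (8 * d) < qq + 1 := Nat.lt_floor_add_one _
  have hqub : (qq : ℝ) ≤ ε * n / (8 * d) := Nat.floor_le (by positivity)
  have h4 : ε * n / (8 * d) = 4 * (ε * n / (32 * d)) := by
    field_simp
    ring
  -- the number of blocks
  have hqcond : (n / T) * hh + T < qq := by
    have h1 : (((n / T) * hh : ℕ) : ℝ) ≤ ε * n / (32 * d) := by
      have h2 : ((n / T : ℕ) : ℝ) ≤ (n : ℝ) / T := Nat.cast_div_le
      have hTpos : (0 : ℝ) < T := by exact_mod_cast hT1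
      push_cast
      calc ((n / T : ℕ) : ℝ) * hh ≤ ((n : ℝ) / T) * hh := by gcongr
        _ = n * hh / T := by ring
        _ ≤ ε * n / (32 * d) := by
            rw [div_le_div_iff₀ hTpos (by positivity)]
            have h5 : (32 * d : ℝ) * hh ≤ ε * T := by
              have : (32 * d / ε : ℝ) * hh * ε ≤ T * ε := by gcongr
              have e3 : (32 * d / ε : ℝ) * hh * ε = 32 * d * hh := by field_simp
              rw [e3] at this
              linarith
            calc (n : ℝ) * hh * (32 * d) = n * (32 * d * hh) := by ring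
              _ ≤ n * (ε * T) := by gcongr
              _ = ε * n * T := by ring
    have h3 : ((((n / T) * hh + T : ℕ)) : ℝ) < qq := by
      push_cast at h1 ⊢
      have hTp : (0 : ℝ) ≤ T := by positivity
      linarith
    exact_mod_cast h3
  have hdisp2 : ∑ k, |(pos w0 (s + n) - pos w0 s) k| + 8 * d * qq ≤ (n : ℤ) := by
    have h1 : (8 * d : ℝ) * qq ≤ ε * n := by
      have := mul_le_mul_of_nonneg_left hqub (show (0 : ℝ) ≤ 8 * d by positivity)
      have e3 : (8 * d : ℝ) * (ε * n / (8 * d)) = ε * n := by field_simp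
      rw [e3] at this
      exact this
    have h2 : ((∑ k, |(pos w0 (s + n) - pos w0 s) k| + 8 * d * qq : ℤ) : ℝ) ≤ ((n : ℤ) : ℝ) := by
      push_cast at hdisp ⊢
      linarith
    exact_mod_cast h2
  obtain ⟨s1, s2, k, σ, hσ, hs12, hs2, hsh⟩ := find_blocks hd w0 hN hT1 hqcond hdisp2
  obtain ⟨m, hm2⟩ := Nat.exists_eq_add_of_le (show s1 + T ≤ s2 by omega)
  have hmq : qq ≤ m := by omega
  have hmn : θ * n ≤ m := by
    have h1 : (qq : ℝ) ≤ m := by exact_mod_cast hmq
    have h2 : θ * n = 2 * (ε * n / (32 * d)) := by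
      rw [hθ]
      field_simp
      ring
    have h3 : (1 : ℝ) ≤ 2 * (ε * n / (32 * d)) := by
      have := (show (0 : ℝ) ≤ T by positivity)
      linarith
    linarith
  have hm1 : 1 ≤ m := by
    have : (0 : ℝ) < m := lt_of_lt_of_le (by positivity) hmn
    exact_mod_cast this
  set L := (n : ℝ) ^ lp with hL
  have hL1 : 1 ≤ L := Real.one_le_rpow hn1 hlp0
  have hLcond : (n : ℝ) ^ κ + 2 * (β * ((T + T : ℕ) * (n : ℝ) ^ e)) +
      (T + T : ℕ) * Real.log (2 * d) + d * Real.log (2 * D + 1) ≤ L := by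
    have s1' : (d : ℝ) * Real.log (2 * D + 1) ≤ 2 * d * (n : ℝ) ^ κ := by
      have : Real.log (2 * (D : ℝ) + 1) ≤ 2 * D := by
        have := Real.log_le_sub_one_of_pos (show (0 : ℝ) < 2 * (D : ℝ) + 1 by positivity)
        linarith
      calc (d : ℝ) * Real.log (2 * D + 1) ≤ d * (2 * (n : ℝ) ^ κ) := by
            apply mul_le_mul_of_nonneg_left _ (by positivity)
            linarith
        _ = _ := by ring
    have s2' : 2 * (β * ((T + T : ℕ) * (n : ℝ) ^ e)) ≤ 4 * β * A * (n : ℝ) ^ (κ + al + e) := by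
      rw [Real.rpow_add hn0 (κ + al) e]
      push_cast
      calc 2 * (β * (((T : ℝ) + T) * (n : ℝ) ^ e)) = 4 * (β * (T * (n : ℝ) ^ e)) := by ring
        _ ≤ 4 * (β * ((A * (n : ℝ) ^ (κ + al)) * (n : ℝ) ^ e)) := by gcongr
        _ = _ := by ring
    have s3' : ((T + T : ℕ) : ℝ) * Real.log (2 * d) ≤
        2 * A * Real.log (2 * d) * (n : ℝ) ^ (κ + al) := by
      push_cast
      calc ((T : ℝ) + T) * Real.log (2 * d) = 2 * (T * Real.log (2 * d)) := by ring
        _ ≤ 2 * ((A * (n : ℝ) ^ (κ + al)) * Real.log (2 * d)) := by gcongr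
        _ = _ := by ring
    linarith
  -- the window and the direction
  set N1 := s + s1 with hN1
  have hwin : N1 + (T + m + T) ≤ N := by omega
  set ev : Fin d → ℤ := Pi.single k (σ * Δ) with hev
  have hek : 2 * (D : ℤ) < |ev k| := by
    rw [hev, Pi.single_eq_same, abs_mul, hσ, one_mul, abs_of_nonneg (by positivity)]
    exact two_lt hd hD1
  set cc : ℕ → Fin d → ℤ := fun i => pos w0 (N1 + T + i) - pos w0 (N1 + T) with hcc
  have hne : Nonempty (MT cc D m) := MT_nonempty' (by omega) w0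
  have hbox : T + m + T + D ≤ 2 * n := by
    have h1 : T + m + T ≤ n := by omega
    have h2 : D ≤ n := by
      have h3 : (D : ℝ) ≤ n := by
        refine hDle.trans ?_
        calc (n : ℝ) ^ κ ≤ (n : ℝ) ^ (1 : ℝ) := by
              apply Real.rpow_le_rpow_of_exponent_le hn1
              linarith
          _ = n := Real.rpow_one _
      exact_mod_cast h3
    omega
  have hsub : {x | ∃ n', s + n ≤ n' ∧ ∃ W : Set (Fin n' → Step d), Outside s n W ∧
        Real.exp (-(n : ℝ) ^ κ) *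
          ∑ w, W.indicator (fun w => Real.exp (β * energy (fun i y => ω i y x) w)) w <
        ∑ w, (W ∩ tubeS s n D w0).indicator
          (fun w => Real.exp (β * energy (fun i y => ω i y x) w)) w} ⊆
      {x | ¬ Good (shift N1 (pos w0 N1) (fun i y => ω i y x)) (2 * n) ((n : ℝ) ^ e)} ∪
        {x | ∀ j : Fin (M + 1), Real.log (XV β (fun i y => ω i y x) cc D m (N1 + T)
        (pos w0 (N1 + T) + (j.val : ℤ) • ev)) - L ≤ Real.log (XV β (fun i y => ω i y x) cc D m
        (N1 + T) (pos w0 (N1 + T) + ((0 : Fin (M + 1)).val : ℤ) • ev))} := by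
    intro x hx
    by_contra hcon
    simp only [Set.mem_union, Set.mem_ofPred_eq, not_or, not_not, not_forall, not_le] at hcon
    obtain ⟨hG, j, hj⟩ := hcon
    obtain ⟨n', hn', W, hW, hlt⟩ := hx
    have hz0 : pos w0 (N1 + T) + (((0 : Fin (M + 1)).val : ℕ) : ℤ) • ev = pos w0 (N1 + T) := by
      simp
    rw [hz0] at hj
    have hj0 : 1 ≤ j.val := by
      rcases Nat.eq_zero_or_pos j.val with h0 | h0
      · exfalso
        rw [h0] at hj
        simp only [Nat.cast_zero, zero_smul, add_zero] at hj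
        linarith
      · exact h0
    have hjM : j.val ≤ M := by have := j.isLt; omega
    have hvj : (j.val : ℤ) • ev = Pi.single k (σ * (j.val * Δ : ℕ)) := by
      rw [hev, ← Pi.single_smul]
      congr 1
      rw [smul_eq_mul]
      push_cast
      ring
    have hΔ2 : Δ = 2 * (2 * d * D) := by rw [hΔ]; ring
    have hnat1 : 2 * d * D ≤ j.val * Δ := by
      calc 2 * d * D ≤ Δ := by rw [hΔ2]; omega
        _ = 1 * Δ := by ring
        _ ≤ j.val * Δ := Nat.mul_le_mul_right _ hj0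
    have hnat2 : j.val * Δ + 2 * d * D ≤ 2 * hh := by
      have e1 : j.val * Δ ≤ M * Δ := Nat.mul_le_mul_right _ hjM
      have e2 : 2 * d * D ≤ M * Δ := by
        calc 2 * d * D ≤ Δ := by rw [hΔ2]; omega
          _ = 1 * Δ := by ring
          _ ≤ M * Δ := Nat.mul_le_mul_right _ hM1
      rw [hhh]
      omega
    obtain ⟨hsh1, hsh2⟩ := hsh ((j.val * Δ : ℕ) : ℤ) ((2 * d * D : ℕ) : ℤ) (by positivity)
      (by exact_mod_cast hnat1) (by exact_mod_cast hnat2)
    have hv : par ((j.val : ℤ) • ev) = 0 := by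
      rw [hvj]
      have : σ * ((j.val * Δ : ℕ) : ℤ) = 2 * (σ * (j.val * (2 * d * D) : ℕ)) := by
        rw [hΔ2]
        push_cast
        ring
      rw [this]
      exact par_smul_single _
    have hGw : Good (shift N1 (pos w0 N1) (fun i y => ω i y x)) (T + m + T + D)
        ((n : ℝ) ^ e) := by
      intro i hi1 hi2 z hz
      apply hG i hi1 (by omega) z
      intro l
      have h5 := hz l
      push_cast at h5 ⊢
      omega
    obtain ⟨r, hr⟩ := Nat.exists_eq_add_of_le (show N1 + (T + m + T) ≤ n' by omega)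
    subst hr
    have hfin := glob (r := r) hd hβ w0 hwin hGw ((j.val : ℤ) • ev) hv
      (by
        rw [hvj]
        have e1 : N1 + T = s + s1 + T := by rw [hN1]
        rw [e1, hN1]
        have e2 : (2 * d * D : ℤ) = ((2 * d * D : ℕ) : ℤ) := by push_cast; ring
        rw [e2]
        exact hsh1)
      (by
        rw [hvj]
        have e1 : N1 + (T + m + T) = s + s2 + T := by omega
        have e3 : N1 + (T + m) = s + s2 := by omega
        rw [e1, e3]
        have e2 : (2 * d * D : ℤ) = ((2 * d * D : ℕ) : ℤ) := by push_cast; ring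
        rw [e2]
        exact hsh2)
      hLcond hj W (by
        intro a' u u' b' huu
        apply hW
        · intro i hi
          rw [pos_append_left _ _ (by omega), pos_append_left _ _ (by omega),
            pos_append_left _ _ (by omega), pos_append_left _ _ (by omega)]
        · intro i hi1 hi2
          obtain ⟨i', rfl⟩ := Nat.exists_eq_add_of_le (show N1 + (T + m + T) ≤ i by omega)
          rw [pos_append_right, pos_append_right, pos_append_right, pos_append_right, huu])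
    have hmono : ∑ w, (W ∩ tubeS s n D w0).indicator
          (fun w => Real.exp (β * energy (fun i y => ω i y x) w)) w ≤
        ∑ w, (W ∩ tubeS N1 (T + m + T) D w0).indicator
          (fun w => Real.exp (β * energy (fun i y => ω i y x) w)) w := by
      apply Finset.sum_le_sum
      intro w _
      apply Set.indicator_le_indicator_of_subset _ (fun _ => (Real.exp_pos _).le)
      intro w hw
      refine ⟨hw.1, fun i hi1 hi2 => hw.2 i (by omega) (by omega)⟩
    exact absurd hlt (not_lt.2 (hmono.trans hfin))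
  have b1 := good_shift h hexp N1 (pos w0 N1) (2 * n) ((n : ℝ) ^ e)
  have b1' : ((2 * n : ℕ) : ℝ) * (2 * ((2 * n : ℕ) : ℝ) + 1) ^ d *
      (K1 * Real.exp (-(n : ℝ) ^ e)) ≤
      (n : ℝ) * (2 * n + 1) ^ d * ((2 * 2 ^ d * K1) * Real.exp (-(n : ℝ) ^ e)) := by
    push_cast
    have e1 : (2 * (2 * (n : ℝ)) + 1) ^ d ≤ (2 * (2 * (n : ℝ) + 1)) ^ d := by
      apply pow_le_pow_left₀ (by positivity)
      linarith
    rw [mul_pow] at e1
    have e2 : 0 ≤ K1 * Real.exp (-(n : ℝ) ^ e) := by positivity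
    calc 2 * (n : ℝ) * (2 * (2 * (n : ℝ)) + 1) ^ d * (K1 * Real.exp (-(n : ℝ) ^ e))
        ≤ 2 * (n : ℝ) * (2 ^ d * (2 * (n : ℝ) + 1) ^ d) * (K1 * Real.exp (-(n : ℝ) ^ e)) := by
          gcongr
      _ = _ := by ring
  have b2 := max_boundM h hβ hab hp hm cc (pos w0 (N1 + T)) ev (D := D) (m := m) (N1 + T) M hek
    hne hm1 (L := L) (by linarith)
  have b3 := E_bound2 (d := d) (n := n) (D := D) (m := m) hn1 hKpos hqpos hlp0 hDle hnκ1 hθ0 hmn
  have b4 : (1 : ℝ) / (M + 1) ≤ (n : ℝ) ^ (-al) := by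
    rw [Real.rpow_neg hn0.le, ← one_div]
    apply one_div_le_one_div_of_le (by positivity) hMlt.le
  have b5 : (M : ℝ) * (C * (n : ℝ) ^ (lp + d * κ / 2 - 1 / 2)) ≤
      C * (n : ℝ) ^ (al + (lp + d * κ / 2 - 1 / 2)) := by
    rw [Real.rpow_add hn0 al]
    calc (M : ℝ) * (C * (n : ℝ) ^ (lp + d * κ / 2 - 1 / 2))
        ≤ (n : ℝ) ^ al * (C * (n : ℝ) ^ (lp + d * κ / 2 - 1 / 2)) := by gcongr
      _ = _ := by ring
  have b6 : (M : ℝ) * ((2 * L + 2) * Real.sqrt ((2 * D + 1) ^ d * K) / (q * Real.sqrt m)) ≤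
      (M : ℝ) * (C * (n : ℝ) ^ (lp + d * κ / 2 - 1 / 2)) := by gcongr
  refine (measureReal_mono hsub (measure_ne_top _ _)).trans ?_
  refine (measureReal_union_le _ _).trans ?_
  linarith

end Pool.Agent.Q220.DP
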